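import Mathlib
import Pool.Agent.RJ.OPR

/-!
Sacks' question, negative answer: definitions.

`rl u` is the real number with the binary expansion `u`; `nm ν u` is the name of the parameter `ν`
dithered by `u`; `XX ν u = u ⊕ nm ν u`; `ff r ν u = W_r^(XX ν u)`.
-/

set_option autoImplicit false

namespace Pool.Agent.SAX

open MeasureTheory Encodable Pool.Agent.H19 Pool.Agent.AEI Pool.Agent.RJ
open Nat.Partrec (Code)

/-- The real number with the binary expansion `u`. -/
noncomputable def rl (u : ℕ → Bool) : ℝ := ∑' m, (if u m then (1 : ℝ) else 0) / 2 ^ (m + 1)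

/-- The index of the bit `(j, N, p)`. -/
def tr (j N p : ℕ) : ℕ := Nat.pair j (Nat.pair N p)

/-- The name of `ν` dithered by `u`: the bit `(j, N, p)` tells whether `p + rl u < N * ν j`. -/
noncomputable def nm (ν : ℕ → ℝ) (u : ℕ → Bool) : ℕ → Bool := fun i =>
  decide ((i.unpair.2.unpair.2 : ℝ) + rl u < (i.unpair.2.unpair.1 : ℝ) * ν i.unpair.1)

/-- `Y` is a name of `ν`. -/
def IsName (ν : ℕ → ℝ) (Y : ℕ → Bool) : Prop :=
  ∀ j N p : ℕ, (Y (tr j N p) = true → (p : ℝ) ≤ N * ν j) ∧
    (Y (tr j N p) = false → (N : ℝ) * ν j ≤ p + 1)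

/-- The exceptional set. -/
def Zb (ν : ℕ → ℝ) : Set (ℕ → Bool) := {u | ∃ j N p : ℕ, (p : ℝ) + rl u = N * ν j}

/-- The typical real. -/
noncomputable def XX (ν : ℕ → ℝ) (u : ℕ → Bool) : ℕ → Bool := jn u (nm ν u)

/-- The operator at the typical real. -/
noncomputable def ff (r : Code) (ν : ℕ → ℝ) (u : ℕ → Bool) : ℕ → Bool := op r (XX ν u)

/-- A bound for the strings in the `n`-th question. -/
def gL (n : ℕ) : ℕ := (cand (n / 2)).1 + ((cand (n / 2)).2.flatMap fun p => p.2).length

/-- The `n`-th question: `σ` is an initial segment of `u`, `τ` an initial segment of the set `A`.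
For even `n`: all positions where the candidate has a one belong to `A`; for odd `n`: some position
where the candidate has a zero belongs to `A`. -/
def gB (n : ℕ) (σ τ : List Bool) : Bool :=
  if n % 2 = 0 then
    (List.range (look (cand (n / 2)) (σ.take (cand (n / 2)).1)).length).all fun m =>
      !((look (cand (n / 2)) (σ.take (cand (n / 2)).1)).getD m false) || τ.getD m false
  else
    (List.range (look (cand (n / 2)) (σ.take (cand (n / 2)).1)).length).any fun m =>
      !((look (cand (n / 2)) (σ.take (cand (n / 2)).1)).getD m false) && τ.getD m false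

/-- The `n`-th statistic of the function `f`. -/
noncomputable def stt (f : (ℕ → Bool) → (ℕ → Bool)) (n : ℕ) : ℝ :=
  coin.real {u | gB n (pre u (gL n)) (pre (f u) (gL n)) = true}

/-- The first `l` bits of the stage approximation of `W_r`, given by the initial segment `ξ` of
the oracle. -/
def wap (r : Code) (l : ℕ) (ξ : List Bool) : List Bool := (List.range l).map fun m => cvg r m ξ

/-- The stage `s` approximation of the `n`-th statistic of `ff r ν`. -/
noncomputable def Sst (r : Code) (n s : ℕ) (ν : ℕ → ℝ) : ℝ :=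
  coin.real {u | gB n (pre u (gL n)) (wap r (gL n) (pre (XX ν u) s)) = true}

/-- The measure of the set of the `u` such that `e` enters the jump of `XX ν u` after the stage `n`
and before the stage `s`. -/
noncomputable def aJ (e n s : ℕ) (ν : ℕ → ℝ) : ℝ :=
  coin.real {u | jap e (pre (XX ν u) s) = true ∧ jap e (pre (XX ν u) n) = false}

/-- The speed at which the `k`-th fact about `ν` is seen. -/
noncomputable def dk (k : ℕ) (ν : ℕ → ℝ) : ℝ :=
  ∑' s, (1 / 2 : ℝ) ^ (s + 1) * max 0 (aJ k.unpair.1 k.unpair.2 s ν - (1 / 2 : ℝ) ^ k.unpair.1)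

open Classical in
/-- The true facts about `ν`. -/
noncomputable def KK (ν : ℕ → ℝ) : ℕ → Bool := fun k => decide (0 < dk k ν)

/-- The fixed point property. -/
def FP (r : Code) (ν : ℕ → ℝ) : Prop :=
  ∀ k, 0 < dk k ν → ∀ n, (∀ s : ℕ, (s : ℝ) * dk k ν ≤ 1 → Sst r n s ν ≤ ν (Nat.pair k n)) ∧
    ν (Nat.pair k n) ≤ stt (ff r ν) n

/-- `r` is a degree invariant solution to Post's problem. -/
structure Sol (r : Code) : Prop where
  above : ∀ X, TuringReducible (chi X) (chi (op r X))
  strict : ∀ X, ¬ TuringReducible (chi (op r X)) (chi X)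
  below : ∀ X, ¬ TuringReducible (chi (JJ X)) (chi (op r X))
  inv : ∀ X Y, Teq X Y → Teq (op r X) (op r Y)

end Pool.Agent.SAX
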