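import Mathlib
import Pool.Agent.SAX.Defs
import Pool.Agent.RJ.CUT
import Pool.Agent.RJ.CSK
import Pool.Agent.RJ.CAD
import Pool.Agent.RJ.CIX

/-!
Statistics of a function `g` which is computed from `u ⊕ O` for most `u` are approximated
recursively in `O`.
-/

set_option autoImplicit false

namespace Pool.Agent.SAX

open MeasureTheory Encodable Pool.Agent.H19 Pool.Agent.AEI Pool.Agent.RJ
open Nat.Partrec (Code)
open Filter Topology

/-- The string computed from the strings `σ` and `β`. -/
private def outp (m : ℕ) (lab : List Bool → Code) (σ β : List Bool) : List Bool :=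
  zf (lab (σ.take m)) (jns σ β)

private theorem comp_outp {α : Type*} [Primcodable α] {m : ℕ} {lab : List Bool → Code}
    (hlab : Computable lab) {σ β : α → List Bool} (hσ : Computable σ) (hβ : Computable β) :
    Computable fun a => outp m lab (σ a) (β a) :=
  comp_zf (hlab.comp (comp_take (Computable.const m) hσ)) (comp_jns hσ hβ)

private theorem outp_pre {m N : ℕ} (h : m ≤ N) (lab : List Bool → Code) (u O : ℕ → Bool) :
    outp m lab (pre u N) (pre O N) = zf (lab (pre u m)) (pre (jn u O) (2 * N)) := by
  rw [outp, jns_pre, pre_take u h]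

/-- The number of the strings on which the output is short. -/
private def cU (m : ℕ) (lab : List Bool → Code) (L : ℕ → ℕ) (a : ℕ) (β : List Bool) : ℕ :=
  ((strs β.length).filter fun σ => decide ((outp m lab σ β).length < L a)).length

/-- The number of the strings on which the output is long and in `D a`. -/
private def cA (m : ℕ) (lab : List Bool → Code) (D : ℕ → List Bool → Bool) (L : ℕ → ℕ) (a : ℕ)
    (β : List Bool) : ℕ :=
  ((strs β.length).filter fun σ => decide (L a ≤ (outp m lab σ β).length) &&
    D a ((outp m lab σ β).take (L a))).length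

private theorem comp_cU {α : Type*} [Primcodable α] {m : ℕ} {lab : List Bool → Code}
    (hlab : Computable lab) {L : ℕ → ℕ} (hL : Computable L) {a : α → ℕ} {β : α → List Bool}
    (ha : Computable a) (hβ : Computable β) : Computable fun x => cU m lab L (a x) (β x) := by
  refine Computable.list_length.comp (comp_list_filter
    (g := fun x (σ : List Bool) => decide ((outp m lab σ (β x)).length < L (a x)))
    (comp_strs.comp (Computable.list_length.comp hβ)) ?_)
  exact comp_decLt (Computable.list_length.comp (comp_outp hlab Computable.snd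
    (hβ.comp Computable.fst))) (hL.comp (ha.comp Computable.fst))

private theorem comp_cA {α : Type*} [Primcodable α] {m : ℕ} {lab : List Bool → Code}
    (hlab : Computable lab) {D : ℕ → List Bool → Bool} (hD : Computable₂ D) {L : ℕ → ℕ}
    (hL : Computable L) {a : α → ℕ} {β : α → List Bool}
    (ha : Computable a) (hβ : Computable β) : Computable fun x => cA m lab D L (a x) (β x) := by
  refine Computable.list_length.comp (comp_list_filter
    (g := fun x (σ : List Bool) => decide (L (a x) ≤ (outp m lab σ (β x)).length) &&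
      D (a x) ((outp m lab σ (β x)).take (L (a x))))
    (comp_strs.comp (Computable.list_length.comp hβ)) ?_)
  have h1 : Computable fun p : α × List Bool => outp m lab p.2 (β p.1) :=
    comp_outp hlab Computable.snd (hβ.comp Computable.fst)
  have h2 : Computable fun p : α × List Bool => L (a p.1) := hL.comp (ha.comp Computable.fst)
  exact comp_and (comp_decLe h2 (Computable.list_length.comp h1))
    (hD.comp (ha.comp Computable.fst) (comp_take h2 h1))

/-- The test. -/
private def tsA (m : ℕ) (lab : List Bool → Code) (L : ℕ → ℕ) (E h : ℕ) (x : ℕ)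
    (β : List Bool) : ℕ :=
  if decide (m ≤ β.length) && decide (cU m lab L x.unpair.1 β * (strs (h + x.unpair.2)).length ≤
    (E * (strs x.unpair.2).length + (strs h).length) * (strs β.length).length) then 0 else 1

private theorem comp_tsA {m : ℕ} {lab : List Bool → Code}
    (hlab : Computable lab) {L : ℕ → ℕ} (hL : Computable L) (E h : ℕ) :
    Computable₂ (tsA m lab L E h) := by
  have h1 : Computable fun p : ℕ × List Bool => p.1.unpair.1 :=
    Computable.fst.comp (Computable.unpair.comp Computable.fst)
  have h2 : Computable fun p : ℕ × List Bool => p.1.unpair.2 :=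
    Computable.snd.comp (Computable.unpair.comp Computable.fst)
  have h3 : Computable fun p : ℕ × List Bool => p.2.length :=
    Computable.list_length.comp Computable.snd
  have hs : ∀ {f : ℕ × List Bool → ℕ}, Computable f → Computable fun p => (strs (f p)).length :=
    fun hf => Computable.list_length.comp (comp_strs.comp hf)
  refine comp_ite (c := fun p : ℕ × List Bool => decide (m ≤ p.2.length) &&
    decide (cU m lab L p.1.unpair.1 p.2 * (strs (h + p.1.unpair.2)).length ≤
    (E * (strs p.1.unpair.2).length + (strs h).length) * (strs p.2.length).length)) ?_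
    (Computable.const 0) (Computable.const 1)
  refine comp_and (comp_decLe (Computable.const m) h3) (comp_decLe ?_ ?_)
  · exact comp_mul' (comp_cU hlab hL h1 Computable.snd) (hs (comp_add' (Computable.const h) h2))
  · exact comp_mul' (comp_add' (comp_mul' (Computable.const E) (hs h2)) (Computable.const _))
      (hs h3)

private theorem coin_und {m : ℕ} {lab : List Bool → Code} {L : ℕ → ℕ} {O : ℕ → Bool} (a N : ℕ) :
    coin.real {u | (outp m lab (pre u N) (pre O N)).length < L a} =
      (cU m lab L a (pre O N) : ℝ) / 2 ^ N := by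
  have h1 := CAD_real_count (fun σ => decide ((outp m lab σ (pre O N)).length < L a)) N
  simp only [decide_eq_true_eq] at h1
  rw [h1, cU, pre_length, inv_pow, div_eq_mul_inv]

private theorem coin_A {m : ℕ} {lab : List Bool → Code} {D : ℕ → List Bool → Bool} {L : ℕ → ℕ}
    {O : ℕ → Bool} (a N : ℕ) :
    coin.real {u | L a ≤ (outp m lab (pre u N) (pre O N)).length ∧
      D a ((outp m lab (pre u N) (pre O N)).take (L a)) = true} =
      (cA m lab D L a (pre O N) : ℝ) / 2 ^ N := by
  have h1 := CAD_real_count (fun σ => decide (L a ≤ (outp m lab σ (pre O N)).length) &&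
    D a ((outp m lab σ (pre O N)).take (L a))) N
  simp only [Bool.and_eq_true, decide_eq_true_eq] at h1
  rw [h1, cA, pre_length, inv_pow, div_eq_mul_inv]

private theorem exists_N {g : (ℕ → Bool) → (ℕ → Bool)} {O : ℕ → Bool} {m : ℕ}
    {lab : List Bool → Code} {ε : ℝ}
    (hε : coin.real {u | ¬ CodeComputes (lab (pre u m)) (jn u O) (g u)} ≤ ε)
    (l : ℕ) {δ : ℝ} (hδ : 0 < δ) :
    ∃ N, m ≤ N ∧ coin.real {u | (outp m lab (pre u N) (pre O N)).length < l} ≤ ε + δ := by
  set U : ℕ → Set (ℕ → Bool) := fun i =>
    {u | (outp m lab (pre u (m + i)) (pre O (m + i))).length < l} with hU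
  have hmeas : ∀ i, MeasurableSet (U i) := by
    intro i
    have h1 := measurableSet_pre (fun σ => decide ((outp m lab σ (pre O (m + i))).length < l))
      (m + i)
    simpa only [decide_eq_true_eq] using h1
  have hanti : Antitone U := by
    intro i j hij u hu
    have h1 : (outp m lab (pre u (m + i)) (pre O (m + i))).length ≤
        (outp m lab (pre u (m + j)) (pre O (m + j))).length := by
      rw [outp_pre (by omega), outp_pre (by omega)]
      exact (zf_mono _ (pre_mono _ (by omega))).length_le
    exact lt_of_le_of_lt h1 hu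
  have hsub : (⋂ i, U i) ⊆ {u | ¬ CodeComputes (lab (pre u m)) (jn u O) (g u)} := by
    intro u hu hc
    obtain ⟨s, hs⟩ := (zf_of_computes hc).2 l
    have h1 := Set.mem_iInter.1 hu s
    rw [hU] at h1
    simp only [Set.mem_ofPred_eq] at h1
    rw [outp_pre (by omega)] at h1
    have h2 : (zf (lab (pre u m)) (pre (jn u O) s)).length ≤
        (zf (lab (pre u m)) (pre (jn u O) (2 * (m + s)))).length :=
      (zf_mono _ (pre_mono _ (by omega))).length_le
    omega
  have hlim : Tendsto (fun i => coin.real (U i)) atTop (𝓝 (coin.real (⋂ i, U i))) := by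
    have h2 := tendsto_measure_iInter_atTop (μ := coin) (fun i => (hmeas i).nullMeasurableSet)
      hanti ⟨0, measure_ne_top _ _⟩
    exact (ENNReal.tendsto_toReal (measure_ne_top _ _)).comp h2
  have h3 : coin.real (⋂ i, U i) < ε + δ :=
    lt_of_le_of_lt ((measureReal_mono hsub).trans hε) (by linarith)
  obtain ⟨i, hi⟩ := (hlim.eventually_lt_const h3).exists
  exact ⟨m + i, by omega, hi.le⟩

theorem apx {g : (ℕ → Bool) → (ℕ → Bool)} (hg : Measurable g) {O : ℕ → Bool} {m : ℕ}
    {lab : List Bool → Code} (hlab : Computable lab) {E h : ℕ}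
    (hε : coin.real {u | ¬ CodeComputes (lab (pre u m)) (jn u O) (g u)} ≤ (E : ℝ) / 2 ^ h)
    {D : ℕ → List Bool → Bool} (hD : Computable₂ D) {L : ℕ → ℕ} (hL : Computable L) :
    ∃ t : ℕ → ℕ, TotRec O t ∧ ∀ a k, |(t (Nat.pair a k) : ℝ) / 2 ^ k -
      coin.real {u | D a (pre (g u) (L a)) = true}| ≤ 2 * ((E : ℝ) / 2 ^ h) + 2 / 2 ^ k := by
  -- the search
  have hts : TotRec O (fun p => (fun x N => tsA m lab L E h x (pre O N)) p.unpair.1 p.unpair.2) := by
    have h1 : Computable₂ (fun (p : ℕ) (β : List Bool) => tsA m lab L E h p.unpair.1 β) :=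
      (comp_tsA hlab hL E h).comp (Computable.fst.comp (Computable.unpair.comp Computable.fst))
        Computable.snd
    exact totRec_of_pre h1 (TotRec.of_computable (Computable.snd.comp Computable.unpair))
  have hiff : ∀ x N : ℕ, tsA m lab L E h x (pre O N) = 0 ↔ m ≤ N ∧
      coin.real {u | (outp m lab (pre u N) (pre O N)).length < L x.unpair.1} ≤
        (E : ℝ) / 2 ^ h + 1 / 2 ^ x.unpair.2 := by
    intro x N
    rw [coin_und, tsA]
    simp only [strs_length, pre_length]
    have e1 : ∀ P : Bool, (if P then (0 : ℕ) else 1) = 0 ↔ P = true := by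
      intro P; cases P <;> simp
    rw [e1, Bool.and_eq_true, decide_eq_true_eq, decide_eq_true_eq]
    refine and_congr_right fun _ => ?_
    have h2 : (0 : ℝ) < 2 ^ N := by positivity
    have h3 : (0 : ℝ) < 2 ^ (h + x.unpair.2) := by positivity
    have h4 : (E : ℝ) / 2 ^ h + 1 / 2 ^ x.unpair.2 =
        (E * 2 ^ x.unpair.2 + 2 ^ h) / 2 ^ (h + x.unpair.2) := by
      rw [pow_add]
      field_simp
    rw [h4, div_le_div_iff₀ h2 h3]
    constructor
    · intro h5
      exact_mod_cast h5
    · intro h5
      exact_mod_cast h5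
  obtain ⟨Nf, hN, hN0⟩ := exists_select hts (fun x => by
    obtain ⟨N, hmN, hN⟩ := exists_N hε (L x.unpair.1) (δ := 1 / 2 ^ x.unpair.2) (by positivity)
    exact ⟨N, (hiff x N).2 ⟨hmN, hN⟩⟩)
  have hG : Computable₂ (fun (x : ℕ) (β : List Bool) =>
      (strs x.unpair.2).length * cA m lab D L x.unpair.1 β / (strs β.length).length) := by
    refine comp_div (comp_mul' ?_ ?_) ?_
    · exact Computable.list_length.comp (comp_strs.comp
        (Computable.snd.comp (Computable.unpair.comp Computable.fst)))
    · exact comp_cA hlab hD hL (Computable.fst.comp (Computable.unpair.comp Computable.fst))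
        Computable.snd
    · exact Computable.list_length.comp (comp_strs.comp
        (Computable.list_length.comp Computable.snd))
  refine ⟨_, totRec_of_pre hG hN, fun a k => ?_⟩
  have hx := (hiff (Nat.pair a k) (Nf (Nat.pair a k))).1 (hN0 (Nat.pair a k))
  simp only [Nat.unpair_pair, strs_length, pre_length] at hx ⊢
  set N := Nf (Nat.pair a k) with hNdef
  obtain ⟨hmN, hund⟩ := hx
  -- the two sets
  set A : Set (ℕ → Bool) := {u | L a ≤ (outp m lab (pre u N) (pre O N)).length ∧
      D a ((outp m lab (pre u N) (pre O N)).take (L a)) = true} with hA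
  set B : Set (ℕ → Bool) := {u | D a (pre (g u) (L a)) = true} with hB
  set bad : Set (ℕ → Bool) := {u | ¬ CodeComputes (lab (pre u m)) (jn u O) (g u)} with hbad
  set und : Set (ℕ → Bool) := {u | (outp m lab (pre u N) (pre O N)).length < L a} with hundef
  have hcA : coin.real A = (cA m lab D L a (pre O N) : ℝ) / 2 ^ N := coin_A a N
  have hgood : ∀ u, u ∉ bad → L a ≤ (outp m lab (pre u N) (pre O N)).length →
      (outp m lab (pre u N) (pre O N)).take (L a) = pre (g u) (L a) := by
    intro u hu hl
    have hc : CodeComputes (lab (pre u m)) (jn u O) (g u) := not_not.1 hu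
    rw [outp_pre hmN] at hl ⊢
    rw [(zf_of_computes hc).1 (2 * N), pre_take (g u) hl]
  have hAB : A ⊆ B ∪ bad := by
    intro u hu
    by_cases hb : u ∈ bad
    · exact Or.inr hb
    · refine Or.inl ?_
      rw [hB, Set.mem_ofPred_eq, ← hgood u hb hu.1]
      exact hu.2
  have hBA : B ⊆ A ∪ (bad ∪ und) := by
    intro u hu
    by_cases hb : u ∈ bad
    · exact Or.inr (Or.inl hb)
    · by_cases hl : L a ≤ (outp m lab (pre u N) (pre O N)).length
      · refine Or.inl ⟨hl, ?_⟩
        rw [hgood u hb hl]
        exact hu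
      · exact Or.inr (Or.inr (not_le.1 hl))
  have h1 : coin.real A ≤ coin.real B + (E : ℝ) / 2 ^ h :=
    (measureReal_mono hAB).trans ((measureReal_union_le _ _).trans (by linarith))
  have h2 : coin.real B ≤ coin.real A + ((E : ℝ) / 2 ^ h + ((E : ℝ) / 2 ^ h + 1 / 2 ^ k)) := by
    refine (measureReal_mono hBA).trans ((measureReal_union_le _ _).trans ?_)
    have h3 : coin.real (bad ∪ und) ≤ coin.real bad + coin.real und := measureReal_union_le _ _
    linarith
  -- the rounding
  set c := cA m lab D L a (pre O N) with hc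
  have h4 : ((2 ^ k * c / 2 ^ N : ℕ) : ℝ) / 2 ^ k ≤ (c : ℝ) / 2 ^ N := by
    have h5 : ((2 ^ k * c / 2 ^ N : ℕ) : ℝ) ≤ ((2 ^ k * c : ℕ) : ℝ) / ((2 ^ N : ℕ) : ℝ) :=
      Nat.cast_div_le
    push_cast at h5
    rw [div_le_div_iff₀ (by positivity) (by positivity)]
    rw [le_div_iff₀ (by positivity)] at h5
    linarith
  have h5 : (c : ℝ) / 2 ^ N ≤ ((2 ^ k * c / 2 ^ N : ℕ) : ℝ) / 2 ^ k + 1 / 2 ^ k := by
    have h6 : 2 ^ k * c < 2 ^ N * (2 ^ k * c / 2 ^ N + 1) := Nat.lt_mul_div_succ _ (by positivity)
    have h7 : ((2 ^ k * c : ℕ) : ℝ) ≤ ((2 ^ N * (2 ^ k * c / 2 ^ N + 1) : ℕ) : ℝ) := by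
      exact_mod_cast h6.le
    push_cast at h7
    rw [← add_div, div_le_div_iff₀ (by positivity) (by positivity)]
    push_cast
    linarith
  have hE : 0 ≤ (E : ℝ) / 2 ^ h := by positivity
  have hk : 0 < (1 : ℝ) / 2 ^ k := by positivity
  have e2 : (2 : ℝ) / 2 ^ k = 1 / 2 ^ k + 1 / 2 ^ k := by ring
  rw [hcA] at h1 h2
  rw [abs_le, e2]
  constructor
  · linarith
  · linarith

end Pool.Agent.SAX
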