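import Mathlib
import Pool.Agent.SAX.Defs

/-!
Binary expansions.
-/

set_option autoImplicit false

namespace Pool.Agent.SAX

open MeasureTheory Encodable Pool.Agent.H19 Pool.Agent.AEI Pool.Agent.RJ
open Nat.Partrec (Code)
open Filter Topology

/-- The integer with the binary digits `σ`. -/
def sv (σ : List Bool) : ℕ := σ.foldl (fun a b => 2 * a + if b then 1 else 0) 0

theorem sv_append (σ : List Bool) (b : Bool) : sv (σ ++ [b]) = 2 * sv σ + if b then 1 else 0 := by
  simp [sv, List.foldl_append]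

theorem sv_inj : ∀ σ τ : List Bool, σ.length = τ.length → sv σ = sv τ → σ = τ := by
  intro σ
  induction σ using List.reverseRecOn with
  | nil =>
    intro τ h _
    exact (List.eq_nil_of_length_eq_zero (by simpa using h.symm)).symm
  | append_singleton σ b ih =>
    intro τ h h2
    rcases List.eq_nil_or_concat τ with rfl | ⟨τ', c, rfl⟩
    · simp at h
    · rw [List.concat_eq_append] at h h2 ⊢
      rw [sv_append, sv_append] at h2
      have h3 : σ.length = τ'.length := by simpa using h
      have h4 : sv σ = sv τ' ∧ b = c := by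
        cases b <;> cases c <;> simp at h2 ⊢ <;> omega
      rw [ih τ' h3 h4.1, h4.2]

theorem rl_summable (u : ℕ → Bool) :
    Summable fun m => (if u m then (1 : ℝ) else 0) / 2 ^ (m + 1) := by
  refine Summable.of_nonneg_of_le (fun m => by positivity) (fun m => ?_)
    (summable_geometric_two' 1)
  rw [pow_succ', ← div_div]
  gcongr
  split_ifs <;> norm_num

theorem rl_nonneg (u : ℕ → Bool) : 0 ≤ rl u := tsum_nonneg fun m => by positivity

theorem rl_le_one (u : ℕ → Bool) : rl u ≤ 1 := by
  rw [← tsum_geometric_two' 1]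
  refine Summable.tsum_le_tsum (fun m => ?_) (rl_summable u) (summable_geometric_two' 1)
  rw [pow_succ', ← div_div]
  gcongr
  split_ifs <;> norm_num

theorem rl_step (u : ℕ → Bool) :
    2 * rl u = (if u 0 then (1 : ℝ) else 0) + rl fun m => u (m + 1) := by
  unfold rl
  rw [(rl_summable u).tsum_eq_zero_add, mul_add, ← tsum_mul_left]
  congr 1
  · rw [zero_add, pow_one]; ring
  · refine tsum_congr fun m => ?_
    rw [pow_succ' 2 (m + 1)]
    field_simp

theorem pre_succ' (u : ℕ → Bool) (s : ℕ) : pre u (s + 1) = pre u s ++ [u s] := by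
  simp [pre, List.range_succ]

theorem rl_split (u : ℕ → Bool) (s : ℕ) :
    2 ^ s * rl u = (sv (pre u s) : ℝ) + rl fun m => u (m + s) := by
  induction s with
  | zero => simp [pre, sv]
  | succ s ih =>
    rw [pow_succ', mul_assoc, ih, pre_succ', sv_append, mul_add, rl_step fun m => u (m + s)]
    have h : (fun m => u (m + 1 + s)) = fun m => u (m + (s + 1)) := by
      funext m; rw [add_assoc, add_comm 1 s]
    rw [h]
    push_cast
    rw [zero_add]
    ring

theorem sv_le (u : ℕ → Bool) (s : ℕ) : (sv (pre u s) : ℝ) ≤ 2 ^ s * rl u := by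
  rw [rl_split]
  linarith [rl_nonneg fun m => u (m + s)]

theorem le_sv (u : ℕ → Bool) (s : ℕ) : 2 ^ s * rl u ≤ sv (pre u s) + 1 := by
  rw [rl_split]
  linarith [rl_le_one fun m => u (m + s)]

theorem measurable_rl : Measurable rl := by
  refine measurable_of_tendsto_metrizable (f := fun n u => ∑ m ∈ Finset.range n,
    (if u m then (1 : ℝ) else 0) / 2 ^ (m + 1)) (fun n => ?_) ?_
  · refine Finset.measurable_fun_sum _ fun m _ => ?_
    refine Measurable.div_const ?_ _
    exact (measurable_of_finite fun b : Bool => if b then (1 : ℝ) else 0).comp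
      (measurable_pi_apply m)
  · rw [tendsto_pi_nhds]
    exact fun u => (rl_summable u).hasSum.tendsto_sum_nat

theorem coin_sv_le (s a : ℕ) : coin {u | sv (pre u s) = a} ≤ 2⁻¹ ^ s := by
  by_cases h : ∃ σ : List Bool, σ.length = s ∧ sv σ = a
  · obtain ⟨σ, h1, h2⟩ := h
    rw [← coin_cyl s σ h1]
    refine measure_mono fun u hu => ?_
    exact sv_inj _ _ ((pre_length u s).trans h1.symm) (Eq.trans hu h2.symm)
  · have h1 : {u : ℕ → Bool | sv (pre u s) = a} = ∅ := by
      ext u
      simp only [Set.mem_ofPred_eq, Set.mem_empty_iff_false, iff_false]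
      exact fun hu => h ⟨_, pre_length u s, hu⟩
    rw [h1, measure_empty]
    exact bot_le

theorem coin_rl (c : ℝ) : coin {u | rl u = c} = 0 := by
  have hb : ∀ s : ℕ, coin {u | rl u = c} ≤ 2⁻¹ ^ s + 2⁻¹ ^ s := by
    intro s
    have hsub : {u : ℕ → Bool | rl u = c} ⊆
        {u | sv (pre u s) = ⌊2 ^ s * c⌋₊} ∪ {u | sv (pre u s) = ⌊2 ^ s * c⌋₊ - 1} := by
      rintro u rfl
      have h1 : sv (pre u s) ≤ ⌊2 ^ s * rl u⌋₊ := Nat.le_floor (sv_le u s)
      have h2 : ⌊2 ^ s * rl u⌋₊ ≤ sv (pre u s) + 1 :=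
        Nat.floor_le_of_le (by push_cast; exact le_sv u s)
      simp only [Set.mem_union, Set.mem_ofPred_eq]
      omega
    exact (measure_mono hsub).trans
      ((measure_union_le _ _).trans (add_le_add (coin_sv_le s _) (coin_sv_le s _)))
  have h2 : Tendsto (fun s : ℕ => (2⁻¹ : ENNReal) ^ s + 2⁻¹ ^ s) atTop (𝓝 (0 + 0)) := by
    have h3 : Tendsto (fun s : ℕ => (2⁻¹ : ENNReal) ^ s) atTop (𝓝 0) :=
      ENNReal.tendsto_pow_atTop_nhds_zero_of_lt_one (by simp)
    exact h3.add h3
  rw [add_zero] at h2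
  exact le_antisymm (ge_of_tendsto' h2 hb) bot_le

theorem ae_Zb (ν : ℕ → ℝ) : ∀ᵐ u ∂coin, u ∉ Zb ν := by
  have h : ∀ᵐ u ∂coin, ∀ j N p : ℕ, ¬ (p : ℝ) + rl u = N * ν j := by
    refine ae_all_iff.2 fun j => ae_all_iff.2 fun N => ae_all_iff.2 fun p => ?_
    have h1 : coin {u | rl u = N * ν j - p} = 0 := coin_rl _
    rw [ae_iff]
    simp only [not_not]
    convert h1 using 2
    ext u
    simp only [Set.mem_ofPred_eq]
    constructor <;> intro h <;> linarith
  filter_upwards [h] with u hu
  rintro ⟨j, N, p, h⟩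
  exact hu j N p h

end Pool.Agent.SAX
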