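import Mathlib
import Pool.Agent.SAX.RLB

/-!
Names: `nm ν u` is a name of `ν` for every `u`; measurability.
-/

set_option autoImplicit false

namespace Pool.Agent.SAX

open MeasureTheory Encodable Pool.Agent.H19 Pool.Agent.AEI Pool.Agent.RJ
open Nat.Partrec (Code)
open Filter Topology

theorem nm_tr (ν : ℕ → ℝ) (u : ℕ → Bool) (j N p : ℕ) :
    nm ν u (tr j N p) = decide ((p : ℝ) + rl u < N * ν j) := by
  simp only [nm, tr, Nat.unpair_pair]

theorem isName_nm (ν : ℕ → ℝ) (u : ℕ → Bool) : IsName ν (nm ν u) := by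
  intro j N p
  rw [nm_tr]
  refine ⟨fun h => ?_, fun h => ?_⟩
  · have h1 := of_decide_eq_true h
    linarith [rl_nonneg u]
  · have h1 := of_decide_eq_false h
    linarith [rl_le_one u]

theorem measurable_nm (ν : ℕ → ℝ) : Measurable (nm ν) := by
  refine measurable_pi_lambda _ fun i => measurable_to_bool ?_
  have h1 : (fun u : ℕ → Bool => nm ν u i) ⁻¹' {true} =
      {u | (i.unpair.2.unpair.2 : ℝ) + rl u < (i.unpair.2.unpair.1 : ℝ) * ν i.unpair.1} := by
    ext u
    simp only [Set.mem_preimage, Set.mem_singleton_iff, Set.mem_ofPred_eq, nm, decide_eq_true_eq]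
  rw [h1]
  exact measurableSet_lt (measurable_const.add measurable_rl) measurable_const

theorem measurable_XX (ν : ℕ → ℝ) : Measurable (XX ν) :=
  measurable_jn.comp (measurable_id.prodMk (measurable_nm ν))

theorem measurable_ff (r : Code) (ν : ℕ → ℝ) : Measurable (ff r ν) := by
  refine measurable_pi_lambda _ fun n => measurable_to_bool ?_
  have h1 : (fun u : ℕ → Bool => ff r ν u n) ⁻¹' {true} =
      ⋃ s : ℕ, {u | (r.eval (encode (n, pre (XX ν u) s))).Dom} := by
    ext u
    simp only [Set.mem_preimage, Set.mem_singleton_iff, Set.mem_iUnion, Set.mem_ofPred_eq]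
    exact op_iff
  rw [h1]
  refine MeasurableSet.iUnion fun s => ?_
  have h2 : Measurable fun u : ℕ → Bool => (r.eval (encode (n, pre (XX ν u) s))).Dom :=
    (measurable_pre s fun σ => (r.eval (encode (n, σ))).Dom).comp (measurable_XX ν)
  exact h2 (MeasurableSet.of_discrete (s := {p : Prop | p}))

end Pool.Agent.SAX
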