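import Mathlib
import Pool.Agent.SAX.NMB
import Pool.Agent.SAX.RLB

/-!
NCD (180 lines). One code computes XX ν u = u ⊕ nm ν u from u ⊕ Y, for every name Y of ν and every u outside Zb ν.
PROOF. exists_code_option: this is the proof of AEI.red_of_option (Pool/Agent/AEI/GLU.lean), which only constructs the code from F.
name_code: F n ζ (ζ = initial segment of jn u Y, evs ζ / ods ζ the initial segments of u / Y, see Pool/Agent/AEI/FIN.lean): for even n the bit
ζ[n] if n < length. For odd n, n / 2 = i, (j,N,p) = (i.unpair.1, i.unpair.2.unpair.1, i.unpair.2.unpair.2): answer true if for some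
t <= length of evs ζ, with U = sv (evs ζ take t): the bit tr j (N * 2^t) (2^t * p + U + 1) of ods ζ exists and is 1 (List.getElem? = some true);
answer false if for some t, U + 2^t p >= 1 and the bit tr j (N * 2^t) (2^t * p + U - 1) of ods ζ exists and is 0.
Sound: bit 1: 2^t (p + rl u) <= 2^t p + U + 1 <= N 2^t ν j (le_sv), so p + rl u <= N ν j, and ≠ as u is not in Zb. bit 0:
N 2^t ν j <= 2^t p + U <= 2^t (p + rl u) (sv_le). Complete: if p + rl u < N ν j take t with 2^t (N ν j - p - rl u) > 4: the bit
cannot be 0, since then N 2^t ν j <= 2^t p + U + 2 <= 2^t (p + rl u) + 2. If N ν j < p + rl u take t with 2^t (p + rl u - N ν j) > 4: if N ν j could be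
negative then 2^t (p + rl u) > 4 may fail: in this case take t with also ... (ν j arbitrary real: if p + rl u > 0 take t with 2^t (p + rl u) > 4 also;
if p + rl u = 0 then N ν j < 0: handle by the assumption 0 <= ν j of the statement). Computability: comp_list_any, comp_range, comp_take, comp_evs, comp_ods,
Primrec for pow, etc. (Pool/Agent/H19/CompList.lean).
-/

set_option autoImplicit false

namespace Pool.Agent.SAX

open MeasureTheory Encodable Pool.Agent.H19 Pool.Agent.AEI Pool.Agent.RJ
open Nat.Partrec (Code)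
open Filter Topology

theorem exists_code_option {F : ℕ → List Bool → Option Bool} (hF : Computable₂ F) :
    ∃ e : Code, ∀ Z B : ℕ → Bool, (∀ n s b, F n (pre Z s) = some b → b = B n) →
      (∀ n, ∃ s, (F n (pre Z s)).isSome) → CodeComputes e Z B := by
  have hp : Partrec₂ (fun (n : ℕ) (σ : List Bool) =>
      ((F n σ).map (fun b : Bool => if b then 1 else 0) : Option ℕ) : ℕ → List Bool → Part ℕ) := by
    have h1 : Computable₂ (fun (n : ℕ) (σ : List Bool) =>
        (F n σ).map (fun b : Bool => if b then 1 else 0)) := by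
      refine Computable.option_map hF ?_
      exact comp_ite (c := fun p : (ℕ × List Bool) × Bool => p.2) Computable.snd
        (Computable.const 1) (Computable.const 0)
    exact Computable.ofOption h1
  obtain ⟨d, hd⟩ := exists_code_of_partrec₂ hp
  refine ⟨d, fun Z B h1 h2 => ⟨fun n s w hw => ?_, fun n => ?_⟩⟩
  · rw [hd] at hw
    simp only [Part.mem_coe, Option.mem_def, Option.map_eq_some_iff] at hw
    obtain ⟨b, hb, rfl⟩ := hw
    rw [h1 n s b hb]
  · obtain ⟨s, hs⟩ := h2 n
    obtain ⟨b, hb⟩ := Option.isSome_iff_exists.1 hs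
    refine ⟨s, ?_⟩
    rw [hd, hb, ← h1 n s b hb]
    simp

/-- The position of the bit in question. -/
def qj (n : ℕ) : ℕ := (n / 2).unpair.1
def qN (n : ℕ) : ℕ := (n / 2).unpair.2.unpair.1
def qp (n : ℕ) : ℕ := (n / 2).unpair.2.unpair.2

/-- The first number. -/
def qU (n : ℕ) (ζ : List Bool) (t : ℕ) : ℕ := 2 ^ t * qp n + sv ((evs ζ).take t)

/-- The question says yes. -/
def qA (n : ℕ) (ζ : List Bool) (t : ℕ) : Bool :=
  decide ((ods ζ)[tr (qj n) (qN n * 2 ^ t) (qU n ζ t + 1)]? = some true)

/-- The question says no. -/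
def qB (n : ℕ) (ζ : List Bool) (t : ℕ) : Bool :=
  decide (1 ≤ qU n ζ t) &&
    decide ((ods ζ)[tr (qj n) (qN n * 2 ^ t) (qU n ζ t - 1)]? = some false)

/-- The test. -/
def qF (n : ℕ) (ζ : List Bool) : Option Bool :=
  if decide (n % 2 = 0) then ζ[n]? else
    if (List.range ((evs ζ).length + 1)).any (qA n ζ) then some true else
      if (List.range ((evs ζ).length + 1)).any (qB n ζ) then some false else none

theorem comp_sv {α : Type*} [Primcodable α] {σ : α → List Bool} (h : Computable σ) :
    Computable fun a => sv (σ a) := by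
  refine comp_list_foldl (h := fun _ p => 2 * p.1 + if p.2 then 1 else 0) h (Computable.const 0) ?_
  refine comp_add' (comp_mul' (Computable.const 2) (Computable.fst.comp Computable.snd)) ?_
  exact comp_ite (c := fun p : α × (ℕ × Bool) => p.2.2) (Computable.snd.comp Computable.snd)
    (Computable.const 1) (Computable.const 0)

theorem comp_pow2 {α : Type*} [Primcodable α] {t : α → ℕ} (h : Computable t) :
    Computable fun a => 2 ^ t a := by
  have h1 : Computable fun a => (List.range (t a)).foldl (fun s _ => 2 * s) 1 :=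
    comp_list_foldl (h := fun _ (p : ℕ × ℕ) => 2 * p.1) (comp_range h) (Computable.const 1)
      (comp_mul' (Computable.const 2) (Computable.fst.comp Computable.snd))
  refine h1.of_eq fun a => ?_
  induction t a with
  | zero => rfl
  | succ n ih => rw [List.range_succ, List.foldl_append, ih, pow_succ]; simp [mul_comm]

theorem comp_qF : Computable₂ qF := by
  have hn : Computable fun x : (ℕ × List Bool) × ℕ => x.1.1 / 2 :=
    comp_div (Computable.fst.comp Computable.fst) (Computable.const 2)
  have hj : Computable fun x : (ℕ × List Bool) × ℕ => qj x.1.1 :=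
    Computable.fst.comp (Computable.unpair.comp hn)
  have hN : Computable fun x : (ℕ × List Bool) × ℕ => qN x.1.1 :=
    Computable.fst.comp (Computable.unpair.comp (Computable.snd.comp (Computable.unpair.comp hn)))
  have hp : Computable fun x : (ℕ × List Bool) × ℕ => qp x.1.1 :=
    Computable.snd.comp (Computable.unpair.comp (Computable.snd.comp (Computable.unpair.comp hn)))
  have ht : Computable fun x : (ℕ × List Bool) × ℕ => 2 ^ x.2 := comp_pow2 Computable.snd
  have hev : Computable fun x : (ℕ × List Bool) × ℕ => evs x.1.2 :=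
    comp_evs (Computable.snd.comp Computable.fst)
  have hod : Computable fun x : (ℕ × List Bool) × ℕ => ods x.1.2 :=
    comp_ods (Computable.snd.comp Computable.fst)
  have hU : Computable fun x : (ℕ × List Bool) × ℕ => qU x.1.1 x.1.2 x.2 :=
    comp_add' (comp_mul' ht hp) (comp_sv (comp_take Computable.snd hev))
  have htr : ∀ {g : (ℕ × List Bool) × ℕ → ℕ}, Computable g →
      Computable fun x : (ℕ × List Bool) × ℕ => tr (qj x.1.1) (qN x.1.1 * 2 ^ x.2) (g x) :=
    fun hg => comp_natpair hj (comp_natpair (comp_mul' hN ht) hg)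
  have hA : Computable fun x : (ℕ × List Bool) × ℕ => qA x.1.1 x.1.2 x.2 :=
    comp_decEq (Computable.list_getElem?.comp hod (htr (Computable.succ.comp hU)))
      (Computable.const _)
  have hB : Computable fun x : (ℕ × List Bool) × ℕ => qB x.1.1 x.1.2 x.2 :=
    comp_and (comp_decLe (Computable.const 1) hU)
      (comp_decEq (Computable.list_getElem?.comp hod
        (htr (Primrec.nat_sub.to_comp.comp hU (Computable.const 1)))) (Computable.const _))
  have hr : Computable fun x : ℕ × List Bool => List.range ((evs x.2).length + 1) :=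
    comp_range (Computable.succ.comp (Computable.list_length.comp (comp_evs Computable.snd)))
  show Computable fun x : ℕ × List Bool => qF x.1 x.2
  refine comp_ite (c := fun x : ℕ × List Bool => decide (x.1 % 2 = 0)) ?_ ?_ ?_
  · exact comp_decEq (comp_mod Computable.fst (Computable.const 2)) (Computable.const 0)
  · exact Computable.list_getElem?.comp Computable.snd Computable.fst
  · refine comp_ite (c := fun x : ℕ × List Bool =>
      (List.range ((evs x.2).length + 1)).any (qA x.1 x.2)) (comp_list_any hr hA)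
      (Computable.const _) ?_
    exact comp_ite (c := fun x : ℕ × List Bool =>
      (List.range ((evs x.2).length + 1)).any (qB x.1 x.2)) (comp_list_any hr hB)
      (Computable.const _) (Computable.const _)

theorem evs_jn (u Y : ℕ → Bool) (s : ℕ) : evs (pre (jn u Y) s) = pre u (s / 2) := by
  rw [evs_pre]
  congr 1
  funext x
  exact jn_even u Y x

theorem ods_jn (u Y : ℕ → Bool) (s : ℕ) : ods (pre (jn u Y) s) = pre Y (s / 2) := by
  rw [ods_pre]
  congr 1
  funext x
  exact jn_odd u Y x

theorem pre_get? (X : ℕ → Bool) (s i : ℕ) (b : Bool) :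
    (pre X s)[i]? = some b ↔ i < s ∧ X i = b := by
  rw [pre, List.getElem?_map]
  by_cases h : i < s
  · rw [List.getElem?_range h]
    simp [h]
  · rw [List.getElem?_eq_none (by simpa using h)]
    simp [h]

section
variable {ν : ℕ → ℝ} {u Y : ℕ → Bool}

theorem take_evs {s t : ℕ} (ht : t ≤ s / 2) : (evs (pre (jn u Y) s)).take t = pre u t := by
  rw [evs_jn, pre_take _ ht]

theorem qA_sound (hY : IsName ν Y) (hu : u ∉ Zb ν) {n s t : ℕ} (ht : t ≤ s / 2)
    (h : qA n (pre (jn u Y) s) t = true) : (qp n : ℝ) + rl u < qN n * ν (qj n) := by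
  rw [qA, decide_eq_true_eq, ods_jn, pre_get?] at h
  have h1 := (hY _ _ _).1 h.2
  rw [qU, take_evs ht] at h1
  push_cast at h1
  have h2 := le_sv u t
  have h3 : (0 : ℝ) < 2 ^ t := by positivity
  refine lt_of_le_of_ne ?_ fun h4 => hu ⟨_, _, _, h4⟩
  refine le_of_mul_le_mul_left ?_ h3
  nlinarith

theorem qB_sound (hY : IsName ν Y) {n s t : ℕ} (ht : t ≤ s / 2)
    (h : qB n (pre (jn u Y) s) t = true) : (qN n : ℝ) * ν (qj n) ≤ qp n + rl u := by
  rw [qB, Bool.and_eq_true, decide_eq_true_eq, decide_eq_true_eq, ods_jn, pre_get?] at h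
  have h1 := (hY _ _ _).2 h.2.2
  rw [Nat.cast_sub h.1, qU, take_evs ht] at h1
  push_cast at h1
  have h2 := sv_le u t
  have h3 : (0 : ℝ) < 2 ^ t := by positivity
  refine le_of_mul_le_mul_left ?_ h3
  nlinarith

theorem qA_complete (hY : IsName ν Y) {n : ℕ} (h : (qp n : ℝ) + rl u < qN n * ν (qj n)) :
    ∃ s t : ℕ, t ≤ s / 2 ∧ qA n (pre (jn u Y) s) t = true := by
  obtain ⟨t, ht⟩ := exists_nat_gt (4 / (qN n * ν (qj n) - (qp n + rl u)))
  have h0 : 0 < qN n * ν (qj n) - (qp n + rl u) := by linarith
  have h3 : (t : ℝ) ≤ 2 ^ t := by exact_mod_cast Nat.lt_two_pow_self.le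
  have h4 : 4 < 2 ^ t * (qN n * ν (qj n) - (qp n + rl u)) := by
    rw [div_lt_iff₀ h0] at ht
    nlinarith
  set i := tr (qj n) (qN n * 2 ^ t) (2 ^ t * qp n + sv (pre u t) + 1) with hi
  refine ⟨2 * (i + 1 + t), t, by omega, ?_⟩
  rw [qA, decide_eq_true_eq, ods_jn, pre_get?, qU, take_evs (by omega), ← hi]
  refine ⟨by omega, ?_⟩
  by_contra hne
  have h5 := (hY _ _ _).2 ((Bool.not_eq_true _).mp hne)
  push_cast at h5
  have h6 := sv_le u t
  nlinarith

theorem qB_complete (h0 : ∀ j, 0 ≤ ν j) (hY : IsName ν Y) {n : ℕ}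
    (h : (qN n : ℝ) * ν (qj n) < qp n + rl u) :
    ∃ s t : ℕ, t ≤ s / 2 ∧ qB n (pre (jn u Y) s) t = true := by
  obtain ⟨t, ht⟩ := exists_nat_gt (4 / ((qp n + rl u) - qN n * ν (qj n)))
  have h1 : 0 < (qp n + rl u) - qN n * ν (qj n) := by linarith
  have h3 : (t : ℝ) ≤ 2 ^ t := by exact_mod_cast Nat.lt_two_pow_self.le
  have h4 : 4 < 2 ^ t * ((qp n + rl u) - qN n * ν (qj n)) := by
    rw [div_lt_iff₀ h1] at ht
    nlinarith
  have h7 : 0 ≤ (qN n : ℝ) * ν (qj n) := mul_nonneg (Nat.cast_nonneg _) (h0 _)
  have h8 := le_sv u t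
  have h9 : (0 : ℝ) < 2 ^ t := by positivity
  have h10 : 1 ≤ 2 ^ t * qp n + sv (pre u t) := by
    by_contra hlt
    have h11 : 2 ^ t * qp n + sv (pre u t) = 0 := by omega
    have h12 : (2 : ℝ) ^ t * qp n + sv (pre u t) = 0 := by exact_mod_cast h11
    nlinarith [mul_nonneg h9.le h7]
  set i := tr (qj n) (qN n * 2 ^ t) (2 ^ t * qp n + sv (pre u t) - 1) with hi
  refine ⟨2 * (i + 1 + t), t, by omega, ?_⟩
  rw [qB, Bool.and_eq_true, decide_eq_true_eq, decide_eq_true_eq, ods_jn, pre_get?, qU,
    take_evs (by omega), ← hi]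
  refine ⟨h10, by omega, ?_⟩
  by_contra hne
  have h5 := (hY _ _ _).1 ((Bool.not_eq_false _).mp hne)
  rw [Nat.cast_sub h10] at h5
  push_cast at h5
  nlinarith

theorem name_code : ∃ e : Code, ∀ (ν : ℕ → ℝ) (u Y : ℕ → Bool), (∀ j, 0 ≤ ν j) → u ∉ Zb ν →
    IsName ν Y → CodeComputes e (jn u Y) (XX ν u) := by
  obtain ⟨e, he⟩ := exists_code_option comp_qF
  refine ⟨e, fun ν u Y h0 hu hY => he _ _ (fun n s b hb => ?_) fun n => ?_⟩
  · rw [qF] at hb
    by_cases hn : n % 2 = 0
    · rw [if_pos (by simpa using hn), pre_get?] at hb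
      rw [← hb.2, XX, jn, jn, if_pos hn, if_pos hn]
    · have hX : XX ν u n = decide ((qp n : ℝ) + rl u < qN n * ν (qj n)) := by
        rw [XX, jn, if_neg hn]; rfl
      rw [if_neg (by simpa using hn)] at hb
      rw [hX]
      split_ifs at hb with hA hB
      · rw [List.any_eq_true] at hA
        obtain ⟨t, ht1, ht2⟩ := hA
        rw [List.mem_range, evs_jn, pre_length] at ht1
        have := qA_sound hY hu (by omega) ht2
        simp only [Option.some.injEq] at hb
        rw [← hb, eq_comm, decide_eq_true_eq]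
        exact this
      · rw [List.any_eq_true] at hB
        obtain ⟨t, ht1, ht2⟩ := hB
        rw [List.mem_range, evs_jn, pre_length] at ht1
        have := qB_sound hY (by omega) ht2
        simp only [Option.some.injEq] at hb
        rw [← hb, eq_comm, decide_eq_false_iff_not, not_lt]
        exact this
  · by_cases hn : n % 2 = 0
    · refine ⟨n + 1, ?_⟩
      rw [qF, if_pos (by simpa using hn)]
      simp [pre]
    · have key : ∀ s, (∃ t, t ≤ s / 2 ∧ (qA n (pre (jn u Y) s) t = true ∨
          qB n (pre (jn u Y) s) t = true)) → (qF n (pre (jn u Y) s)).isSome := by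
        rintro s ⟨t, ht, h⟩
        rw [qF, if_neg (by simpa using hn)]
        have hmem : t ∈ List.range ((evs (pre (jn u Y) s)).length + 1) := by
          rw [List.mem_range, evs_jn, pre_length]; omega
        split_ifs with hA hB
        · rfl
        · rfl
        · exfalso
          rcases h with h | h
          · exact hA (List.any_eq_true.2 ⟨t, hmem, h⟩)
          · exact hB (List.any_eq_true.2 ⟨t, hmem, h⟩)
      rcases lt_trichotomy ((qp n : ℝ) + rl u) (qN n * ν (qj n)) with h | h | h
      · obtain ⟨s, t, ht, h⟩ := qA_complete hY h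
        exact ⟨s, key s ⟨t, ht, Or.inl h⟩⟩
      · exact absurd ⟨_, _, _, h⟩ hu
      · obtain ⟨s, t, ht, h⟩ := qB_complete h0 hY h
        exact ⟨s, key s ⟨t, ht, Or.inr h⟩⟩

end

theorem XX_le {ν : ℕ → ℝ} {u Y : ℕ → Bool} (h0 : ∀ j, 0 ≤ ν j) (hu : u ∉ Zb ν) (hY : IsName ν Y) :
    TuringReducible (chi (XX ν u)) (chi (jn u Y)) := by
  obtain ⟨e, he⟩ := name_code
  exact turingReducible_of_codeComputes (he ν u Y h0 hu hY)

end Pool.Agent.SAX
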