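import Mathlib
import Pool.Agent.SAX.APX
import Pool.Agent.SAX.NCD

/-!
APN. The case of names.
-/

set_option autoImplicit false

namespace Pool.Agent.SAX

open MeasureTheory Encodable Pool.Agent.H19 Pool.Agent.AEI Pool.Agent.RJ
open Nat.Partrec (Code)
open Filter Topology

theorem apn {ν : ℕ → ℝ} (h0 : ∀ j, 0 ≤ ν j) {Y : ℕ → Bool} (hY : IsName ν Y)
    {D : ℕ → List Bool → Bool} (hD : Computable₂ D) {L : ℕ → ℕ} (hL : Computable L) :
    ∃ t : ℕ → ℕ, TotRec Y t ∧ ∀ a k, |(t (Nat.pair a k) : ℝ) / 2 ^ k -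
      coin.real {u | D a (pre (XX ν u) (L a)) = true}| ≤ 2 / 2 ^ k := by
  obtain ⟨e, he⟩ := name_code
  have hz : coin.real {u | ¬ CodeComputes ((fun _ : List Bool => e) (pre u 0)) (jn u Y)
      (XX ν u)} ≤ ((0 : ℕ) : ℝ) / 2 ^ 0 := by
    have h1 : coin {u | ¬ CodeComputes e (jn u Y) (XX ν u)} = 0 := by
      have h2 : ∀ᵐ u ∂coin, CodeComputes e (jn u Y) (XX ν u) := by
        filter_upwards [ae_Zb ν] with u hu
        exact he ν u Y h0 hu hY
      exact ae_iff.1 h2
    have h3 : coin.real {u | ¬ CodeComputes e (jn u Y) (XX ν u)} = 0 := by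
      rw [measureReal_def, h1]
      rfl
    simpa using h3.le
  obtain ⟨t, ht, h⟩ := apx (measurable_XX ν) (O := Y) (m := 0) (lab := fun _ => e)
    (Computable.const e) (E := 0) (h := 0) hz hD hL
  refine ⟨t, ht, fun a k => ?_⟩
  have h1 := h a k
  simpa using h1

end Pool.Agent.SAX
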