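import Mathlib
import Pool.Agent.RJ.CUT
import Pool.Agent.RJ.CIX

/-!
The decoding (section 4): the search.  The oracle `V` computes approximations `t n` of
`1024 * Sinf n` (error 4), names of `nu` and approximations of the `S n s ≤ Sinf n` and of the
`a k s`.  If the column `k` of `nu` is between `S n s` and `Sinf n` whenever `0 < d k` and
`s * d k ≤ 1`, but no column is close to `Sinf`, then the set of the `k` with `0 < d k` is
recursive in `V`.
-/

set_option autoImplicit false

namespace Pool.Agent.SAX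

open Encodable Pool.Agent.H19 Pool.Agent.AEI Pool.Agent.RJ

private theorem decg_pow {α : Type*} [Primcodable α] {f : α → ℕ} (hf : Computable f) :
    Computable fun a => 2 ^ f a :=
  (Primrec₂.unpaired'.1 Nat.Primrec.pow).to_comp.comp (Computable.const 2) hf

/-- The test of the search. -/
private def decgF (x y : ℕ) : ℕ :=
  if (decide (1 ≤ y.unpair.2) && (decide (x.unpair.1 + 9 ≤ x.unpair.2) ||
    decide (x.unpair.2 + 9 ≤ x.unpair.1))) && decide (x.unpair.1 ≤ y.unpair.1 + 6) then 0 else 1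

private theorem decgF_comp : Computable₂ decgF := by
  have hx1 : Computable fun p : ℕ × ℕ => p.1.unpair.1 :=
    Computable.fst.comp (Computable.unpair.comp Computable.fst)
  have hx2 : Computable fun p : ℕ × ℕ => p.1.unpair.2 :=
    Computable.snd.comp (Computable.unpair.comp Computable.fst)
  have hy1 : Computable fun p : ℕ × ℕ => p.2.unpair.1 :=
    Computable.fst.comp (Computable.unpair.comp Computable.snd)
  have hy2 : Computable fun p : ℕ × ℕ => p.2.unpair.2 :=
    Computable.snd.comp (Computable.unpair.comp Computable.snd)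
  refine comp_ite (c := fun p : ℕ × ℕ => (decide (1 ≤ p.2.unpair.2) &&
    (decide (p.1.unpair.1 + 9 ≤ p.1.unpair.2) || decide (p.1.unpair.2 + 9 ≤ p.1.unpair.1))) &&
      decide (p.1.unpair.1 ≤ p.2.unpair.1 + 6)) ?_ (Computable.const 0) (Computable.const 1)
  refine comp_and (comp_and (comp_decLe (Computable.const 1) hy2) (comp_or ?_ ?_)) ?_
  · exact comp_decLe (comp_add' hx1 (Computable.const 9)) hx2
  · exact comp_decLe (comp_add' hx2 (Computable.const 9)) hx1
  · exact comp_decLe hx1 (comp_add' hy1 (Computable.const 6))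

private theorem decgF_iff {x y : ℕ} : decgF x y = 0 ↔ 1 ≤ y.unpair.2 ∧
    (x.unpair.1 + 9 ≤ x.unpair.2 ∨ x.unpair.2 + 9 ≤ x.unpair.1) ∧
      x.unpair.1 ≤ y.unpair.1 + 6 := by
  rw [decgF]
  split_ifs with h
  · simp only [Bool.and_eq_true, Bool.or_eq_true, decide_eq_true_eq] at h
    exact ⟨fun _ => ⟨h.1.1, h.1.2, h.2⟩, fun _ => rfl⟩
  · simp only [Bool.and_eq_true, Bool.or_eq_true, decide_eq_true_eq] at h
    refine ⟨fun h1 => ?_, fun h1 => absurd ⟨⟨h1.1, h1.2.1⟩, h1.2.2⟩ h⟩
    simp at h1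

/-- The output of the search. -/
private def decgG (s y : ℕ) : ℕ := if decide (2 ^ (s + 4) + 1 < y) then 1 else 0

private theorem decgG_comp : Computable₂ decgG := by
  refine comp_ite (c := fun p : ℕ × ℕ => decide (2 ^ (p.1 + 4) + 1 < p.2)) ?_
    (Computable.const 1) (Computable.const 0)
  exact comp_decLt (comp_add' (decg_pow (comp_add' Computable.fst (Computable.const 4)))
    (Computable.const 1)) Computable.snd

/-- The decoding. -/
theorem decode_stat {V K : ℕ → Bool} {Sinf nu d : ℕ → ℝ} {S a : ℕ → ℕ → ℝ}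
    {t q r b : ℕ → ℕ}
    (ht : TotRec V t) (ht' : ∀ n, |Sinf n - t n / 1024| ≤ 4 / 1024)
    (hq : TotRec V q) (hq' : ∀ j, |1024 * nu j - q j| ≤ 1)
    (hr : TotRec V r) (hr' : ∀ n s, |1024 * S n s - r (Nat.pair n s)| ≤ 1)
    (hb : TotRec V b)
    (hb' : ∀ k s p, |a k s - b (Nat.pair k (Nat.pair s p)) / 2 ^ p| ≤ 1 / 2 ^ p)
    (hSlim : ∀ n, ∀ ε > 0, ∃ s, 1 ≤ s ∧ Sinf n - ε < S n s)
    (hR3 : ∀ k, ∃ n, 16 / 1024 < |Sinf n - nu (Nat.pair k n)|)
    (hfix : ∀ k, 0 < d k → ∀ n s : ℕ, (s : ℝ) * d k ≤ 1 →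
      S n s ≤ nu (Nat.pair k n) ∧ nu (Nat.pair k n) ≤ Sinf n)
    (hK : ∀ k, K k = true ↔ 0 < d k)
    (ha1 : ∀ k (s : ℕ), 1 ≤ s → 1 < (s : ℝ) * d k →
      (1 / 2 : ℝ) ^ k.unpair.1 + 1 / (2 * s) ≤ a k s)
    (ha2 : ∀ k s, K k = false → a k s ≤ (1 / 2 : ℝ) ^ k.unpair.1) :
    TuringReducible (chi K) (chi V) := by
  -- the test
  let tt : ℕ → ℕ → ℕ := fun k w => decgF (Nat.pair (t w.unpair.1) (q (Nat.pair k w.unpair.1)))
    (Nat.pair (r w) w.unpair.2)
  let oo : ℕ → ℕ → ℕ := fun k w => decgG w.unpair.2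
    (b (Nat.pair k (Nat.pair w.unpair.2 (k.unpair.1 + w.unpair.2 + 4))))
  have hk : Computable fun p : ℕ => p.unpair.1 := Computable.fst.comp Computable.unpair
  have hw : Computable fun p : ℕ => p.unpair.2 := Computable.snd.comp Computable.unpair
  have hw1 : Computable fun p : ℕ => p.unpair.2.unpair.1 := hk.comp hw
  have hw2 : Computable fun p : ℕ => p.unpair.2.unpair.2 := hw.comp hw
  have h01 : TotRec V fun p : ℕ => Nat.pair (t p.unpair.2.unpair.1)
      (q (Nat.pair p.unpair.1 p.unpair.2.unpair.1)) :=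
    (ht.comp (TotRec.of_computable hw1)).pair
      (hq.comp (TotRec.of_computable (comp_natpair hk hw1)))
  have h02 : TotRec V fun p : ℕ => Nat.pair (r p.unpair.2) p.unpair.2.unpair.2 :=
    (hr.comp (TotRec.of_computable hw)).pair (TotRec.of_computable hw2)
  have htt : TotRec V fun p => tt p.unpair.1 p.unpair.2 :=
    TotRec.comp_computable₂ (f := decgF) decgF_comp h01 h02
  have h03 : Computable fun p : ℕ => Nat.pair p.unpair.1
      (Nat.pair p.unpair.2.unpair.2 (p.unpair.1.unpair.1 + p.unpair.2.unpair.2 + 4)) :=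
    comp_natpair hk (comp_natpair hw2 (comp_add' (comp_add' (hk.comp hk) hw2)
      (Computable.const 4)))
  have hoo : TotRec V fun p => oo p.unpair.1 p.unpair.2 :=
    TotRec.comp_computable₂ (f := decgG) decgG_comp (TotRec.of_computable hw2)
      (hb.comp (TotRec.of_computable h03))
  refine red_of_search htt hoo (fun k => ?_) fun k w hkw => ?_
  · -- the search ends
    obtain ⟨n, hn⟩ := hR3 k
    obtain ⟨s, hs1, hs⟩ := hSlim n (1 / 2048) (by norm_num)
    refine ⟨Nat.pair n s, decgF_iff.2 ?_⟩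
    simp only [Nat.unpair_pair]
    have h1 := abs_le.1 (ht' n)
    have h2 := abs_le.1 (hq' (Nat.pair k n))
    have h3 := abs_le.1 (hr' n s)
    refine ⟨hs1, ?_, ?_⟩
    · rcases lt_abs.1 hn with h4 | h4
      · right
        have h5 : (q (Nat.pair k n) : ℝ) + 10 < (t n : ℝ) := by linarith [h1.1, h1.2, h2.1, h2.2]
        have h6 : q (Nat.pair k n) + 10 < t n := by exact_mod_cast h5
        omega
      · left
        have h5 : (t n : ℝ) + 10 < (q (Nat.pair k n) : ℝ) := by linarith [h1.1, h1.2, h2.1, h2.2]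
        have h6 : t n + 10 < q (Nat.pair k n) := by exact_mod_cast h5
        omega
    · have h5 : (t n : ℝ) < (r (Nat.pair n s) : ℝ) + 6 := by linarith [h1.1, h1.2, h3.1, h3.2]
      have h6 : t n < r (Nat.pair n s) + 6 := by exact_mod_cast h5
      omega
  · -- the output is right
    obtain ⟨hs1, hd, hle⟩ := decgF_iff.1 hkw
    simp only [Nat.unpair_pair] at hs1 hd hle
    set n := w.unpair.1 with hn
    set s := w.unpair.2 with hs
    have hwp : w = Nat.pair n s := (Nat.pair_unpair w).symm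
    have h1 := abs_le.1 (ht' n)
    have h2 := abs_le.1 (hq' (Nat.pair k n))
    have h3 := abs_le.1 (hr' n s)
    rw [← hwp] at h3
    have hle' : (t n : ℝ) ≤ (r w : ℝ) + 6 := by exact_mod_cast hle
    set e := k.unpair.1 with he
    set p := e + s + 4 with hp
    have h4 := abs_le.1 (hb' k s p)
    set y := b (Nat.pair k (Nat.pair s p)) with hy
    have hP : (0 : ℝ) < 2 ^ p := by positivity
    have hPe : (2 : ℝ) ^ p * (1 / 2) ^ e = 2 ^ (s + 4) := by
      rw [hp, show e + s + 4 = e + (s + 4) by ring, pow_add, mul_comm ((2 : ℝ) ^ e), mul_assoc,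
        ← mul_pow]
      norm_num
    have hy1 : (2 : ℝ) ^ p * a k s ≤ y + 1 := by
      have : a k s ≤ (y : ℝ) / 2 ^ p + 1 / 2 ^ p := by linarith [h4.2]
      calc (2 : ℝ) ^ p * a k s ≤ 2 ^ p * ((y : ℝ) / 2 ^ p + 1 / 2 ^ p) :=
            mul_le_mul_of_nonneg_left this hP.le
        _ = y + 1 := by field_simp
    have hy2 : (y : ℝ) ≤ (2 : ℝ) ^ p * a k s + 1 := by
      have : (y : ℝ) / 2 ^ p ≤ a k s + 1 / 2 ^ p := by linarith [h4.1]
      calc (y : ℝ) = 2 ^ p * ((y : ℝ) / 2 ^ p) := by field_simp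
        _ ≤ 2 ^ p * (a k s + 1 / 2 ^ p) := mul_le_mul_of_nonneg_left this hP.le
        _ = (2 : ℝ) ^ p * a k s + 1 := by field_simp
    show decgG s y = if K k = true then 1 else 0
    rw [decgG]
    by_cases hKk : K k = true
    · rw [if_pos hKk]
      have hdk := (hK k).1 hKk
      have hsd : 1 < (s : ℝ) * d k := by
        by_contra hc
        obtain ⟨h5, h6⟩ := hfix k hdk n s (not_lt.1 hc)
        rcases hd with h7 | h7
        · have h8 : (t n : ℝ) + 9 ≤ (q (Nat.pair k n) : ℝ) := by exact_mod_cast h7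
          linarith [h1.1, h1.2, h2.1, h2.2, h3.1, h3.2]
        · have h8 : (q (Nat.pair k n) : ℝ) + 9 ≤ (t n : ℝ) := by exact_mod_cast h7
          linarith [h1.1, h1.2, h2.1, h2.2, h3.1, h3.2]
      have h9 := ha1 k s hs1 hsd
      have hs0 : (1 : ℝ) ≤ s := by exact_mod_cast hs1
      have h10 : (2 : ℝ) ^ (s + 4) + 8 ≤ 2 ^ p * a k s := by
        calc (2 : ℝ) ^ (s + 4) + 8 ≤ 2 ^ (s + 4) + 2 ^ p * (1 / (2 * s)) := by
              have hse : (s : ℝ) ≤ 2 ^ s := by exact_mod_cast (Nat.lt_two_pow_self).le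
              have h11 : (16 : ℝ) * s ≤ 2 ^ p := by
                rw [hp, show e + s + 4 = e + (s + 4) by ring, pow_add, pow_add]
                have : (1 : ℝ) ≤ 2 ^ e := one_le_pow₀ (by norm_num)
                nlinarith [mul_nonneg (sub_nonneg.2 this) (show (0 : ℝ) ≤ 2 ^ s by positivity)]
              have h12 : (8 : ℝ) ≤ 2 ^ p * (1 / (2 * s)) := by
                rw [mul_one_div, le_div_iff₀ (by positivity)]
                linarith
              linarith
          _ = 2 ^ p * ((1 / 2) ^ e + 1 / (2 * s)) := by rw [mul_add, hPe]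
          _ ≤ 2 ^ p * a k s := mul_le_mul_of_nonneg_left h9 hP.le
      have h13 : ((2 ^ (s + 4) + 1 : ℕ) : ℝ) < (y : ℝ) := by
        push_cast
        linarith
      have h14 : 2 ^ (s + 4) + 1 < y := by exact_mod_cast h13
      simp [h14]
    · rw [if_neg hKk]
      rw [Bool.not_eq_true] at hKk
      have h9 := ha2 k s hKk
      have h10 : 2 ^ p * a k s ≤ (2 : ℝ) ^ (s + 4) := by
        rw [← hPe]
        exact mul_le_mul_of_nonneg_left h9 hP.le
      have h13 : (y : ℝ) ≤ ((2 ^ (s + 4) + 1 : ℕ) : ℝ) := by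
        push_cast
        linarith
      have h14 : ¬ 2 ^ (s + 4) + 1 < y := not_lt.2 (by exact_mod_cast h13)
      simp [h14]

end Pool.Agent.SAX
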