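import Mathlib
import Pool.Agent.RJ.MPR

/-!
Sacks' question: the coin measure of a set which depends on a parameter is continuous in the
parameter, if for almost every sequence the membership is locally constant.
-/

set_option autoImplicit false

namespace Pool.Agent.SAX

open MeasureTheory Filter Topology Pool.Agent.H19 Pool.Agent.AEI

theorem continuousAt_real_of_ae {X : Type*} [TopologicalSpace X] [FirstCountableTopology X]
    {A : X → Set (ℕ → Bool)} (hA : ∀ x, MeasurableSet (A x)) (x : X)
    (h : ∀ᵐ u ∂coin, ∀ᶠ y in 𝓝 x, (u ∈ A y ↔ u ∈ A x)) :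
    ContinuousAt (fun y => coin.real (A y)) x := by
  have h1 := tendsto_measure_of_ae_tendsto_indicator_of_isFiniteMeasure (μ := coin) (𝓝 x)
    (hA x) hA h
  exact (ENNReal.tendsto_toReal (measure_ne_top coin (A x))).comp h1

theorem continuous_real_of_ae {X : Type*} [TopologicalSpace X] [FirstCountableTopology X]
    {A : X → Set (ℕ → Bool)} (hA : ∀ x, MeasurableSet (A x))
    (h : ∀ x, ∀ᵐ u ∂coin, ∀ᶠ y in 𝓝 x, (u ∈ A y ↔ u ∈ A x)) :
    Continuous fun y => coin.real (A y) :=
  continuous_iff_continuousAt.2 fun x => continuousAt_real_of_ae hA x (h x)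

end Pool.Agent.SAX
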