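import Mathlib
import Pool.Agent.SAX.NMB
import Pool.Agent.SAX.MCN

/-!
MCT (100 lines). Continuity in the parameter.
PROOF. Fix ν. For u outside Zb ν every bit of XX ν' u is equal to the bit of XX ν u for all ν' close to ν (in the product topology, eventually in 𝓝 ν): for a bit of
nm: p + rl u ≠ N ν j, and ν' ↦ N ν' j is continuous. So the initial segment of length L is eventually equal. Dominated convergence:
tendsto_of_tendsto... coin.real {u | p (pre (XX ν' u) L)} = ∫ indicator; use MeasureTheory.continuousAt_of_dominated (bound 1) or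
tendsto_integral_filter_of_dominated_convergence (𝓝 ν is countably generated). Write coin.real S = ∫ S.indicator 1.
-/

set_option autoImplicit false

namespace Pool.Agent.SAX

open MeasureTheory Encodable Pool.Agent.H19 Pool.Agent.AEI Pool.Agent.RJ
open Nat.Partrec (Code)
open Filter Topology

theorem measurableSet_XX (p : List Bool → Bool) (L : ℕ) (ν : ℕ → ℝ) :
    MeasurableSet {u | p (pre (XX ν u) L) = true} :=
  measurable_XX ν (measurableSet_pre p L)

/-- A bit of the name is locally constant in the parameter, outside the exceptional set. -/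
theorem MCT_nm {ν : ℕ → ℝ} {u : ℕ → Bool} (hu : u ∉ Zb ν) (i : ℕ) :
    ∀ᶠ ν' in 𝓝 ν, nm ν' u i = nm ν u i := by
  have hc : Continuous fun ν' : ℕ → ℝ => (i.unpair.2.unpair.1 : ℝ) * ν' i.unpair.1 :=
    continuous_const.mul (continuous_apply _)
  have hne : (i.unpair.2.unpair.2 : ℝ) + rl u ≠ (i.unpair.2.unpair.1 : ℝ) * ν i.unpair.1 :=
    fun h => hu ⟨_, _, _, h⟩
  rcases lt_or_gt_of_ne hne with h | h
  · filter_upwards [hc.continuousAt.eventually (lt_mem_nhds h)] with ν' h'
    simp only [nm, decide_eq_decide]
    exact ⟨fun _ => h, fun _ => h'⟩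
  · filter_upwards [hc.continuousAt.eventually (gt_mem_nhds h)] with ν' h'
    simp only [nm, decide_eq_decide]
    exact ⟨fun h2 => absurd h2 (not_lt.2 (le_of_lt h')), fun h2 => absurd h2 (not_lt.2 (le_of_lt h))⟩

/-- An initial segment of the typical real is locally constant in the parameter, outside the
exceptional set. -/
theorem MCT_pre {ν : ℕ → ℝ} {u : ℕ → Bool} (hu : u ∉ Zb ν) (L : ℕ) :
    ∀ᶠ ν' in 𝓝 ν, pre (XX ν' u) L = pre (XX ν u) L := by
  have h : ∀ᶠ ν' in 𝓝 ν, ∀ i ∈ Finset.range L, nm ν' u i = nm ν u i :=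
    (Finset.eventually_all _).2 fun i _ => MCT_nm hu i
  filter_upwards [h] with ν' hν'
  refine List.map_congr_left fun i hi => ?_
  have hi : i < L := List.mem_range.1 hi
  simp only [XX, jn]
  split_ifs with h2
  · rfl
  · exact hν' (i / 2) (Finset.mem_range.2 (lt_of_le_of_lt (Nat.div_le_self _ _) hi))

theorem continuous_meas (p : List Bool → Bool) (L : ℕ) :
    Continuous fun ν : ℕ → ℝ => coin.real {u | p (pre (XX ν u) L) = true} := by
  refine continuous_real_of_ae (A := fun ν : ℕ → ℝ => {u | p (pre (XX ν u) L) = true})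
    (fun ν => measurableSet_XX p L ν) fun ν => ?_
  filter_upwards [ae_Zb ν] with u hu
  filter_upwards [MCT_pre hu L] with ν' hν'
  simp only [hν']

end Pool.Agent.SAX
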