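import Mathlib
import Pool.Agent.SAX.MCT

/-!
JST (100 lines). The stages of the jump. PROOF. jD (pair (pair e n) s) ζ = jap e (ζ.take s) && !jap e (ζ.take n), jL = n + s. aJ_mono: jap_mono. Continuity: continuous_meas.
-/

set_option autoImplicit false

namespace Pool.Agent.SAX

open MeasureTheory Encodable Pool.Agent.H19 Pool.Agent.AEI Pool.Agent.RJ
open Nat.Partrec (Code)
open Filter Topology

/-- The event as a function of an initial segment of `XX ν u`; `a = ((e, n), s)`. -/
def jD (a : ℕ) (ζ : List Bool) : Bool :=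
  jap a.unpair.1.unpair.1 (ζ.take a.unpair.2) &&
    !jap a.unpair.1.unpair.1 (ζ.take a.unpair.1.unpair.2)

/-- The length needed. -/
def jL (a : ℕ) : ℕ := a.unpair.2 + a.unpair.1.unpair.2

theorem comp_jD : Computable₂ jD := by
  have ha : Computable fun p : ℕ × List Bool => p.1.unpair := Computable.unpair.comp Computable.fst
  have h1 : Computable fun p : ℕ × List Bool => p.1.unpair.1.unpair :=
    Computable.unpair.comp (Computable.fst.comp ha)
  have he : Computable fun p : ℕ × List Bool => p.1.unpair.1.unpair.1 := Computable.fst.comp h1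
  exact comp_and (comp_jap he (comp_take (Computable.snd.comp ha) Computable.snd))
    (comp_not (comp_jap he (comp_take (Computable.snd.comp h1) Computable.snd)))

theorem comp_jL : Computable jL :=
  Primrec.nat_add.to_comp.comp (Computable.snd.comp Computable.unpair)
    (Computable.snd.comp (Computable.unpair.comp (Computable.fst.comp Computable.unpair)))

theorem aJ_eq (e n s : ℕ) (ν : ℕ → ℝ) : aJ e n s ν =
    coin.real {u | jD (Nat.pair (Nat.pair e n) s)
      (pre (XX ν u) (jL (Nat.pair (Nat.pair e n) s))) = true} := by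
  unfold aJ
  congr 1
  ext u
  simp only [jD, jL, Nat.unpair_pair, Set.mem_ofPred_eq, Bool.and_eq_true, Bool.not_eq_true']
  rw [pre_take _ (Nat.le_add_right s n), pre_take _ (Nat.le_add_left n s)]

theorem continuous_aJ (e n s : ℕ) : Continuous (aJ e n s) := by
  have h : aJ e n s = fun ν : ℕ → ℝ => coin.real {u | jD (Nat.pair (Nat.pair e n) s)
      (pre (XX ν u) (jL (Nat.pair (Nat.pair e n) s))) = true} := funext (aJ_eq e n s)
  rw [h]
  exact continuous_meas _ _

theorem aJ_nonneg (e n s : ℕ) (ν : ℕ → ℝ) : 0 ≤ aJ e n s ν := measureReal_nonneg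

theorem aJ_le_one (e n s : ℕ) (ν : ℕ → ℝ) : aJ e n s ν ≤ 1 := measureReal_le_one

theorem aJ_mono (e n : ℕ) {s s' : ℕ} (h : s ≤ s') (ν : ℕ → ℝ) : aJ e n s ν ≤ aJ e n s' ν := by
  refine measureReal_mono ?_
  rintro u ⟨h1, h2⟩
  refine ⟨jap_mono ?_ h1, h2⟩
  rw [← pre_take _ h]
  exact List.take_prefix _ _

end Pool.Agent.SAX
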