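import Mathlib

/-!
Real analysis: the weighted sum of the excesses of a nondecreasing sequence over a threshold.
-/

set_option autoImplicit false

namespace Pool.Agent.SAX

open Filter Topology Set

/-- The weighted sum of the excesses over `ε`. -/
noncomputable def exc (ε : ℝ) (a : ℕ → ℝ) : ℝ := ∑' s : ℕ, (1 / 2 : ℝ) ^ (s + 1) * max 0 (a s - ε)

theorem exc_term_nonneg (ε : ℝ) (a : ℕ → ℝ) (s : ℕ) :
    0 ≤ (1 / 2 : ℝ) ^ (s + 1) * max 0 (a s - ε) :=
  mul_nonneg (by positivity) (le_max_left _ _)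

theorem exc_term_le {ε : ℝ} (hε : 0 ≤ ε) {a : ℕ → ℝ} (h : ∀ s, a s ≤ 1) (s : ℕ) :
    (1 / 2 : ℝ) ^ (s + 1) * max 0 (a s - ε) ≤ (1 / 2 : ℝ) ^ (s + 1) := by
  have h1 : max 0 (a s - ε) ≤ 1 := max_le zero_le_one (by linarith [h s])
  calc (1 / 2 : ℝ) ^ (s + 1) * max 0 (a s - ε) ≤ (1 / 2 : ℝ) ^ (s + 1) * 1 :=
        mul_le_mul_of_nonneg_left h1 (by positivity)
    _ = (1 / 2 : ℝ) ^ (s + 1) := mul_one _

theorem hasSum_half : HasSum (fun s : ℕ => (1 / 2 : ℝ) ^ (s + 1)) 1 := by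
  have h := (hasSum_geometric_two).mul_left (1 / 2 : ℝ)
  have h2 : (1 / 2 : ℝ) * 2 = 1 := by norm_num
  rw [h2] at h
  refine h.congr_fun ?_ |>.trans ?_ <;> simp [pow_succ, mul_comm]

theorem summable_half : Summable (fun s : ℕ => (1 / 2 : ℝ) ^ (s + 1)) := hasSum_half.summable

theorem exc_summable {ε : ℝ} (hε : 0 ≤ ε) {a : ℕ → ℝ} (h : ∀ s, a s ≤ 1) :
    Summable fun s : ℕ => (1 / 2 : ℝ) ^ (s + 1) * max 0 (a s - ε) :=
  Summable.of_nonneg_of_le (exc_term_nonneg ε a) (exc_term_le hε h) summable_half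

theorem exc_nonneg (ε : ℝ) (a : ℕ → ℝ) : 0 ≤ exc ε a := tsum_nonneg (exc_term_nonneg ε a)

/-- The excess is positive if one term is above the threshold. -/
theorem exc_pos_iff {ε : ℝ} (hε : 0 ≤ ε) {a : ℕ → ℝ} (h : ∀ s, a s ≤ 1) :
    0 < exc ε a ↔ ∃ s, ε < a s := by
  constructor
  · intro hpos
    by_contra hno
    push Not at hno
    have : exc ε a = 0 := by
      unfold exc
      have : (fun s : ℕ => (1 / 2 : ℝ) ^ (s + 1) * max 0 (a s - ε)) = fun _ => 0 := by
        funext s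
        rw [max_eq_left (by linarith [hno s]), mul_zero]
      rw [this, tsum_zero]
    exact absurd hpos (by rw [this]; exact lt_irrefl _)
  · rintro ⟨s, hs⟩
    refine (exc_summable hε h).tsum_pos (exc_term_nonneg ε a) s ?_
    have : 0 < a s - ε := by linarith
    exact mul_pos (by positivity) (lt_max_of_lt_right this)

/-- A lower bound on the excess gives a term well above the threshold. -/
theorem exc_gap {ε : ℝ} (hε : 0 ≤ ε) {a : ℕ → ℝ} (h : ∀ s, a s ≤ 1) (hmono : Monotone a)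
    {s : ℕ} (hs : 1 ≤ s) (hd : 1 / (s : ℝ) < exc ε a) : ε + 1 / (2 * (s : ℝ)) ≤ a s := by
  have hsum := exc_summable hε h
  have h1 := hsum.sum_add_tsum_nat_add s
  have hsum2 := (summable_nat_add_iff s).2 hsum
  have hgeo := (summable_nat_add_iff s).2 summable_half
  -- the head
  have h2 : ∑ i ∈ Finset.range s, (1 / 2 : ℝ) ^ (i + 1) * max 0 (a i - ε) ≤
      (∑ i ∈ Finset.range s, (1 / 2 : ℝ) ^ (i + 1)) * max 0 (a s - ε) := by
    rw [Finset.sum_mul]
    refine Finset.sum_le_sum fun i hi => ?_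
    refine mul_le_mul_of_nonneg_left ?_ (by positivity)
    exact max_le_max le_rfl (by linarith [hmono (Finset.mem_range.1 hi).le])
  have h3 : ∑ i ∈ Finset.range s, (1 / 2 : ℝ) ^ (i + 1) = 1 - (1 / 2) ^ s := by
    clear * -
    induction s with
    | zero => simp
    | succ n ih => rw [Finset.sum_range_succ, ih, pow_succ]; ring
  have h4 : ∑' i, (1 / 2 : ℝ) ^ (i + s + 1) * max 0 (a (i + s) - ε) ≤
      ∑' i, (1 / 2 : ℝ) ^ (i + s + 1) :=
    hsum2.tsum_le_tsum (fun i => exc_term_le hε h (i + s)) hgeo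
  have h5 : ∑' i, (1 / 2 : ℝ) ^ (i + s + 1) = (1 / 2) ^ s := by
    have := summable_half.sum_add_tsum_nat_add s
    rw [h3, hasSum_half.tsum_eq] at this
    linarith
  have h6 : exc ε a ≤ max 0 (a s - ε) + (1 / 2) ^ s := by
    have hm : 0 ≤ max 0 (a s - ε) := le_max_left _ _
    have hp : (0 : ℝ) ≤ (1 / 2) ^ s := by positivity
    have h7 : (1 - (1 / 2) ^ s) * max 0 (a s - ε) ≤ max 0 (a s - ε) := by nlinarith
    have h8 : exc ε a = ∑ i ∈ Finset.range s, (1 / 2 : ℝ) ^ (i + 1) * max 0 (a i - ε) +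
        ∑' i, (1 / 2 : ℝ) ^ (i + s + 1) * max 0 (a (i + s) - ε) := h1.symm
    rw [h3] at h2
    linarith
  have hs0 : (0 : ℝ) < s := by exact_mod_cast hs
  -- `2 ^ s ≥ 2 s`
  have h9 : (1 / 2 : ℝ) ^ s ≤ 1 / (2 * (s : ℝ)) := by
    rw [div_pow, one_pow]
    refine one_div_le_one_div_of_le (by positivity) ?_
    have : 2 * s ≤ 2 ^ s := by
      clear * - hs
      induction s, hs using Nat.le_induction with
      | base => norm_num
      | succ n hn ih => rw [pow_succ]; omega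
    exact_mod_cast this
  have h10 : 1 / (s : ℝ) = 1 / (2 * (s : ℝ)) + 1 / (2 * (s : ℝ)) := by
    field_simp
    norm_num
  have h11 : 1 / (2 * (s : ℝ)) < max 0 (a s - ε) := by linarith
  have h12 : 0 < 1 / (2 * (s : ℝ)) := by positivity
  rcases le_total (a s - ε) 0 with h13 | h13
  · rw [max_eq_left h13] at h11
    linarith
  · rw [max_eq_right h13] at h11
    linarith

/-- The excess is continuous. -/
theorem continuous_exc {X : Type*} [TopologicalSpace X] {ε : ℝ} (hε : 0 ≤ ε) {a : X → ℕ → ℝ}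
    (hc : ∀ s, Continuous fun x => a x s) (h : ∀ x s, a x s ≤ 1) :
    Continuous fun x => exc ε (a x) := by
  unfold exc
  refine continuous_tsum (u := fun s : ℕ => (1 / 2 : ℝ) ^ (s + 1)) (fun s => ?_) summable_half
    fun s x => ?_
  · exact continuous_const.mul (continuous_const.max ((hc s).sub continuous_const))
  · rw [Real.norm_of_nonneg (exc_term_nonneg ε (a x) s)]
    exact exc_term_le hε (h x) s

end Pool.Agent.SAX
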