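import Mathlib
import Pool.Agent.SAX.JST
import Pool.Agent.SAX.SUMD

/-!
DKM. The speeds: continuity, positivity, and the lower bound for the measure at a stage.
-/

set_option autoImplicit false

namespace Pool.Agent.SAX

open MeasureTheory Encodable Pool.Agent.H19 Pool.Agent.AEI Pool.Agent.RJ
open Nat.Partrec (Code)
open Filter Topology

theorem dk_eq_exc (k : ℕ) (ν : ℕ → ℝ) :
    dk k ν = exc ((1 / 2 : ℝ) ^ k.unpair.1) fun s => aJ k.unpair.1 k.unpair.2 s ν := rfl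

theorem continuous_dk (k : ℕ) : Continuous (dk k) :=
  continuous_exc (ε := (1 / 2 : ℝ) ^ k.unpair.1) (by positivity)
    (fun s => continuous_aJ k.unpair.1 k.unpair.2 s) fun ν s => aJ_le_one _ _ _ _

theorem dk_pos_iff (k : ℕ) (ν : ℕ → ℝ) :
    0 < dk k ν ↔ ∃ s, (1 / 2 : ℝ) ^ k.unpair.1 < aJ k.unpair.1 k.unpair.2 s ν := by
  rw [dk_eq_exc]
  exact exc_pos_iff (by positivity) fun s => aJ_le_one _ _ _ _

theorem dk_large {k s : ℕ} {ν : ℕ → ℝ} (hs : 1 ≤ s) (h : 1 < (s : ℝ) * dk k ν) :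
    (1 / 2 : ℝ) ^ k.unpair.1 + 1 / (2 * s) ≤ aJ k.unpair.1 k.unpair.2 s ν := by
  rw [dk_eq_exc] at h
  have hs0 : (0 : ℝ) < s := by exact_mod_cast hs
  exact exc_gap (a := fun s => aJ k.unpair.1 k.unpair.2 s ν) (by positivity)
    (fun s => aJ_le_one _ _ _ _) (fun s t hst => aJ_mono _ _ hst ν) hs
    (by rw [div_lt_iff₀ hs0, mul_comm]; exact h)

end Pool.Agent.SAX
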