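import Mathlib
import Pool.Agent.SAX.Defs
import Pool.Agent.RJ.CUT

/-!
NVL. Values from names.
-/

set_option autoImplicit false

namespace Pool.Agent.SAX

open MeasureTheory Encodable Pool.Agent.H19 Pool.Agent.AEI Pool.Agent.RJ
open Nat.Partrec (Code)
open Filter Topology

/-- The least `p < m` with the bit `(j, N, p)` of `σ` equal to zero, or `m`. -/
def vr (N j : ℕ) (σ : List Bool) (m : ℕ) : ℕ :=
  Nat.rec (motive := fun _ => ℕ) 0
    (fun y q => if (decide (q = y) && σ.getD (tr j N y) false) then y + 1 else q) m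

theorem vr_succ (N j : ℕ) (σ : List Bool) (m : ℕ) : vr N j σ (m + 1) =
    if (decide (vr N j σ m = m) && σ.getD (tr j N m) false) then m + 1 else vr N j σ m := rfl

theorem vr_spec (N j : ℕ) (σ : List Bool) (m : ℕ) : vr N j σ m ≤ m ∧
    (∀ p < vr N j σ m, σ.getD (tr j N p) false = true) ∧
    (vr N j σ m = m ∨ (vr N j σ m < m ∧ σ.getD (tr j N (vr N j σ m)) false = false)) := by
  induction m with
  | zero => exact ⟨le_rfl, fun p hp => absurd hp (Nat.not_lt_zero p), Or.inl rfl⟩
  | succ m ih =>
    obtain ⟨h1, h2, h3⟩ := ih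
    rw [vr_succ]
    rcases h3 with h3 | ⟨h3, h4⟩
    · cases hb : σ.getD (tr j N m) false with
      | true =>
        rw [h3] at h2 ⊢
        simp only [decide_true, Bool.and_self, if_true]
        refine ⟨le_rfl, fun p hp => ?_, Or.inl trivial⟩
        rcases Nat.lt_succ_iff_lt_or_eq.1 hp with h | h
        · exact h2 p h
        · rw [h]; exact hb
      | false =>
        simp only [Bool.and_false, Bool.false_eq_true, if_false]
        refine ⟨h1.trans (Nat.le_succ m), h2, Or.inr ⟨by omega, ?_⟩⟩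
        rw [h3]; exact hb
    · have hne : ¬ vr N j σ m = m := by omega
      simp only [hne, decide_false, Bool.false_and, Bool.false_eq_true, if_false]
      exact ⟨by omega, h2, Or.inr ⟨by omega, h4⟩⟩

theorem comp_tr {α : Type*} [Primcodable α] {j N p : α → ℕ} (hj : Computable j)
    (hN : Computable N) (hp : Computable p) : Computable fun a => tr (j a) (N a) (p a) :=
  comp_natpair hj (comp_natpair hN hp)

theorem comp_vr (N m : ℕ) : Computable₂ fun (j : ℕ) (σ : List Bool) => vr N j σ m := by
  have h1 : Computable₂ fun (a : ℕ × List Bool) (b : ℕ × ℕ) =>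
      if (decide (b.2 = b.1) && a.2.getD (tr a.1 N b.1) false) then b.1 + 1 else b.2 := by
    refine comp_ite (c := fun x : (ℕ × List Bool) × (ℕ × ℕ) =>
      (decide (x.2.2 = x.2.1) && x.1.2.getD (tr x.1.1 N x.2.1) false)) ?_ ?_ ?_
    · refine comp_and (comp_decEq (Computable.snd.comp Computable.snd)
        (Computable.fst.comp Computable.snd)) ?_
      have h2 : Computable fun x : (ℕ × List Bool) × (ℕ × ℕ) => tr x.1.1 N x.2.1 :=
        comp_tr (Computable.fst.comp Computable.fst) (Computable.const N)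
          (Computable.fst.comp Computable.snd)
      have h3 := (Primrec.list_getD (α := Bool) false).to_comp
      exact h3.comp (Computable.snd.comp Computable.fst) h2
    · exact Computable.succ.comp (Computable.fst.comp Computable.snd)
    · exact Computable.snd.comp Computable.snd
  exact Computable.nat_rec (f := fun _ : ℕ × List Bool => m) (g := fun _ => 0)
    (Computable.const m) (Computable.const 0) h1

theorem tr_lt {j N p : ℕ} (hp : p < N) : tr j N p < tr j N N :=
  Nat.pair_lt_pair_right _ (Nat.pair_lt_pair_right _ hp)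

theorem name_val_gen {ν : ℕ → ℝ} (hν : ∀ j, 0 ≤ ν j ∧ ν j ≤ 1) {Y : ℕ → Bool}
    (hY : IsName ν Y) (N : ℕ) :
    ∃ t : ℕ → ℕ, TotRec Y t ∧ ∀ j, |(t j : ℝ) - N * ν j| ≤ 1 := by
  refine ⟨fun j => vr N j (pre Y (tr j N N)) N, totRec_of_pre (comp_vr N N)
    (TotRec.of_computable (comp_tr Computable.id (Computable.const N) (Computable.const N))),
    fun j => ?_⟩
  obtain ⟨h1, h2, h3⟩ := vr_spec N j (pre Y (tr j N N)) N
  set q := vr N j (pre Y (tr j N N)) N with hq
  have hlo : (q : ℝ) ≤ N * ν j + 1 := by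
    rcases Nat.eq_zero_or_pos q with h | h
    · rw [h]
      have := mul_nonneg (Nat.cast_nonneg (α := ℝ) N) (hν j).1
      push_cast
      linarith
    · have h4 := h2 (q - 1) (by omega)
      rw [pre_getD _ (tr_lt (by omega))] at h4
      have h5 := (hY j N (q - 1)).1 h4
      rw [Nat.cast_sub h] at h5
      push_cast at h5
      linarith
  have hhi : (N : ℝ) * ν j ≤ q + 1 := by
    rcases h3 with h | ⟨h, h'⟩
    · rw [h]
      have := mul_le_mul_of_nonneg_left (hν j).2 (Nat.cast_nonneg (α := ℝ) N)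
      linarith
    · rw [pre_getD _ (tr_lt h)] at h'
      exact (hY j N q).2 h'
  rw [abs_le]
  constructor <;> linarith

theorem name_val {ν : ℕ → ℝ} (hν : ∀ j, 0 ≤ ν j ∧ ν j ≤ 1) {Y : ℕ → Bool} (hY : IsName ν Y) :
    ∃ t : ℕ → ℕ, TotRec Y t ∧ ∀ j, |(t j : ℝ) - 1024 * ν j| ≤ 1 := by
  obtain ⟨t, ht, hta⟩ := name_val_gen hν hY 1024
  exact ⟨t, ht, fun j => by simpa using hta j⟩

end Pool.Agent.SAX
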