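import Mathlib
import Pool.Agent.SAX.Defs
import Pool.Agent.RJ.CEC
import Pool.Agent.RJ.LNG

/-!
STB. The questions: computability, bounds, monotonicity.
-/

set_option autoImplicit false

namespace Pool.Agent.SAX

open MeasureTheory Encodable Pool.Agent.H19 Pool.Agent.AEI Pool.Agent.RJ
open Nat.Partrec (Code)
open Filter Topology

private theorem length_le_flatMap {l : List (List Bool × List Bool)} {p : List Bool × List Bool}
    (hp : p ∈ l) : p.2.length ≤ (l.flatMap fun p => p.2).length := by
  induction l with
  | nil => exact absurd hp List.not_mem_nil
  | cons q l ih =>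
    rw [List.flatMap_cons, List.length_append]
    rcases List.mem_cons.1 hp with h | h
    · rw [h]
      omega
    · have := ih h
      omega

theorem look_length_le (n : ℕ) (σ : List Bool) : (look (cand (n / 2)) σ).length ≤ gL n := by
  rw [look, gL]
  cases h : (cand (n / 2)).2.find? fun p => decide (p.1 = σ) with
  | none => simp
  | some p =>
    have hp := List.mem_of_find?_eq_some h
    have := length_le_flatMap hp
    simp only [Option.map_some, Option.getD_some]
    omega

private theorem comp_cand' {α : Type*} [Primcodable α] {n : α → ℕ} (hn : Computable n) :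
    Computable fun a => cand (n a / 2) :=
  (Computable.option_getD Computable.decode (Computable.const _)).comp
    (comp_div hn (Computable.const 2))

theorem comp_gL : Computable gL := by
  have h1 : Computable fun n : ℕ => cand (n / 2) := comp_cand' Computable.id
  refine comp_add' (Computable.fst.comp h1) (Computable.list_length.comp ?_)
  exact comp_list_flatMap (g := fun (_ : ℕ) (p : List Bool × List Bool) => p.2)
    (Computable.snd.comp h1) (Computable.snd.comp Computable.snd)

private theorem comp_getDb {α : Type*} [Primcodable α] {l : α → List Bool} {m : α → ℕ}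
    (hl : Computable l) (hm : Computable m) : Computable fun a => (l a).getD (m a) false :=
  (Primrec.list_getD false).to_comp.comp hl hm

theorem comp_gB {α : Type*} [Primcodable α] {n : α → ℕ} {σ τ : α → List Bool}
    (hn : Computable n) (hσ : Computable σ) (hτ : Computable τ) :
    Computable fun a => gB (n a) (σ a) (τ a) := by
  have hc : Computable fun a => cand (n a / 2) := comp_cand' hn
  have hl : Computable fun a => look (cand (n a / 2)) ((σ a).take (cand (n a / 2)).1) :=
    comp_look hc (comp_take (Computable.fst.comp hc) hσ)
  have hr : Computable fun a => List.range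
      (look (cand (n a / 2)) ((σ a).take (cand (n a / 2)).1)).length :=
    comp_range (Computable.list_length.comp hl)
  have h0 : Computable fun a => decide (n a % 2 = 0) :=
    comp_decEq (comp_mod hn (Computable.const 2)) (Computable.const 0)
  have hA : Computable fun a => (List.range
      (look (cand (n a / 2)) ((σ a).take (cand (n a / 2)).1)).length).any fun m =>
        (look (cand (n a / 2)) ((σ a).take (cand (n a / 2)).1)).getD m false &&
          !((τ a).getD m false) :=
    comp_list_any (g := fun a m =>
      (look (cand (n a / 2)) ((σ a).take (cand (n a / 2)).1)).getD m false &&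
          !((τ a).getD m false)) hr
      (comp_and (comp_getDb (hl.comp Computable.fst) Computable.snd)
        (comp_not (comp_getDb (hτ.comp Computable.fst) Computable.snd)))
  have hB : Computable fun a => (List.range
      (look (cand (n a / 2)) ((σ a).take (cand (n a / 2)).1)).length).any fun m =>
        !((look (cand (n a / 2)) ((σ a).take (cand (n a / 2)).1)).getD m false) &&
          (τ a).getD m false :=
    comp_list_any (g := fun a m =>
      !((look (cand (n a / 2)) ((σ a).take (cand (n a / 2)).1)).getD m false) &&
          (τ a).getD m false) hr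
      (comp_and (comp_not (comp_getDb (hl.comp Computable.fst) Computable.snd))
        (comp_getDb (hτ.comp Computable.fst) Computable.snd))
  refine (comp_ite h0 (comp_not hA) hB).of_eq fun a => ?_
  rw [gB]
  by_cases h : n a % 2 = 0
  · rw [if_pos h, if_pos (decide_eq_true h)]
    rw [List.not_any_eq_all_not]
    congr 1
    funext m
    cases (look (cand (n a / 2)) ((σ a).take (cand (n a / 2)).1)).getD m false <;>
      cases (τ a).getD m false <;> rfl
  · rw [if_neg h, if_neg (by simpa using h)]

theorem gB_mono {n : ℕ} {σ τ τ' : List Bool}
    (h : ∀ m, τ.getD m false = true → τ'.getD m false = true) (hg : gB n σ τ = true) :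
    gB n σ τ' = true := by
  rw [gB] at hg ⊢
  split_ifs at hg ⊢
  · rw [List.all_eq_true] at hg ⊢
    intro m hm
    have h1 := hg m hm
    rw [Bool.or_eq_true] at h1 ⊢
    exact h1.imp_right (h m)
  · rw [List.any_eq_true] at hg ⊢
    obtain ⟨m, hm, h1⟩ := hg
    rw [Bool.and_eq_true] at h1
    exact ⟨m, hm, by rw [Bool.and_eq_true]; exact ⟨h1.1, h m h1.2⟩⟩

private theorem getD_pre {A : ℕ → Bool} {m s : ℕ} (h : m < s) :
    (pre A s).getD m false = A m := by
  rw [List.getD_eq_getElem _ _ (by rw [pre_length]; exact h)]
  simp [pre]

theorem gB_even {c : Cand} {u A : ℕ → Bool} :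
    gB (2 * encode c) (pre u (gL (2 * encode c))) (pre A (gL (2 * encode c))) = true ↔
      ∀ m < (val c u).length, (val c u).getD m false = true → A m = true := by
  have e1 : cand (2 * encode c / 2) = c := by
    rw [show 2 * encode c / 2 = encode c by omega, cand_encode]
  have e2 : (pre u (gL (2 * encode c))).take c.1 = pre u c.1 :=
    pre_take u (by rw [gL, e1]; omega)
  have e3 : (look c (pre u c.1)).length ≤ gL (2 * encode c) := by
    have := look_length_le (2 * encode c) (pre u c.1)
    rwa [e1] at this
  rw [gB, if_pos (by omega), e1, e2, List.all_eq_true]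
  constructor
  · intro h m hm hb
    have h1 := h m (List.mem_range.2 hm)
    rw [getD_pre (lt_of_lt_of_le hm e3)] at h1
    have h2 : (look c (pre u c.1)).getD m false = true := hb
    rw [h2] at h1
    simpa using h1
  · intro h m hm
    rw [List.mem_range] at hm
    rw [getD_pre (lt_of_lt_of_le hm e3)]
    cases hb : (look c (pre u c.1)).getD m false
    · rfl
    · rw [h m hm hb]
      rfl

theorem gB_odd {c : Cand} {u A : ℕ → Bool} :
    gB (2 * encode c + 1) (pre u (gL (2 * encode c + 1))) (pre A (gL (2 * encode c + 1))) = true ↔
      ∃ m < (val c u).length, (val c u).getD m false = false ∧ A m = true := by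
  have e1 : cand ((2 * encode c + 1) / 2) = c := by
    rw [show (2 * encode c + 1) / 2 = encode c by omega, cand_encode]
  have e2 : (pre u (gL (2 * encode c + 1))).take c.1 = pre u c.1 :=
    pre_take u (by rw [gL, e1]; omega)
  have e3 : (look c (pre u c.1)).length ≤ gL (2 * encode c + 1) := by
    have := look_length_le (2 * encode c + 1) (pre u c.1)
    rwa [e1] at this
  rw [gB, if_neg (by omega), e1, e2, List.any_eq_true]
  constructor
  · rintro ⟨m, hm, h1⟩
    rw [List.mem_range] at hm
    rw [getD_pre (lt_of_lt_of_le hm e3), Bool.and_eq_true] at h1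
    refine ⟨m, hm, ?_, h1.2⟩
    have h2 := h1.1
    show (look c (pre u c.1)).getD m false = false
    cases hb : (look c (pre u c.1)).getD m false
    · rfl
    · rw [hb] at h2
      exact absurd h2 (by decide)
  · rintro ⟨m, hm, hb, hA⟩
    refine ⟨m, List.mem_range.2 hm, ?_⟩
    rw [getD_pre (lt_of_lt_of_le hm e3), hA]
    have h2 : (look c (pre u c.1)).getD m false = false := hb
    rw [h2]
    rfl

theorem measurableSet_gB {f : (ℕ → Bool) → (ℕ → Bool)} (hf : Measurable f) (n : ℕ) :
    MeasurableSet {u | gB n (pre u (gL n)) (pre (f u) (gL n)) = true} := by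
  refine meas_of_pre_fun (g := fun z => z) measurable_id (gL n)
    (P := fun b u => gB n b (pre (f u) (gL n)) = true) fun b => ?_
  exact meas_of_pre_fun (g := f) hf (gL n) (P := fun b' _ => gB n b b' = true)
    fun b' => MeasurableSet.const _

end Pool.Agent.SAX
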