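import Mathlib
import Pool.Agent.SAX.STB
import Pool.Agent.SAX.MCT

/-!
STS. The stages of the statistics.
-/

set_option autoImplicit false

namespace Pool.Agent.SAX

open MeasureTheory Encodable Pool.Agent.H19 Pool.Agent.AEI Pool.Agent.RJ
open Nat.Partrec (Code)
open Filter Topology

/-- The question as a function of an initial segment of `XX ν u`. -/
def sD (r : Code) (a : ℕ) (ζ : List Bool) : Bool :=
  gB a.unpair.1 ((evs ζ).take (gL a.unpair.1)) (wap r (gL a.unpair.1) (ζ.take a.unpair.2))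

/-- The length needed. -/
def sL (a : ℕ) : ℕ := 2 * gL a.unpair.1 + a.unpair.2

theorem comp_sD (r : Code) : Computable₂ (sD r) := by
  have hn : Computable fun x : ℕ × List Bool => x.1.unpair.1 :=
    Computable.fst.comp (Computable.unpair.comp Computable.fst)
  have hs : Computable fun x : ℕ × List Bool => x.1.unpair.2 :=
    Computable.snd.comp (Computable.unpair.comp Computable.fst)
  have hg : Computable fun x : ℕ × List Bool => gL x.1.unpair.1 := comp_gL.comp hn
  refine comp_gB hn (comp_take hg (comp_evs Computable.snd)) ?_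
  unfold wap
  refine comp_list_map (f := fun x : ℕ × List Bool => List.range (gL x.1.unpair.1))
    (g := fun x m => cvg r m (x.2.take x.1.unpair.2)) (comp_range hg) ?_
  exact comp_cvg (Computable.const r) Computable.snd
    (comp_take (hs.comp Computable.fst) (Computable.snd.comp Computable.fst))

theorem comp_sL : Computable sL := by
  have h1 : Computable fun a : ℕ => gL a.unpair.1 :=
    comp_gL.comp (Computable.fst.comp Computable.unpair)
  have h2 : Computable fun a : ℕ => a.unpair.2 := Computable.snd.comp Computable.unpair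
  exact (Primrec.nat_add.to_comp).comp (comp_two_mul.comp h1) h2

theorem evs_XX (ν : ℕ → ℝ) (u : ℕ → Bool) (s : ℕ) : evs (pre (XX ν u) s) = pre u (s / 2) := by
  rw [evs_pre]
  unfold XX
  rw [evn_jn]

theorem sD_XX (r : Code) (n s : ℕ) (ν : ℕ → ℝ) (u : ℕ → Bool) :
    sD r (Nat.pair n s) (pre (XX ν u) (sL (Nat.pair n s))) =
      gB n (pre u (gL n)) (wap r (gL n) (pre (XX ν u) s)) := by
  unfold sD sL
  rw [Nat.unpair_pair]
  dsimp only
  rw [evs_XX, pre_take u (by omega), pre_take (XX ν u) (by omega)]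

theorem Sst_eq (r : Code) (n s : ℕ) (ν : ℕ → ℝ) : Sst r n s ν =
    coin.real {u | sD r (Nat.pair n s) (pre (XX ν u) (sL (Nat.pair n s))) = true} := by
  unfold Sst
  simp only [sD_XX]

theorem continuous_Sst (r : Code) (n s : ℕ) : Continuous (Sst r n s) := by
  have h := continuous_meas (sD r (Nat.pair n s)) (sL (Nat.pair n s))
  have h2 : Sst r n s = fun ν : ℕ → ℝ =>
      coin.real {u | sD r (Nat.pair n s) (pre (XX ν u) (sL (Nat.pair n s))) = true} := by
    funext ν
    exact Sst_eq r n s ν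
  rw [h2]
  exact h

theorem Sst_nonneg (r : Code) (n s : ℕ) (ν : ℕ → ℝ) : 0 ≤ Sst r n s ν := measureReal_nonneg

theorem Sst_le_one (r : Code) (n s : ℕ) (ν : ℕ → ℝ) : Sst r n s ν ≤ 1 := measureReal_le_one

theorem wap_getD (r : Code) (l : ℕ) (ξ : List Bool) (m : ℕ) :
    (wap r l ξ).getD m false = true ↔ m < l ∧ cvg r m ξ = true := by
  unfold wap
  by_cases hm : m < l
  · simp [List.getD, hm]
  · simp [List.getD, hm]

theorem wap_mono {r : Code} {l : ℕ} {ξ ξ' : List Bool} (h : ξ <+: ξ') (m : ℕ)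
    (hm : (wap r l ξ).getD m false = true) : (wap r l ξ').getD m false = true := by
  rw [wap_getD] at hm ⊢
  exact ⟨hm.1, cvg_mono h hm.2⟩

/-- The event of the stage `s`. -/
def Sev (r : Code) (n : ℕ) (ν : ℕ → ℝ) (s : ℕ) : Set (ℕ → Bool) :=
  {u | gB n (pre u (gL n)) (wap r (gL n) (pre (XX ν u) s)) = true}

theorem Sev_mono (r : Code) (n : ℕ) (ν : ℕ → ℝ) : Monotone (Sev r n ν) := by
  intro s t hst u hu
  exact gB_mono (fun m hm => wap_mono (pre_mono _ hst) m hm) hu

theorem cvg_op {r : Code} {X : ℕ → Bool} {m s : ℕ} (h : cvg r m (pre X s) = true) :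
    op r X m = true := op_iff.2 (exists_cvg.2 ⟨s, h⟩)

theorem Sev_sub (r : Code) (n : ℕ) (ν : ℕ → ℝ) (s : ℕ) :
    Sev r n ν s ⊆ {u | gB n (pre u (gL n)) (pre (ff r ν u) (gL n)) = true} := by
  intro u hu
  refine gB_mono (fun m hm => ?_) hu
  rw [wap_getD] at hm
  rw [pre_getD _ hm.1]
  exact cvg_op hm.2

theorem Sst_mono (r : Code) (n s : ℕ) (ν : ℕ → ℝ) : Sst r n s ν ≤ Sst r n (s + 1) ν :=
  measureReal_mono (Sev_mono r n ν (Nat.le_succ s)) (measure_ne_top _ _)

theorem Sst_le_stt (r : Code) (n s : ℕ) (ν : ℕ → ℝ) : Sst r n s ν ≤ stt (ff r ν) n :=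
  measureReal_mono (Sev_sub r n ν s) (measure_ne_top _ _)

theorem iUnion_Sev (r : Code) (n : ℕ) (ν : ℕ → ℝ) :
    ⋃ s, Sev r n ν s = {u | gB n (pre u (gL n)) (pre (ff r ν u) (gL n)) = true} := by
  refine Set.Subset.antisymm (Set.iUnion_subset fun s => Sev_sub r n ν s) fun u hu => ?_
  -- one stage for all `m < gL n`
  have h1 : ∀ l : ℕ, ∃ s, ∀ m < l, ff r ν u m = true → cvg r m (pre (XX ν u) s) = true := by
    intro l
    induction l with
    | zero => exact ⟨0, fun m hm => absurd hm (Nat.not_lt_zero m)⟩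
    | succ l ih =>
      obtain ⟨s, hs⟩ := ih
      by_cases hl : ff r ν u l = true
      · obtain ⟨t, ht⟩ := exists_cvg.1 (op_iff.1 hl)
        refine ⟨max s t, fun m hm hmt => ?_⟩
        rcases Nat.lt_succ_iff_lt_or_eq.1 hm with h | h
        · exact cvg_mono (pre_mono _ (le_max_left _ _)) (hs m h hmt)
        · rw [h]
          exact cvg_mono (pre_mono _ (le_max_right _ _)) ht
      · refine ⟨s, fun m hm hmt => ?_⟩
        rcases Nat.lt_succ_iff_lt_or_eq.1 hm with h | h
        · exact hs m h hmt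
        · rw [h] at hmt
          exact absurd hmt hl
  obtain ⟨s, hs⟩ := h1 (gL n)
  refine Set.mem_iUnion.2 ⟨s, gB_mono (fun m hm => ?_) hu⟩
  rw [wap_getD]
  by_cases hml : m < gL n
  · rw [pre_getD _ hml] at hm
    exact ⟨hml, hs m hml hm⟩
  · rw [List.getD_eq_default _ _ (by rw [pre_length]; omega)] at hm
    exact absurd hm (by simp)

theorem tendsto_Sst (r : Code) (n : ℕ) (ν : ℕ → ℝ) :
    Tendsto (fun s => Sst r n s ν) atTop (𝓝 (stt (ff r ν) n)) := by
  have h := tendsto_measure_iUnion_atTop (μ := coin) (Sev_mono r n ν)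
  rw [iUnion_Sev] at h
  exact (ENNReal.tendsto_toReal (measure_ne_top _ _)).comp h

end Pool.Agent.SAX
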