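import Mathlib
import Pool.Agent.SAX.STS
import Pool.Agent.SAX.DKM
import Pool.Agent.SAX.APN
import Pool.Agent.SAX.NVL
import Pool.Agent.SAX.DECG

/-!
DEC. Decoding: `V` computes the true facts.
-/

set_option autoImplicit false

namespace Pool.Agent.SAX

open MeasureTheory Encodable Pool.Agent.H19 Pool.Agent.AEI Pool.Agent.RJ
open Nat.Partrec (Code)
open Filter Topology

private theorem dec_round {x : ℝ} {t p : ℕ} (h : |(t : ℝ) / 2 ^ (p + 2) - x| ≤ 2 / 2 ^ (p + 2)) :
    |x - (((t + 2) / 4 : ℕ) : ℝ) / 2 ^ p| ≤ 1 / 2 ^ p := by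
  set y := (t + 2) / 4 with hy
  have h1 : 4 * y ≤ t + 2 := by omega
  have h2 : t ≤ 4 * y + 2 := by omega
  have h1' : (4 : ℝ) * y ≤ t + 2 := by exact_mod_cast h1
  have h2' : (t : ℝ) ≤ 4 * y + 2 := by exact_mod_cast h2
  have hP : (0 : ℝ) < 2 ^ p := by positivity
  have hP2 : (2 : ℝ) ^ (p + 2) = 4 * 2 ^ p := by rw [pow_add]; ring
  rw [hP2] at h
  have h3 := abs_le.1 h
  have e1 : (t : ℝ) / (4 * 2 ^ p) = (t / 4) / 2 ^ p := by field_simp
  have e2 : (2 : ℝ) / (4 * 2 ^ p) = (1 / 2) / 2 ^ p := by field_simp; norm_num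
  rw [e1, e2] at h3
  have h4 : (y : ℝ) / 2 ^ p ≤ (t / 4 + 1 / 2) / 2 ^ p :=
    div_le_div_of_nonneg_right (by linarith) hP.le
  have h5 : ((t : ℝ) / 4 - 1 / 2) / 2 ^ p ≤ y / 2 ^ p :=
    div_le_div_of_nonneg_right (by linarith) hP.le
  rw [add_div] at h4
  rw [sub_div] at h5
  have e3 : (1 : ℝ) / 2 ^ p = (1 / 2) / 2 ^ p + (1 / 2) / 2 ^ p := by ring
  rw [abs_le, e3]
  constructor <;> linarith [h3.1, h3.2]

theorem dec {r : Code} {ν : ℕ → ℝ} (hν : ∀ j, 0 ≤ ν j ∧ ν j ≤ 1) (hF : FP r ν)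
    (h3 : ∀ k, ∃ n, 16 / 1024 < |stt (ff r ν) n - ν (Nat.pair k n)|)
    {V Y : ℕ → Bool} (hY : IsName ν Y) (hYV : TuringReducible (chi Y) (chi V)) {t : ℕ → ℕ}
    (ht : TotRec V t) (ha : ∀ n, |(t n : ℝ) / 1024 - stt (ff r ν) n| ≤ 4 / 1024) :
    TuringReducible (chi (KK ν)) (chi V) := by
  obtain ⟨q, hq, hq'⟩ := name_val hν hY
  obtain ⟨x, hx, hx'⟩ := apn (fun j => (hν j).1) hY (comp_sD r) comp_sL
  obtain ⟨y, hy, hy'⟩ := apn (fun j => (hν j).1) hY comp_jD comp_jL
  have hround : Computable fun m : ℕ => (m + 2) / 4 :=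
    comp_div (comp_add' Computable.id (Computable.const 2)) (Computable.const 4)
  have hk : Computable fun p : ℕ => p.unpair.1 := Computable.fst.comp Computable.unpair
  have hw : Computable fun p : ℕ => p.unpair.2 := Computable.snd.comp Computable.unpair
  have hr : TotRec V fun a => (x (Nat.pair a 12) + 2) / 4 := by
    have h1 : TotRec V fun a => x (Nat.pair a 12) :=
      (totRec_mono hx hYV).comp (TotRec.of_computable (comp_natpair Computable.id
        (Computable.const 12)))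
    exact TotRec.comp_computable hround h1
  have hb : TotRec V fun w => (y (Nat.pair (Nat.pair w.unpair.1 w.unpair.2.unpair.1)
      (w.unpair.2.unpair.2 + 2)) + 2) / 4 := by
    have h1 : TotRec V fun w => y (Nat.pair (Nat.pair w.unpair.1 w.unpair.2.unpair.1)
        (w.unpair.2.unpair.2 + 2)) :=
      (totRec_mono hy hYV).comp (TotRec.of_computable (comp_natpair
        (comp_natpair hk (hk.comp hw)) (comp_add' (hw.comp hw) (Computable.const 2))))
    exact TotRec.comp_computable hround h1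
  refine decode_stat (Sinf := fun n => stt (ff r ν) n) (nu := ν) (d := fun k => dk k ν)
    (S := fun n s => Sst r n s ν) (a := fun k s => aJ k.unpair.1 k.unpair.2 s ν)
    ht (fun n => ?_) (totRec_mono hq hYV) (fun j => ?_) hr (fun n s => ?_) hb (fun k s p => ?_)
    (fun n ε hε => ?_) h3 (fun k hk n s hs => ?_) (fun k => ?_) (fun k s hs h => ?_)
    fun k s hks => ?_
  · rw [abs_sub_comm]
    exact ha n
  · rw [abs_sub_comm]
    exact hq' j
  · have h1 := hx' (Nat.pair n s) 12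
    rw [← Sst_eq] at h1
    have h2 := dec_round (p := 10) h1
    have e : (1024 : ℝ) * Sst r n s ν - (((x (Nat.pair (Nat.pair n s) 12) + 2) / 4 : ℕ) : ℝ) =
        1024 * (Sst r n s ν - (((x (Nat.pair (Nat.pair n s) 12) + 2) / 4 : ℕ) : ℝ) / 2 ^ 10) := by
      norm_num
      ring
    show |(1024 : ℝ) * Sst r n s ν - (((x (Nat.pair (Nat.pair n s) 12) + 2) / 4 : ℕ) : ℝ)| ≤ 1
    rw [e, abs_mul, abs_of_pos (by norm_num : (0 : ℝ) < 1024)]
    have h3 : (1024 : ℝ) * (1 / 2 ^ 10) = 1 := by norm_num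
    rw [← h3]
    exact mul_le_mul_of_nonneg_left h2 (by norm_num)
  · have h1 := hy' (Nat.pair k s) (p + 2)
    have h2 : coin.real {u | jD (Nat.pair k s) (pre (XX ν u) (jL (Nat.pair k s))) = true} =
        aJ k.unpair.1 k.unpair.2 s ν := by
      rw [aJ_eq, Nat.pair_unpair]
    rw [h2] at h1
    simp only [Nat.unpair_pair]
    exact dec_round h1
  · have h1 := (tendsto_Sst r n ν).eventually (lt_mem_nhds (show stt (ff r ν) n - ε <
      stt (ff r ν) n by linarith))
    obtain ⟨s, hs1, hs2⟩ := (h1.and (eventually_ge_atTop 1)).exists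
    exact ⟨s, hs2, hs1⟩
  · exact ⟨(hF k hk n).1 s hs, (hF k hk n).2⟩
  · simp [KK]
  · exact dk_large hs h
  · by_contra hc
    have h1 := (dk_pos_iff k ν).2 ⟨s, not_le.1 hc⟩
    have h2 : KK ν k = true := by simp [KK, h1]
    rw [hks] at h2
    exact absurd h2 (by simp)

end Pool.Agent.SAX
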