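import Mathlib
import Pool.Agent.BRW.BFIX

/-!
A fixed point with stopping times: abstract form (Brouwer and compactness), and the
interpolation of increasing sequences.
-/

set_option autoImplicit false

open Set Filter Topology Metric

namespace Pool.Agent.SAX

/-- The cube. -/
def cube : Set (ℕ → ℝ) := {v | ∀ i, v i ∈ Icc (0 : ℝ) 1}

theorem isCompact_cube : IsCompact cube := by
  have h : cube = Set.pi univ (fun _ : ℕ => Icc (0 : ℝ) 1) := by
    ext v
    simp only [cube, Set.mem_setOf_eq, Set.mem_pi, Set.mem_univ, forall_true_left]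
  rw [h]
  exact isCompact_univ_pi fun _ => isCompact_Icc

/-- Extension by zero of a vector. -/
def ext0 {M : ℕ} (x : EuclideanSpace ℝ (Fin M)) : ℕ → ℝ := fun i =>
  if h : i < M then x ⟨i, h⟩ else 0

theorem continuous_ext0 {M : ℕ} : Continuous (ext0 : EuclideanSpace ℝ (Fin M) → ℕ → ℝ) := by
  refine continuous_pi fun i => ?_
  unfold ext0
  by_cases h : i < M
  · simp only [h, dif_pos]
    fun_prop
  · simp only [h, dif_neg, not_false_iff]
    exact continuous_const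

/-- Brouwer's theorem for maps to a cube. -/
theorem brouwer_cube {M : ℕ} {G : (ℕ → ℝ) → ℕ → ℝ} (hG : ∀ i < M, Continuous fun v => G v i)
    (hG1 : ∀ v i, G v i ∈ Icc (0 : ℝ) 1) :
    ∃ v ∈ cube, ∀ i < M, v i = G v i := by
  classical
  let f : EuclideanSpace ℝ (Fin M) → EuclideanSpace ℝ (Fin M) := fun x =>
    WithLp.toLp 2 fun i => G (ext0 x) i
  have hf : Continuous f := by
    refine (PiLp.continuous_toLp 2 _).comp ?_
    refine continuous_pi fun i => ?_
    exact (hG i i.2).comp continuous_ext0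
  have hm : MapsTo f (closedBall 0 (M : ℝ)) (closedBall 0 (M : ℝ)) := by
    intro x _
    rw [mem_closedBall_zero_iff, EuclideanSpace.norm_eq]
    refine Real.sqrt_le_iff.2 ⟨Nat.cast_nonneg _, ?_⟩
    calc ∑ i : Fin M, ‖f x i‖ ^ 2 ≤ ∑ _i : Fin M, (1 : ℝ) := by
          refine Finset.sum_le_sum fun i _ => ?_
          have h1 : f x i = G (ext0 x) i := rfl
          have h2 := hG1 (ext0 x) i
          rw [h1, Real.norm_eq_abs, abs_of_nonneg h2.1]
          exact pow_le_one₀ h2.1 h2.2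
      _ = (M : ℝ) := by simp
      _ ≤ (M : ℝ) ^ 2 := by
          rcases Nat.eq_zero_or_pos M with h | h
          · simp [h]
          · have : (1 : ℝ) ≤ M := by exact_mod_cast h
            nlinarith
  obtain ⟨x, _, hx⟩ := BRW.brouwer (Nat.cast_nonneg M) hf.continuousOn hm
  have hxi : ∀ i (h : i < M), ext0 x i = G (ext0 x) i := by
    intro i h
    have h1 : ext0 x i = x ⟨i, h⟩ := by simp [ext0, h]
    rw [h1]
    have h2 : f x ⟨i, h⟩ = x ⟨i, h⟩ := by rw [hx]
    rw [← h2]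
  refine ⟨ext0 x, fun i => ?_, fun i h => hxi i h⟩
  by_cases h : i < M
  · rw [hxi i h]
    exact hG1 _ _
  · simp [ext0, h]

/-- The fixed point with stopping times. -/
theorem exists_fix {d : ℕ → (ℕ → ℝ) → ℝ} {F : ℕ → ℝ → (ℕ → ℝ) → ℝ}
    (hd : ∀ k, Continuous (d k))
    (hF : ∀ (n : ℕ) (e : ℝ) (v : ℕ → ℝ), 0 < e →
      ContinuousAt (fun p : ℝ × (ℕ → ℝ) => F n p.1 p.2) (e, v))
    (hF1 : ∀ (n : ℕ) (e : ℝ) (v : ℕ → ℝ), 0 < e → F n e v ∈ Icc (0 : ℝ) 1) :
    ∃ v ∈ cube, ∀ k n : ℕ, 0 < d k v → v (Nat.pair k n) = F n (d k v) v := by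
  have hstep : ∀ M : ℕ, ∃ v ∈ cube, ∀ i < M,
      v i = F i.unpair.2 (max (d i.unpair.1 v) (1 / ((M : ℝ) + 1))) v := by
    intro M
    have hM : (0 : ℝ) < 1 / ((M : ℝ) + 1) := by positivity
    refine brouwer_cube (G := fun v i =>
      F i.unpair.2 (max (d i.unpair.1 v) (1 / ((M : ℝ) + 1))) v) (fun i _ => ?_) (fun v i => ?_)
    · refine continuous_iff_continuousAt.2 fun v => ?_
      have h1 : 0 < max (d i.unpair.1 v) (1 / ((M : ℝ) + 1)) := lt_max_of_lt_right hM
      have h2 : ContinuousAt (fun v : ℕ → ℝ => ((max (d i.unpair.1 v) (1 / ((M : ℝ) + 1)), v) :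
          ℝ × (ℕ → ℝ))) v :=
        (((hd _).max continuous_const).prodMk continuous_id).continuousAt
      exact ContinuousAt.comp (f := fun v : ℕ → ℝ =>
        ((max (d i.unpair.1 v) (1 / ((M : ℝ) + 1)), v) : ℝ × (ℕ → ℝ)))
        (g := fun p : ℝ × (ℕ → ℝ) => F i.unpair.2 p.1 p.2) (hF _ _ _ h1) h2
    · exact hF1 _ _ _ (lt_max_of_lt_right hM)
  choose w hw hw2 using hstep
  obtain ⟨v, hv, φ, hφ, hlim⟩ := isCompact_cube.tendsto_subseq hw
  refine ⟨v, hv, fun k n hk => ?_⟩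
  have hφt : Tendsto φ atTop atTop := hφ.tendsto_atTop
  have hdl : Tendsto (fun j => d k (w (φ j))) atTop (𝓝 (d k v)) := ((hd k).tendsto v).comp hlim
  have hMl : Tendsto (fun j => 1 / (((φ j : ℕ) : ℝ) + 1)) atTop (𝓝 0) :=
    tendsto_one_div_add_atTop_nhds_zero_nat.comp hφt
  have hmax : Tendsto (fun j => max (d k (w (φ j))) (1 / (((φ j : ℕ) : ℝ) + 1))) atTop
      (𝓝 (d k v)) := by
    have := hdl.max hMl
    rwa [max_eq_left hk.le] at this
  have hFl : Tendsto (fun j => F n (max (d k (w (φ j))) (1 / (((φ j : ℕ) : ℝ) + 1))) (w (φ j)))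
      atTop (𝓝 (F n (d k v) v)) := by
    have h1 : Tendsto (fun j => ((max (d k (w (φ j))) (1 / (((φ j : ℕ) : ℝ) + 1)), w (φ j)) :
        ℝ × (ℕ → ℝ))) atTop (𝓝 (d k v, v)) := by
      rw [nhds_prod_eq]
      exact hmax.prodMk hlim
    exact (hF n (d k v) v hk).tendsto.comp h1
  have hvl : Tendsto (fun j => w (φ j) (Nat.pair k n)) atTop (𝓝 (v (Nat.pair k n))) :=
    ((continuous_apply (Nat.pair k n)).tendsto v).comp hlim
  refine tendsto_nhds_unique hvl (hFl.congr' ?_)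
  filter_upwards [hφt.eventually_gt_atTop (Nat.pair k n)] with j hj
  have := hw2 (φ j) (Nat.pair k n) hj
  rw [this, Nat.unpair_pair]

/-! ### Interpolation -/

/-- The cutoff function. -/
noncomputable def clamp (t : ℝ) : ℝ := max 0 (min 1 t)

theorem continuous_clamp : Continuous clamp :=
  continuous_const.max (continuous_const.min continuous_id)

theorem clamp_nonneg (t : ℝ) : 0 ≤ clamp t := le_max_left _ _

theorem clamp_le_one (t : ℝ) : clamp t ≤ 1 := max_le zero_le_one (min_le_left _ _)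

theorem clamp_of_le {t : ℝ} (h : t ≤ 0) : clamp t = 0 :=
  max_eq_left (le_trans (min_le_right _ _) h)

theorem clamp_of_ge {t : ℝ} (h : 1 ≤ t) : clamp t = 1 := by
  rw [clamp, min_eq_left h]
  exact max_eq_right zero_le_one

/-- The interpolation of the sequence `S` at the time `1 / e`. -/
noncomputable def interp (S : ℕ → (ℕ → ℝ) → ℝ) (e : ℝ) (v : ℕ → ℝ) : ℝ :=
  S 0 v + ∑ s ∈ Finset.range ⌈1 / e⌉₊, clamp (1 / e - s) * (S (s + 1) v - S s v)

variable {S : ℕ → (ℕ → ℝ) → ℝ}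

/-- More terms do not matter. -/
theorem interp_eq {e : ℝ} {v : ℕ → ℝ} {N : ℕ} (h : 1 / e ≤ N) :
    interp S e v = S 0 v + ∑ s ∈ Finset.range N, clamp (1 / e - s) * (S (s + 1) v - S s v) := by
  rw [interp]
  congr 1
  refine Finset.sum_subset (Finset.range_subset_range.2 (Nat.ceil_le.2 h)) fun s _ hs => ?_
  have h1 : 1 / e ≤ s := by
    have : ⌈1 / e⌉₊ ≤ s := by simpa using hs
    exact Nat.ceil_le.1 this
  rw [clamp_of_le (by linarith), zero_mul]

theorem interp_continuousAt (hS : ∀ s, Continuous (S s)) {e : ℝ} (he : 0 < e) (v : ℕ → ℝ) :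
    ContinuousAt (fun p : ℝ × (ℕ → ℝ) => interp S p.1 p.2) (e, v) := by
  obtain ⟨N, hN⟩ := exists_nat_gt (1 / e)
  have hc : ContinuousAt (fun p : ℝ × (ℕ → ℝ) => 1 / p.1) (e, v) :=
    continuousAt_const.div continuousAt_fst he.ne'
  have hev : ∀ᶠ p : ℝ × (ℕ → ℝ) in 𝓝 (e, v), 1 / p.1 < N := hc.eventually (gt_mem_nhds hN)
  have h1 : (fun p : ℝ × (ℕ → ℝ) => interp S p.1 p.2) =ᶠ[𝓝 (e, v)] fun p =>
      S 0 p.2 + ∑ s ∈ Finset.range N, clamp (1 / p.1 - s) * (S (s + 1) p.2 - S s p.2) := by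
    filter_upwards [hev] with p hp
    exact interp_eq hp.le
  refine ContinuousAt.congr ?_ h1.symm
  refine ContinuousAt.add ((hS 0).continuousAt.comp continuousAt_snd) ?_
  refine tendsto_finsetSum _ fun s _ => ?_
  refine ContinuousAt.mul ?_ ?_
  · exact continuous_clamp.continuousAt.comp (hc.sub continuousAt_const)
  · exact ((hS (s + 1)).continuousAt.comp continuousAt_snd).sub
      ((hS s).continuousAt.comp continuousAt_snd)

theorem sum_diff_eq (v : ℕ → ℝ) (N : ℕ) :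
    S 0 v + ∑ s ∈ Finset.range N, (S (s + 1) v - S s v) = S N v := by
  rw [Finset.sum_range_sub (fun s => S s v)]
  ring

theorem interp_le (hm : ∀ s v, S s v ≤ S (s + 1) v) {e : ℝ} {v : ℕ → ℝ} :
    interp S e v ≤ S ⌈1 / e⌉₊ v := by
  rw [interp, ← sum_diff_eq (S := S) v ⌈1 / e⌉₊]
  gcongr with s _
  have h1 := hm s v
  nlinarith [clamp_le_one (1 / e - s), clamp_nonneg (1 / e - s)]

theorem le_interp (hm : ∀ s v, S s v ≤ S (s + 1) v) {e : ℝ} {v : ℕ → ℝ} {N : ℕ}
    (he : 0 < e) (h : N * e ≤ 1) : S N v ≤ interp S e v := by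
  have hN : (N : ℝ) ≤ 1 / e := by rwa [le_div_iff₀ he]
  have hNc : N ≤ ⌈1 / e⌉₊ := by exact_mod_cast hN.trans (Nat.le_ceil _)
  rw [interp, ← sum_diff_eq (S := S) v N]
  gcongr 1
  calc ∑ s ∈ Finset.range N, (S (s + 1) v - S s v)
      = ∑ s ∈ Finset.range N, clamp (1 / e - s) * (S (s + 1) v - S s v) := by
        refine Finset.sum_congr rfl fun s hs => ?_
        have hs' : s + 1 ≤ N := Finset.mem_range.1 hs
        have h2 : ((s : ℝ) + 1) ≤ N := by exact_mod_cast hs'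
        rw [clamp_of_ge (by linarith), one_mul]
    _ ≤ _ := by
        refine Finset.sum_le_sum_of_subset_of_nonneg (Finset.range_subset_range.2 hNc) ?_
        intro s _ _
        exact mul_nonneg (clamp_nonneg _) (sub_nonneg.2 (hm s v))

theorem interp_mem (hm : ∀ s v, S s v ≤ S (s + 1) v) (h1 : ∀ s v, S s v ∈ Icc (0 : ℝ) 1)
    {e : ℝ} (v : ℕ → ℝ) (he : 0 < e) : interp S e v ∈ Icc (0 : ℝ) 1 := by
  refine ⟨?_, (interp_le hm).trans (h1 _ _).2⟩
  have := le_interp hm (v := v) (N := 0) he (by simp)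
  exact (h1 0 v).1.trans this

end Pool.Agent.SAX
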