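import Mathlib
import Pool.Agent.SAX.FIXP

/-!
FIX (200 lines). The fixed point. PROOF. wgt δ s = max 0 (min 1 (δ⁻¹ - s)). AS M n δ ν = S n 0 ν + sum_(s < M) wgt δ s * (S n (s+1) ν - S n s ν): values in [S n 0 ν, S n M ν], in [0,1].
ext x (M) = the extension of x : Fin M -> ℝ by 0 to ℕ -> ℝ (continuous). fixM: brouwer_cube for x ↦ (i ↦ AS M (i.unpair.2) (max (d (i.unpair.1) (ext x)) (1/(M+1))) (ext x)): gives ν_M in [0,1]^ω with
ν_M j = AS M j.unpair.2 (max (d j.unpair.1 ν_M) (1/(M+1))) ν_M for j < M. (continuity: the inverse of a positive continuous function.)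
Compactness: the product of the [0,1] is compact (isCompact_univ_pi), ℕ -> ℝ is first countable: IsCompact.tendsto_subseq: ν_(φ M) -> ν. If d k ν > 0: let M0 with 1 < M0 * d k ν.
For large M: 1/(φ M + 1) <= 1/M0 < d k ν_(φ M), M0 <= φ M, pair k n < φ M; so max = d k ν_(φ M), the weights with s >= M0 vanish: ν_(φ M)(pair k n) = AS M0 n (d k ν_(φ M)) ν_(φ M). Limit:
ν (pair k n) = AS M0 n (d k ν) ν. Upper bound: <= S n M0 ν. Lower bound: if s * d k ν <= 1 then s <= (d k ν)⁻¹ < M0 and the weights of the t < s are 1, so AS >= S n s ν.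
-/

set_option autoImplicit false

namespace Pool.Agent.SAX

open Filter Topology

theorem exists_fix_stage {S : ℕ → ℕ → (ℕ → ℝ) → ℝ} (hS : ∀ n s, Continuous (S n s))
    (h0 : ∀ n s ν, 0 ≤ S n s ν) (h1 : ∀ n s ν, S n s ν ≤ 1)
    (hm : ∀ n s ν, S n s ν ≤ S n (s + 1) ν) {d : ℕ → (ℕ → ℝ) → ℝ} (hd : ∀ k, Continuous (d k)) :
    ∃ ν : ℕ → ℝ, (∀ j, 0 ≤ ν j ∧ ν j ≤ 1) ∧ ∀ k, 0 < d k ν → ∀ n,
      (∀ s : ℕ, (s : ℝ) * d k ν ≤ 1 → S n s ν ≤ ν (Nat.pair k n)) ∧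
        ∃ s, ν (Nat.pair k n) ≤ S n s ν := by
  obtain ⟨ν, hν, h⟩ := exists_fix (d := d) (F := fun n e v => interp (S n) e v) hd
    (fun n e v he => interp_continuousAt (hS n) he v)
    (fun n e v he => interp_mem (fun s v => hm n s v) (fun s v => ⟨h0 n s v, h1 n s v⟩) v he)
  refine ⟨ν, fun j => hν j, fun k hk n => ⟨fun s hs => ?_, ⌈1 / d k ν⌉₊, ?_⟩⟩
  · rw [h k n hk]
    exact le_interp (fun s v => hm n s v) hk hs
  · rw [h k n hk]
    exact interp_le fun s v => hm n s v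

end Pool.Agent.SAX
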