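import Mathlib
import Pool.Agent.AEI.JMP
import Pool.Agent.RJ.MEA
import Pool.Agent.RJ.CUT

/-!
The end of the argument (section 5): if for every `e` we can find a stage after which `e` enters
the jump of `g u` with probability at most `2 ^ (-e)`, then the jump of `g u` is computed from
`g u` for almost every `u`.
-/

set_option autoImplicit false

namespace Pool.Agent.SAX

open MeasureTheory Encodable Filter Pool.Agent.H19 Pool.Agent.AEI Pool.Agent.RJ
open scoped ENNReal Topology

/-- The set of the `u` such that `e` enters the jump of `g u` after the stage `n`. -/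
def LateG (g : (ℕ → Bool) → (ℕ → Bool)) (e n : ℕ) : Set (ℕ → Bool) :=
  {u | JJ (g u) e = true ∧ jap e (pre (g u) n) = false}

open Classical in
/-- The set of the `⟨e, n⟩` such that the probability that `e` enters the jump of `g u` after the
stage `n` is more than `2 ^ (-e)`. -/
noncomputable def KKg (g : (ℕ → Bool) → (ℕ → Bool)) : ℕ → Bool := fun k =>
  decide ((1 / 2 : ℝ) ^ k.unpair.1 < coin.real (LateG g k.unpair.1 k.unpair.2))

theorem KKg_iff {g : (ℕ → Bool) → (ℕ → Bool)} {k : ℕ} : KKg g k = true ↔
    (1 / 2 : ℝ) ^ k.unpair.1 < coin.real (LateG g k.unpair.1 k.unpair.2) := by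
  simp [KKg]

theorem meas_lateG {g : (ℕ → Bool) → (ℕ → Bool)} (hg : Measurable g) (e n : ℕ) :
    MeasurableSet (LateG g e n) := by
  have h1 : LateG g e n = (⋃ s, g ⁻¹' {X | jap e (pre X s) = true}) ∩
      (g ⁻¹' {X | jap e (pre X n) = true})ᶜ := by
    ext u
    simp only [LateG, JJ_iff, Set.mem_ofPred_eq, Set.mem_inter_iff, Set.mem_iUnion,
      Set.mem_preimage, Set.mem_compl_iff, Bool.not_eq_true]
  rw [h1]
  exact (MeasurableSet.iUnion fun s => hg (measurableSet_pre (jap e) s)).inter
    (hg (measurableSet_pre (jap e) n)).compl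

/-- The probability of a late entrance tends to zero. -/
theorem exists_lateG {g : (ℕ → Bool) → (ℕ → Bool)} (hg : Measurable g) (e : ℕ) :
    ∃ n, KKg g (Nat.pair e n) = false := by
  have hanti : Antitone fun n => LateG g e n := by
    intro m n hmn u hu
    refine ⟨hu.1, ?_⟩
    by_contra hc
    rw [Bool.not_eq_false] at hc
    have := jap_mono (pre_mono (g u) hmn) hc
    rw [hu.2] at this
    exact absurd this (by simp)
  have hempty : ⋂ n, LateG g e n = ∅ := by
    ext u
    simp only [Set.mem_iInter, Set.mem_empty_iff_false, iff_false, not_forall]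
    by_cases hu : JJ (g u) e = true
    · obtain ⟨s, hs⟩ := JJ_iff.1 hu
      refine ⟨s, fun h => ?_⟩
      have := h.2
      rw [hs] at this
      exact absurd this (by simp)
    · exact ⟨0, fun h => hu h.1⟩
  have hlim : Tendsto (fun n => coin (LateG g e n)) atTop (𝓝 (coin (⋂ n, LateG g e n))) :=
    tendsto_measure_iInter_atTop (fun n => (meas_lateG hg e n).nullMeasurableSet) hanti
      ⟨0, measure_ne_top _ _⟩
  rw [hempty, measure_empty] at hlim
  have hlim2 : Tendsto (fun n => coin.real (LateG g e n)) atTop (𝓝 0) := by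
    have h1 := (ENNReal.tendsto_toReal (ENNReal.zero_ne_top)).comp hlim
    have h2 : Tendsto (ENNReal.toReal ∘ fun n => coin (LateG g e n)) atTop (𝓝 0) := by
      simpa using h1
    exact h2
  obtain ⟨n, hn⟩ := (hlim2.eventually (gt_mem_nhds (show (0 : ℝ) < (1 / 2) ^ e by positivity))).exists
  refine ⟨n, ?_⟩
  rw [← Bool.not_eq_true, KKg_iff, Nat.unpair_pair, not_lt]
  exact hn.le

/-- The jump of `g u` is computed from `g u` and `KKg g`. -/
theorem jump_leG {g : (ℕ → Bool) → (ℕ → Bool)} (hg : Measurable g) :
    ∀ᵐ u ∂coin, TuringReducible (chi (JJ (g u))) (chi (jn (g u) (KKg g))) := by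
  -- the search for a stage
  obtain ⟨S, hS, hS0⟩ : ∃ S : ℕ → ℕ, TotRec (KKg g) S ∧ ∀ e, KKg g (Nat.pair e (S e)) = false := by
    obtain ⟨S, hS, h0⟩ := TotRec.find (Z := KKg g) (h := fun n => if KKg g n then 1 else 0)
      (TotRec.oracle _) fun a => by
        obtain ⟨n, hn⟩ := exists_lateG hg a
        exact ⟨n, by simp [hn]⟩
    refine ⟨S, hS, fun e => ?_⟩
    have := h0 e
    by_contra hc
    rw [Bool.not_eq_false] at hc
    simp [hc] at this
  -- almost every `u` is in finitely many exceptional sets
  have hBC : ∀ᵐ u ∂coin, ∀ᶠ e in atTop, u ∉ LateG g e (S e) := by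
    refine ae_eventually_notMem ?_
    have h1 : ∀ e, coin (LateG g e (S e)) ≤ ENNReal.ofReal ((1 / 2 : ℝ) ^ e) := by
      intro e
      have h2 := hS0 e
      rw [← Bool.not_eq_true, KKg_iff, Nat.unpair_pair, not_lt] at h2
      rw [← ENNReal.ofReal_toReal (measure_ne_top coin (LateG g e (S e)))]
      exact ENNReal.ofReal_le_ofReal h2
    refine ne_top_of_le_ne_top ?_ (ENNReal.tsum_le_tsum h1)
    rw [← ENNReal.ofReal_tsum_of_nonneg (fun n => by positivity)
      (summable_geometric_of_lt_one (by norm_num) (by norm_num))]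
    exact ENNReal.ofReal_ne_top
  filter_upwards [hBC] with u hu
  obtain ⟨E, hE⟩ := eventually_atTop.1 hu
  set Z := jn (g u) (KKg g) with hZ
  -- the stage from the join
  have hSZ : TotRec Z S := totRec_mono hS (right_le_jn _ _)
  have hpre : TotRec Z fun e => encode (pre (g u) (S e)) :=
    (totRec_mono (TotRec.pre (g u)) (left_le_jn (g u) (KKg g))).comp hSZ
  -- a table for the small `e`
  let tb : List ℕ := (List.range E).map fun e => if JJ (g u) e = true then 1 else 0
  let F : ℕ → ℕ → ℕ := fun e i => if decide (e < E) then tb.getD e 0 else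
    (if jap e ((decode (α := List Bool) i).getD []) then 1 else 0)
  have hF : Computable₂ F := by
    refine comp_ite (c := fun x : ℕ × ℕ => decide (x.1 < E))
      (comp_decLt Computable.fst (Computable.const E)) ?_ ?_
    · exact comp_getD_nat (H := fun _ : ℕ × ℕ => tb) (Computable.const tb) Computable.fst
    · refine comp_ite (c := fun x : ℕ × ℕ => jap x.1 ((decode (α := List Bool) x.2).getD [])) ?_
        (Computable.const 1) (Computable.const 0)
      exact comp_jap Computable.fst (Computable.option_getD (Computable.decode.comp Computable.snd)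
        (Computable.const []))
  have h1 := TotRec.comp_computable₂ hF (TotRec.of_computable Computable.id) hpre
  rw [← totRec_bool_iff]
  refine (h1 : Nat.RecursiveIn _ _).of_eq fun e => ?_
  simp only [id_eq, F, encodek, Option.getD_some]
  by_cases he : e < E
  · simp only [he, decide_true, if_true, tb]
    rw [List.getD_eq_getElem?_getD, List.getElem?_map, List.getElem?_range he]
    simp
  · simp only [he, decide_false, Bool.false_eq_true, if_false]
    have h2 : u ∉ LateG g e (S e) := hE e (not_lt.1 he)
    have h3 : jap e (pre (g u) (S e)) = JJ (g u) e := by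
      rw [Bool.eq_iff_iff]
      refine ⟨fun h => JJ_iff.2 ⟨_, h⟩, fun h => ?_⟩
      by_contra hc
      rw [Bool.not_eq_true] at hc
      exact h2 ⟨h, hc⟩
    rw [h3]

end Pool.Agent.SAX
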