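import Mathlib
import Pool.Agent.SAX.DKM
import Pool.Agent.SAX.NMB
import Pool.Agent.SAX.ENDG

/-!
JMP. For almost every `u` the jump of `XX ν u` is recursive in `XX ν u ⊕ KK ν`.
-/

set_option autoImplicit false

namespace Pool.Agent.SAX

open MeasureTheory Encodable Pool.Agent.H19 Pool.Agent.AEI Pool.Agent.RJ
open Nat.Partrec (Code)
open Filter Topology

theorem lateG_lt_iff (e n : ℕ) (ν : ℕ → ℝ) (c : ℝ) :
    c < coin.real (LateG (XX ν) e n) ↔ ∃ s, c < aJ e n s ν := by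
  let E : ℕ → Set (ℕ → Bool) := fun s =>
    {u | jap e (pre (XX ν u) s) = true ∧ jap e (pre (XX ν u) n) = false}
  have hE : Monotone E := by
    rintro s s' h u ⟨h1, h2⟩
    exact ⟨jap_mono (pre_mono _ h) h1, h2⟩
  have hU : ⋃ s, E s = LateG (XX ν) e n := by
    ext u
    simp only [E, LateG, Set.mem_iUnion, Set.mem_ofPred_eq, JJ_iff]
    exact ⟨fun ⟨s, h1, h2⟩ => ⟨⟨s, h1⟩, h2⟩, fun ⟨⟨s, h1⟩, h2⟩ => ⟨s, h1, h2⟩⟩
  have hlim : Tendsto (fun s => coin (E s)) atTop (𝓝 (coin (LateG (XX ν) e n))) := by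
    have h := tendsto_measure_iUnion_atTop (μ := coin) hE
    rwa [hU] at h
  have hlim2 : Tendsto (fun s => aJ e n s ν) atTop (𝓝 (coin.real (LateG (XX ν) e n))) :=
    (ENNReal.tendsto_toReal (measure_ne_top _ _)).comp hlim
  constructor
  · intro h
    exact (hlim2.eventually (lt_mem_nhds h)).exists
  · rintro ⟨s, hs⟩
    refine lt_of_lt_of_le hs (measureReal_mono ?_ (measure_ne_top _ _))
    rw [← hU]
    exact Set.subset_iUnion E s

theorem KKg_XX (ν : ℕ → ℝ) : KKg (XX ν) = KK ν := by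
  funext k
  rw [Bool.eq_iff_iff, KKg_iff, lateG_lt_iff, ← dk_pos_iff]
  simp [KK]

theorem jmp_ae (ν : ℕ → ℝ) :
    ∀ᵐ u ∂coin, TuringReducible (chi (JJ (XX ν u))) (chi (jn (XX ν u) (KK ν))) := by
  have h := jump_leG (measurable_XX ν)
  rwa [KKg_XX] at h

end Pool.Agent.SAX
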