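import Mathlib
import Pool.Agent.RJ.ZON
import Pool.Agent.RJ.CSK

/-!
For almost all `u` the sequence `u ⊕ f u` computes the statistics of `f` (generic form).
-/

set_option autoImplicit false

namespace Pool.Agent.SAX

open MeasureTheory Encodable Pool.Agent.H19 Pool.Agent.AEI Pool.Agent.RJ
open Nat.Partrec (Code)

/-- A finite table of labels for the reductions to `z ⊕ V`. -/
theorem exists_labelsG {f : (ℕ → Bool) → (ℕ → Bool)} (hf : Measurable f) {V : ℕ → Bool}
    (h : ∀ᵐ z ∂coin, TuringReducible (chi (f z)) (chi (jn z V))) {ε : ℝ} (hε : 0 < ε) :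
    ∃ (m : ℕ) (lab : List Bool → Code), Computable lab ∧
      coin.real {z | ¬ CodeComputes (lab (pre z m)) (jn z V) (f z)} ≤ ε := by
  classical
  let _ : MeasurableSpace Code := ⊤
  have _ : MeasurableSingletonClass Code := ⟨fun _ => trivial⟩
  have _ : Nonempty Code := ⟨Code.zero⟩
  have hV : Measurable fun z : ℕ → Bool => jn z V :=
    measurable_jn.comp (f := fun z : ℕ → Bool => (z, V)) (measurable_id.prodMk measurable_const)
  have hc : ∀ c : Code, MeasurableSet {z | CodeComputes c (jn z V) (f z)} :=
    fun c => meas_computes hV hf c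
  let Q : (ℕ → Bool) → ℕ → Prop := fun y n =>
    CodeComputes (Denumerable.ofNat Code n) (jn y V) (f y) ∨
      ∀ k, ¬ CodeComputes (Denumerable.ofNat Code k) (jn y V) (f y)
  have hQ : ∀ y, ∃ n, Q y n := by
    intro y
    by_cases hy : ∃ n, CodeComputes (Denumerable.ofNat Code n) (jn y V) (f y)
    · obtain ⟨n, hn⟩ := hy
      exact ⟨n, Or.inl hn⟩
    · exact ⟨0, Or.inr (fun k hk => hy ⟨k, hk⟩)⟩
  have hQm : ∀ n, MeasurableSet {y | Q y n} := by
    intro n
    have h1 : {y | Q y n} = {y | CodeComputes (Denumerable.ofNat Code n) (jn y V) (f y)} ∪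
        ⋂ k, {y | CodeComputes (Denumerable.ofNat Code k) (jn y V) (f y)}ᶜ := by
      ext y
      simp only [Q, Set.mem_ofPred_eq, Set.mem_union, Set.mem_iInter, Set.mem_compl_iff]
    rw [h1]
    exact (hc _).union (MeasurableSet.iInter fun k => (hc _).compl)
  have hl : Measurable fun y => Denumerable.ofNat Code (Nat.find (hQ y)) :=
    (measurable_from_nat (f := fun n => Denumerable.ofNat Code n)).comp (measurable_find hQ hQm)
  obtain ⟨m, g, _, hg⟩ := exists_pre_fun hl hε
  obtain ⟨lab, hcomp, hlab⟩ := exists_computable_table m (fun _ σ => g σ)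
  refine ⟨m, fun σ => lab 0 σ, hcomp.comp (Computable.const 0) Computable.id, ?_⟩
  have h0 : coin.real {y | ¬ TuringReducible (chi (f y)) (chi (jn y V))} = 0 := by
    rw [measureReal_def, ae_iff.1 h]
    rfl
  have hsub : {z | ¬ CodeComputes (lab 0 (pre z m)) (jn z V) (f z)} ⊆
      {y | g (pre y m) ≠ Denumerable.ofNat Code (Nat.find (hQ y))} ∪
        {y | ¬ TuringReducible (chi (f y)) (chi (jn y V))} := by
    intro y hy
    by_contra hcon
    simp only [Set.mem_union, Set.mem_ofPred_eq, not_or, not_not] at hcon
    refine hy ?_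
    rw [hlab 0 RR_pos _ (pre_length y m), hcon.1]
    rcases Nat.find_spec (hQ y) with h1 | h1
    · exact h1
    · obtain ⟨c, hcc⟩ := turingReducible_iff.1 hcon.2
      refine absurd hcc ?_
      have := h1 (encode c)
      rwa [Denumerable.ofNat_encode] at this
  calc coin.real {z | ¬ CodeComputes (lab 0 (pre z m)) (jn z V) (f z)}
      ≤ coin.real ({y | g (pre y m) ≠ Denumerable.ofNat Code (Nat.find (hQ y))} ∪
        {y | ¬ TuringReducible (chi (f y)) (chi (jn y V))}) := measureReal_mono hsub
    _ ≤ coin.real {y | g (pre y m) ≠ Denumerable.ofNat Code (Nat.find (hQ y))} +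
        coin.real {y | ¬ TuringReducible (chi (f y)) (chi (jn y V))} :=
          measureReal_union_le _ _
    _ ≤ ε := by
        rw [h0, add_zero]
        exact hg

/-- The output on `ζ`. -/
private def ww (m : ℕ) (lab : List Bool → Code) (β ζ : List Bool) : List Bool :=
  zf (lab (ζ.take m)) (jns ζ β)

private def okA (m : ℕ) (lab : List Bool → Code) (l : ℕ) (β ζ : List Bool) : Bool :=
  decide (l ≤ (ww m lab β ζ).length)

private def okB (m : ℕ) (lab : List Bool → Code) (D : ℕ → List Bool → List Bool → Bool)
    (n l : ℕ) (β ζ : List Bool) : Bool :=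
  okA m lab l β ζ && D n (ζ.take l) ((ww m lab β ζ).take l)

private def TT (m : ℕ) (lab : List Bool → Code) (l : ℕ) (β : List Bool) : ℕ :=
  if decide (m ≤ β.length) && (decide (l ≤ β.length) &&
    decide (1022 * (strs β.length).length ≤
      1024 * ((strs β.length).filter (okA m lab l β)).length)) then 0 else 1

private def VV (m : ℕ) (lab : List Bool → Code) (D : ℕ → List Bool → List Bool → Bool)
    (n l : ℕ) (β : List Bool) : ℕ :=
  1024 * ((strs β.length).filter (okB m lab D n l β)).length / (strs β.length).length

private theorem ww_pre (m : ℕ) (lab : List Bool → Code) (V z : ℕ → Bool) {N : ℕ} (h : m ≤ N) :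
    ww m lab (pre V N) (pre z N) = zf (lab (pre z m)) (pre (jn z V) (2 * N)) := by
  rw [ww, pre_take z h, jns_pre]

/-- From one sequence `V` with `f z ≤_T z ⊕ V` for almost all `z`. -/
theorem stats_of_red {f : (ℕ → Bool) → (ℕ → Bool)} (hf : Measurable f) {V : ℕ → Bool}
    (h : ∀ᵐ z ∂coin, TuringReducible (chi (f z)) (chi (jn z V)))
    {D : ℕ → List Bool → List Bool → Bool}
    (hD : Computable fun p : ℕ × (List Bool × List Bool) => D p.1 p.2.1 p.2.2) {L : ℕ → ℕ}
    (hL : Computable L) : ∃ t : ℕ → ℕ, TotRec V t ∧ ∀ n,
      |coin.real {z | D n (pre z (L n)) (pre (f z) (L n)) = true} - (t n : ℝ) / 1024| ≤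
        4 / 1024 := by
  obtain ⟨m, lab, hlab, hbad⟩ := exists_labelsG hf h (ε := 1 / 1024) (by norm_num)
  set Bad : Set (ℕ → Bool) := {z | ¬ CodeComputes (lab (pre z m)) (jn z V) (f z)} with hBad
  -- computability
  have hw : ∀ {γ : Type} [Primcodable γ] {b ζ : γ → List Bool}, Computable b → Computable ζ →
      Computable fun a => ww m lab (b a) (ζ a) := fun hb hζ =>
    comp_zf (hlab.comp (comp_take (Computable.const m) hζ)) (comp_jns hζ hb)
  have hA : ∀ {γ : Type} [Primcodable γ] {l : γ → ℕ} {b ζ : γ → List Bool}, Computable l →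
      Computable b → Computable ζ → Computable fun a => okA m lab (l a) (b a) (ζ a) :=
    fun hl hb hζ => comp_decLe hl (Computable.list_length.comp (hw hb hζ))
  have hB : ∀ {γ : Type} [Primcodable γ] {n l : γ → ℕ} {b ζ : γ → List Bool}, Computable n →
      Computable l → Computable b → Computable ζ →
      Computable fun a => okB m lab D (n a) (l a) (b a) (ζ a) :=
    fun hn hl hb hζ => comp_and (hA hl hb hζ)
      (hD.comp (hn.pair ((comp_take hl hζ).pair (comp_take hl (hw hb hζ)))))
  have hTT : Computable fun p : ℕ × List Bool => TT m lab (L p.1.unpair.1) p.2 := by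
    have hl : Computable fun p : ℕ × List Bool => L p.1.unpair.1 :=
      hL.comp (Computable.fst.comp (Computable.unpair.comp Computable.fst))
    have hlen : Computable fun p : ℕ × List Bool => p.2.length :=
      Computable.list_length.comp Computable.snd
    refine comp_ite (c := fun p : ℕ × List Bool => decide (m ≤ p.2.length) &&
      (decide (L p.1.unpair.1 ≤ p.2.length) && decide (1022 * (strs p.2.length).length ≤
        1024 * ((strs p.2.length).filter (okA m lab (L p.1.unpair.1) p.2)).length)))
      ?_ (Computable.const 0) (Computable.const 1)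
    refine comp_and (comp_decLe (Computable.const m) hlen) (comp_and (comp_decLe hl hlen) ?_)
    refine comp_decLe (comp_mul' (Computable.const 1022)
      (Computable.list_length.comp (comp_strs.comp hlen))) (comp_mul' (Computable.const 1024)
      (Computable.list_length.comp ?_))
    exact comp_list_filter (g := fun (p : ℕ × List Bool) (ζ : List Bool) =>
      okA m lab (L p.1.unpair.1) p.2 ζ) (comp_strs.comp hlen)
      (hA (hl.comp Computable.fst) (Computable.snd.comp Computable.fst) Computable.snd)
  have hVV : Computable fun p : ℕ × List Bool => VV m lab D p.1 (L p.1) p.2 := by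
    have hl : Computable fun p : ℕ × List Bool => L p.1 := hL.comp Computable.fst
    have hlen : Computable fun p : ℕ × List Bool => p.2.length :=
      Computable.list_length.comp Computable.snd
    refine comp_div (comp_mul' (Computable.const 1024) (Computable.list_length.comp ?_))
      (Computable.list_length.comp (comp_strs.comp hlen))
    exact comp_list_filter (g := fun (p : ℕ × List Bool) (ζ : List Bool) =>
      okB m lab D p.1 (L p.1) p.2 ζ) (comp_strs.comp hlen)
      (hB (Computable.fst.comp Computable.fst) (hl.comp Computable.fst)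
        (Computable.snd.comp Computable.fst) Computable.snd)
  -- counting
  have hcount : ∀ (p : List Bool → Bool) (N : ℕ), coin.real {X : ℕ → Bool | p (pre X N) = true} =
      (((strs N).filter p).length : ℝ) / 2 ^ N := by
    intro p N
    rw [CAD_real_count, inv_pow, div_eq_mul_inv]
  -- the search
  have hex : ∀ n, ∃ N, TT m lab (L n) (pre V N) = 0 := by
    intro n
    let A : ℕ → Set (ℕ → Bool) := fun k =>
      {z | L n ≤ (zf (lab (pre z m)) (pre (jn z V) (2 * k))).length}
    have hAm : Monotone A := by
      intro k k' hkk z hz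
      have hz' : L n ≤ (zf (lab (pre z m)) (pre (jn z V) (2 * k))).length := hz
      exact hz'.trans (zf_pre_mono _ _ (by omega)).length_le
    have hun : Badᶜ ⊆ ⋃ k, A k := by
      intro z hz
      have hz' : CodeComputes (lab (pre z m)) (jn z V) (f z) := by
        by_contra hcon
        exact hz hcon
      obtain ⟨s, hs⟩ := (zf_of_computes hz').2 (L n)
      rw [Set.mem_iUnion]
      refine ⟨s, ?_⟩
      exact hs.trans (zf_pre_mono _ _ (by omega)).length_le
    have hlim : Filter.Tendsto (fun k => coin.real (A k)) Filter.atTop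
        (nhds (coin.real (⋃ k, A k))) := by
      have h1 := tendsto_measure_iUnion_atTop (μ := coin) hAm
      exact (ENNReal.tendsto_toReal (measure_ne_top _ _)).comp h1
    have hcl : coin.real Badᶜ ≤ coin.real (⋃ k, A k) := measureReal_mono hun
    have hBm : MeasurableSet Bad := by
      have hV : Measurable fun z : ℕ → Bool => jn z V :=
        measurable_jn.comp (f := fun z : ℕ → Bool => (z, V))
          (measurable_id.prodMk measurable_const)
      have h1 : Bad = (⋃ c : Code, {z | lab (pre z m) = c} ∩
          {z | CodeComputes c (jn z V) (f z)})ᶜ := by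
        ext z
        simp [Bad]
      rw [h1]
      refine (MeasurableSet.iUnion fun c => MeasurableSet.inter ?_ (meas_computes hV hf c)).compl
      let _ : MeasurableSpace Code := ⊤
      have _ : MeasurableSingletonClass Code := ⟨fun _ => trivial⟩
      exact measurable_pre (β := Code) m lab (measurableSet_singleton c)
    have hcl2 : coin.real Badᶜ = 1 - coin.real Bad := by
      rw [measureReal_compl hBm]
      simp
    have hlt : (1022 : ℝ) / 1024 < coin.real (⋃ k, A k) := by
      have : coin.real Bad ≤ 1 / 1024 := hbad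
      linarith
    obtain ⟨K, hK⟩ := Filter.eventually_atTop.1 (hlim.eventually (lt_mem_nhds hlt))
    refine ⟨max K (max m (L n)), ?_⟩
    set N := max K (max m (L n)) with hN
    have hmN : m ≤ N := (le_max_left m (L n)).trans (le_max_right _ _)
    have hLN : L n ≤ N := (le_max_right m (L n)).trans (le_max_right _ _)
    have h1 := hK N (le_max_left _ _)
    have h2 : A N = {X : ℕ → Bool | okA m lab (L n) (pre V N) (pre X N) = true} := by
      ext z
      simp only [A, okA, Set.mem_ofPred_eq, decide_eq_true_eq]
      rw [ww_pre m lab V z hmN]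
    rw [h2, hcount] at h1
    have h3 : 1022 * (strs N).length ≤
        1024 * ((strs N).filter (okA m lab (L n) (pre V N))).length := by
      have hp : (0 : ℝ) < 2 ^ N := by positivity
      rw [lt_div_iff₀ hp] at h1
      have h4 : (1022 : ℝ) * 2 ^ N ≤
          1024 * (((strs N).filter (okA m lab (L n) (pre V N))).length : ℝ) := by linarith
      rw [strs_length]
      exact_mod_cast h4
    simp only [TT, pre_length]
    rw [if_pos]
    simp only [Bool.and_eq_true, decide_eq_true_eq]
    exact ⟨hmN, hLN, h3⟩
  obtain ⟨g, hg, hg0⟩ := exists_select (Z := V)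
    (t := fun n N => TT m lab (L n) (pre V N)) (by
      have h3 := totRec_of_pre (Z := V) (F := fun (n : ℕ) (β : List Bool) =>
        TT m lab (L n.unpair.1) β) hTT (g := fun p => p.unpair.2)
        (TotRec.of_computable (Computable.snd.comp Computable.unpair))
      exact h3) hex
  refine ⟨fun n => VV m lab D n (L n) (pre V (g n)), totRec_of_pre (Z := V)
    (F := fun (n : ℕ) (β : List Bool) => VV m lab D n (L n) β) hVV hg, fun n => ?_⟩
  have h1 := hg0 n
  set N := g n with hN
  have hc : (decide (m ≤ N) && (decide (L n ≤ N) && decide (1022 * (strs N).length ≤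
      1024 * ((strs N).filter (okA m lab (L n) (pre V N))).length))) = true := by
    by_contra hno
    simp only [TT, pre_length] at h1
    rw [if_neg hno] at h1
    exact one_ne_zero h1
  simp only [Bool.and_eq_true, decide_eq_true_eq] at hc
  obtain ⟨hmN, hLN, h3⟩ := hc
  have hp : (0 : ℝ) < 2 ^ N := by positivity
  -- the measure of the complement of `A`
  have hAc : coin.real {X : ℕ → Bool | okA m lab (L n) (pre V N) (pre X N) = true}ᶜ ≤
      2 / 1024 := by
    rw [measureReal_compl (measurableSet_pre _ _), hcount]
    have h5 : (1022 : ℝ) * 2 ^ N ≤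
        1024 * (((strs N).filter (okA m lab (L n) (pre V N))).length : ℝ) := by
      rw [strs_length] at h3
      exact_mod_cast h3
    have h6 : (1022 : ℝ) / 1024 ≤
        (((strs N).filter (okA m lab (L n) (pre V N))).length : ℝ) / 2 ^ N := by
      rw [le_div_iff₀ hp]
      linarith
    simp only [probReal_univ]
    linarith
  -- outside the bad set the two conditions agree
  have hag : ∀ z, z ∉ Bad → okA m lab (L n) (pre V N) (pre z N) = true →
      (okB m lab D n (L n) (pre V N) (pre z N) = true ↔
        D n (pre z (L n)) (pre (f z) (L n)) = true) := by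
    intro z hz hok
    have hz' : CodeComputes (lab (pre z m)) (jn z V) (f z) := by
      by_contra hcon
      exact hz hcon
    have h6 : (ww m lab (pre V N) (pre z N)).take (L n) = pre (f z) (L n) := by
      rw [okA, decide_eq_true_eq] at hok
      rw [ww_pre m lab V z hmN] at hok ⊢
      rw [(zf_of_computes hz').1 (2 * N), pre_take _ hok]
    rw [okB, hok, Bool.true_and, h6, pre_take z hLN]
  have hE : coin.real {z | D n (pre z (L n)) (pre (f z) (L n)) = true} ≤
      coin.real {X : ℕ → Bool | okB m lab D n (L n) (pre V N) (pre X N) = true} + 3 / 1024 := by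
    have hsub : {z | D n (pre z (L n)) (pre (f z) (L n)) = true} ⊆
        {X : ℕ → Bool | okB m lab D n (L n) (pre V N) (pre X N) = true} ∪
          ({X : ℕ → Bool | okA m lab (L n) (pre V N) (pre X N) = true}ᶜ ∪ Bad) := by
      intro z hz
      by_cases hzB : z ∈ Bad
      · exact Or.inr (Or.inr hzB)
      by_cases hzA : okA m lab (L n) (pre V N) (pre z N) = true
      · exact Or.inl ((hag z hzB hzA).2 hz)
      · exact Or.inr (Or.inl hzA)
    have h7 := (measureReal_mono (μ := coin) hsub).trans (measureReal_union_le _ _)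
    have h8 := measureReal_union_le (μ := coin)
      {X : ℕ → Bool | okA m lab (L n) (pre V N) (pre X N) = true}ᶜ Bad
    have h9 : coin.real Bad ≤ 1 / 1024 := hbad
    linarith
  have hE' : coin.real {X : ℕ → Bool | okB m lab D n (L n) (pre V N) (pre X N) = true} ≤
      coin.real {z | D n (pre z (L n)) (pre (f z) (L n)) = true} + 1 / 1024 := by
    have hsub : {X : ℕ → Bool | okB m lab D n (L n) (pre V N) (pre X N) = true} ⊆
        {z | D n (pre z (L n)) (pre (f z) (L n)) = true} ∪ Bad := by
      intro z hz
      by_cases hzB : z ∈ Bad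
      · exact Or.inr hzB
      have hz1 : okB m lab D n (L n) (pre V N) (pre z N) = true := hz
      have hzA : okA m lab (L n) (pre V N) (pre z N) = true := by
        rw [okB, Bool.and_eq_true] at hz1
        exact hz1.1
      exact Or.inl ((hag z hzB hzA).1 hz)
    have h7 := (measureReal_mono (μ := coin) hsub).trans (measureReal_union_le _ _)
    have h9 : coin.real Bad ≤ 1 / 1024 := hbad
    linarith
  -- rounding
  rw [hcount] at hE hE'
  set C := ((strs N).filter (okB m lab D n (L n) (pre V N))).length with hC
  have hVVn : VV m lab D n (L n) (pre V N) = 1024 * C / 2 ^ N := by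
    rw [VV, pre_length, strs_length]
  have r1 : ((1024 * C / 2 ^ N : ℕ) : ℝ) ≤ 1024 * (C : ℝ) / 2 ^ N := by
    have := @Nat.cast_div_le ℝ _ _ _ (1024 * C) (2 ^ N)
    push_cast at this
    exact this
  have r2 : 1024 * (C : ℝ) / 2 ^ N < ((1024 * C / 2 ^ N : ℕ) : ℝ) + 1 := by
    rw [div_lt_iff₀ hp]
    have h10 := Nat.lt_div_mul_add (a := 1024 * C) (b := 2 ^ N) (by positivity)
    have h11 : ((1024 * C : ℕ) : ℝ) < (((1024 * C) / 2 ^ N * 2 ^ N + 2 ^ N : ℕ) : ℝ) := by
      exact_mod_cast h10
    push_cast at h11
    linarith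
  have r3 : 1024 * (C : ℝ) / 2 ^ N = 1024 * ((C : ℝ) / 2 ^ N) := by ring
  rw [r3] at r1 r2
  have hgoal : |coin.real {z | D n (pre z (L n)) (pre (f z) (L n)) = true} -
      ((VV m lab D n (L n) (pre V N) : ℕ) : ℝ) / 1024| ≤ 4 / 1024 := by
    rw [hVVn, abs_le]
    constructor <;> linarith
  exact hgoal

/-- For almost all `u` the sequence `u ⊕ f u` computes approximations to the statistics. -/
theorem stats_of {f : (ℕ → Bool) → (ℕ → Bool)} (hf : Measurable f)
    (h : ∀ i < RR, ∀ᵐ y ∂coin, TuringReducible (chi (f (T i y))) (chi (f y)))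
    {D : ℕ → List Bool → List Bool → Bool}
    (hD : Computable fun p : ℕ × (List Bool × List Bool) => D p.1 p.2.1 p.2.2) {L : ℕ → ℕ}
    (hL : Computable L) : ∀ᵐ u ∂coin, ∃ t : ℕ → ℕ, TotRec (jn u (f u)) t ∧ ∀ n,
      |coin.real {z | D n (pre z (L n)) (pre (f z) (L n)) = true} - (t n : ℝ) / 1024| ≤
        4 / 1024 := by
  have h1 := Measure.ae_ae_of_ae_prod (main_pair hf h)
  filter_upwards [h1] with u hu
  exact stats_of_red hf hu hD hL

end Pool.Agent.SAX
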