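import Mathlib
import Pool.Agent.SAX.R1G
import Pool.Agent.SAX.STB

/-!
R1: f(x) together with x computes the statistics of f.
-/

set_option autoImplicit false

namespace Pool.Agent.SAX

open MeasureTheory Encodable Pool.Agent.H19 Pool.Agent.AEI Pool.Agent.RJ
open Nat.Partrec (Code)
open Filter Topology

theorem r1 {f : (ℕ → Bool) → (ℕ → Bool)} (hf : Measurable f)
    (h : ∀ i < RR, ∀ᵐ y ∂coin, TuringReducible (chi (f (T i y))) (chi (f y))) :
    ∀ᵐ x ∂coin, ∃ t : ℕ → ℕ, TotRec (jn x (f x)) t ∧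
      ∀ n, |(t n : ℝ) / 1024 - stt f n| ≤ 4 / 1024 := by
  filter_upwards [stats_of hf h (D := gB) (comp_gB Computable.fst
    (Computable.fst.comp Computable.snd) (Computable.snd.comp Computable.snd)) comp_gL]
    with x hx
  obtain ⟨t, ht, ht2⟩ := hx
  refine ⟨t, ht, fun n => ?_⟩
  rw [abs_sub_comm]
  exact ht2 n

end Pool.Agent.SAX
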