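import Mathlib
import Pool.Agent.RJ.ZON

/-!
Statistics of the values of a function determine its values on almost all inputs (generic form).
-/

set_option autoImplicit false

namespace Pool.Agent.SAX

open MeasureTheory Encodable Pool.Agent.H19 Pool.Agent.AEI Pool.Agent.RJ
open Nat.Partrec (Code)

/-- The statistic with number `n`: for even `n`, the set `A` contains all `m` with the bit `true` in
the string which the candidate with the code `n / 2` has at `z`; for odd `n` it contains some `m` with
the bit `false`. -/
def GG (n : ℕ) (z A : ℕ → Bool) : Prop :=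
  if n % 2 = 0 then ∀ m < (val (cand (n / 2)) z).length,
    (val (cand (n / 2)) z).getD m false = true → A m = true
  else ∃ m < (val (cand (n / 2)) z).length,
    (val (cand (n / 2)) z).getD m false = false ∧ A m = true

theorem GG_even (q : ℕ) (z A : ℕ → Bool) : GG (2 * q) z A ↔ ∀ m < (val (cand q) z).length,
    (val (cand q) z).getD m false = true → A m = true := by
  rw [GG, if_pos (by omega), show 2 * q / 2 = q by omega]

theorem GG_odd (q : ℕ) (z A : ℕ → Bool) : GG (2 * q + 1) z A ↔ ∃ m < (val (cand q) z).length,
    (val (cand q) z).getD m false = false ∧ A m = true := by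
  rw [GG, if_neg (by omega), show (2 * q + 1) / 2 = q by omega]

theorem isPre_iff_bits {b : List Bool} {A : ℕ → Bool} :
    IsPre b A ↔ ∀ m < b.length, b.getD m false = A m := by
  unfold IsPre
  constructor
  · intro h m hm
    have h1 : (pre A b.length).getD m false = A m := by
      rw [List.getD_eq_getElem _ _ (by rw [pre_length]; exact hm)]
      simp [pre]
    rw [← h1, ← h]
  · intro h
    refine List.ext_getElem (by rw [pre_length]) fun m h1 h2 => ?_
    have h3 := h m h1
    rw [List.getD_eq_getElem _ _ h1] at h3
    rw [h3]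
    simp [pre]

theorem isPre_iff_GG {q : ℕ} {z A : ℕ → Bool} :
    IsPre (val (cand q) z) A ↔ GG (2 * q) z A ∧ ¬ GG (2 * q + 1) z A := by
  rw [isPre_iff_bits, GG_even, GG_odd]
  constructor
  · intro h
    refine ⟨fun m hm hb => (h m hm).symm.trans hb, ?_⟩
    rintro ⟨m, hm, hb, hA⟩
    rw [h m hm, hA] at hb
    exact Bool.noConfusion hb
  · rintro ⟨h1, h2⟩ m hm
    cases hb : (val (cand q) z).getD m false
    · cases hA : A m
      · rfl
      · exact absurd ⟨m, hm, hb, hA⟩ h2
    · exact (h1 m hm hb).symm

theorem measurableSet_GG {f : (ℕ → Bool) → (ℕ → Bool)} (hf : Measurable f) (n : ℕ) :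
    MeasurableSet {z | GG n z (f z)} := by
  have hc : ∀ (b : Bool) (m : ℕ), MeasurableSet {z | f z m = b} := fun b m =>
    meas_coord hf m fun x => x = b
  have key : ∀ (P : List Bool → (ℕ → Bool) → Prop), (∀ b, MeasurableSet {z | P b z}) →
      MeasurableSet {z | P (val (cand (n / 2)) z) z} := by
    intro P hP
    exact meas_of_pre_fun (g := fun z => z) measurable_id (cand (n / 2)).1
      (P := fun b z => P (look (cand (n / 2)) b) z) fun b => hP _
  by_cases h : n % 2 = 0
  · have h1 : {z | GG n z (f z)} = {z | ∀ m < (val (cand (n / 2)) z).length,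
        (val (cand (n / 2)) z).getD m false = true → f z m = true} := by
      ext z
      simp only [GG, if_pos h, Set.mem_setOf_eq]
    rw [h1]
    refine key (fun b z => ∀ m < b.length, b.getD m false = true → f z m = true) fun b => ?_
    simp only [Set.setOf_forall]
    exact MeasurableSet.iInter fun m => MeasurableSet.iInter fun _ =>
      MeasurableSet.iInter fun _ => hc true m
  · have h1 : {z | GG n z (f z)} = {z | ∃ m, m < (val (cand (n / 2)) z).length ∧
        (val (cand (n / 2)) z).getD m false = false ∧ f z m = true} := by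
      ext z
      simp only [GG, if_neg h, Set.mem_setOf_eq]
    rw [h1]
    refine key (fun b z => ∃ m, m < b.length ∧ b.getD m false = false ∧ f z m = true)
      fun b => ?_
    simp only [Set.setOf_exists]
    refine MeasurableSet.iUnion fun m => ?_
    simp only [Set.setOf_and]
    exact (MeasurableSet.const _).inter ((MeasurableSet.const _).inter (hc true m))

/-- Search data. -/
private abbrev DS := Cand × (ℕ × List (List Bool × Cert))

private def ds (q : ℕ) : DS := (decode (α := DS) q).getD ((0, []), (0, []))

private theorem ds_encode (x : DS) : ds (encode x) = x := by simp [ds]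

private theorem comp_ds : Computable ds :=
  Computable.option_getD Computable.decode (Computable.const _)

/-- The test: `u` and `v` are the numbers of the two statistics. -/
private def tss (m : ℕ) (lab : ℕ → List Bool → Code) (p u v : ℕ) : ℕ :=
  if chkA m lab (ds p.unpair.2).1 p.unpair.1 (ds p.unpair.2).2.1 (ds p.unpair.2).2.2 &&
    (decide (1000 ≤ u) && decide (v ≤ 24)) then 0 else 1

private theorem comp_tss {m : ℕ} {lab : ℕ → List Bool → Code} (hlab : Computable₂ lab) :
    Computable fun x : ℕ × (ℕ × ℕ) => tss m lab x.1 x.2.1 x.2.2 := by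
  have h1 : Computable fun x : ℕ × (ℕ × ℕ) => x.1.unpair.1 :=
    Computable.fst.comp (Computable.unpair.comp Computable.fst)
  have h2 : Computable fun x : ℕ × (ℕ × ℕ) => ds x.1.unpair.2 :=
    comp_ds.comp (Computable.snd.comp (Computable.unpair.comp Computable.fst))
  have h3 : Computable fun x : ℕ × (ℕ × ℕ) => (ds x.1.unpair.2).1 := Computable.fst.comp h2
  have h4 : Computable fun x : ℕ × (ℕ × ℕ) => (ds x.1.unpair.2).2 := Computable.snd.comp h2
  refine comp_ite (c := fun x : ℕ × (ℕ × ℕ) => chkA m lab (ds x.1.unpair.2).1
    x.1.unpair.1 (ds x.1.unpair.2).2.1 (ds x.1.unpair.2).2.2 &&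
    (decide (1000 ≤ x.2.1) && decide (x.2.2 ≤ 24))) ?_
    (Computable.const 0) (Computable.const 1)
  exact comp_and (comp_chkA hlab h3 h1 (Computable.fst.comp h4) (Computable.snd.comp h4))
    (comp_and (comp_decLe (Computable.const 1000) (Computable.fst.comp Computable.snd))
      (comp_decLe (Computable.snd.comp Computable.snd) (Computable.const 24)))

/-- Approximations to the statistics give `f z` from `z`, for almost all `z`. -/
theorem red_of_stats {f : (ℕ → Bool) → (ℕ → Bool)} (hf : Measurable f)
    (h : ∀ i < RR, ∀ᵐ y ∂coin, TuringReducible (chi (f (T i y))) (chi (f y)))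
    {O : ℕ → Bool} {t : ℕ → ℕ} (ht : TotRec O t)
    (hS : ∀ n, |coin.real {z | GG n z (f z)} - (t n : ℝ) / 1024| ≤ 20 / 1024) :
    ∀ᵐ z ∂coin, TuringReducible (chi (f z)) (chi (jn z O)) := by
  obtain ⟨m, lab, Bs, hG⟩ := exists_goodS hf h
  have hGm := measurableSet_GG hf
  -- the bound for the error set
  have hub : ∀ q, coin.real (errset f (cand q)) ≤
      coin.real {z | GG (2 * q) z (f z)}ᶜ + coin.real {z | GG (2 * q + 1) z (f z)} := by
    intro q
    refine (measureReal_mono (fun z hz => ?_)).trans (measureReal_union_le _ _)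
    have hz' : ¬ IsPre (val (cand q) z) (f z) := hz
    rw [isPre_iff_GG, not_and_or, not_not] at hz'
    exact hz'
  have hlb1 : ∀ q, coin.real {z | GG (2 * q) z (f z)}ᶜ ≤ coin.real (errset f (cand q)) := by
    intro q
    refine measureReal_mono fun z hz => ?_
    show ¬ IsPre (val (cand q) z) (f z)
    rw [isPre_iff_GG]
    exact fun h' => hz h'.1
  have hlb2 : ∀ q, coin.real {z | GG (2 * q + 1) z (f z)} ≤ coin.real (errset f (cand q)) := by
    intro q
    refine measureReal_mono fun z hz => ?_
    show ¬ IsPre (val (cand q) z) (f z)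
    rw [isPre_iff_GG]
    exact fun h' => h'.2 hz
  have hcompl : ∀ q, coin.real {z | GG (2 * q) z (f z)}ᶜ =
      1 - coin.real {z | GG (2 * q) z (f z)} := by
    intro q
    rw [measureReal_compl (hGm _)]
    simp
  have hd : ∀ {g : ℕ → ℕ}, Computable g → TotRec O g := fun hg => TotRec.of_computable hg
  have hq : Computable fun p : ℕ => ds p.unpair.2 :=
    comp_ds.comp (Computable.snd.comp Computable.unpair)
  have he : Computable fun p : ℕ => encode (ds p.unpair.2).1 :=
    Computable.encode.comp (Computable.fst.comp hq)
  have h2e : Computable fun p : ℕ => 2 * encode (ds p.unpair.2).1 := comp_two_mul.comp he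
  -- the search
  obtain ⟨g, hg, hg0⟩ := exists_select (Z := O)
    (t := fun n q => tss m lab (Nat.pair n q) (t (2 * encode (ds q).1))
      (t (2 * encode (ds q).1 + 1))) (by
      have h3 := totRec_comp3 (Z := O) (comp_tss (m := m) hG.comp)
        (a := fun p => p) (b := fun p => t (2 * encode (ds p.unpair.2).1))
        (c := fun p => t (2 * encode (ds p.unpair.2).1 + 1)) (hd Computable.id)
        (ht.comp (hd h2e)) (ht.comp (hd (Computable.succ.comp h2e)))
      refine (h3 : Nat.RecursiveIn _ _).of_eq fun p => ?_
      simp) (by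
      intro n
      obtain ⟨c, hc, hA⟩ := lng hG n
      obtain ⟨NA, A, hA⟩ := exists_chkA hA
      refine ⟨encode ((c, (NA, A)) : DS), ?_⟩
      have e1 := hS (2 * encode c)
      have e2 := hS (2 * encode c + 1)
      have e3 := hlb1 (encode c)
      have e4 := hlb2 (encode c)
      rw [hcompl] at e3
      rw [cand_encode] at e3 e4
      have k1 : (1000 : ℝ) ≤ (t (2 * encode c) : ℝ) := by
        rw [abs_le] at e1
        linarith [e1.1, e1.2]
      have k2 : (t (2 * encode c + 1) : ℝ) ≤ 24 := by
        rw [abs_le] at e2
        linarith [e2.1, e2.2]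
      have k1' : 1000 ≤ t (2 * encode c) := by exact_mod_cast k1
      have k2' : t (2 * encode c + 1) ≤ 24 := by exact_mod_cast k2
      simp only [tss, ds_encode, Nat.unpair_pair, hA, k1', k2', decide_true,
        Bool.and_true, if_true])
  have hres : ∀ j, Adm m lab (cand (encode (ds (g j)).1)) (j + 0) ∧
      coin.real (errset f (cand (encode (ds (g j)).1))) ≤ 3 / 32 := by
    intro j
    have h1 := hg0 j
    simp only [tss, Nat.unpair_pair] at h1
    have hc : (chkA m lab (ds (g j)).1 j (ds (g j)).2.1 (ds (g j)).2.2 &&
      (decide (1000 ≤ t (2 * encode (ds (g j)).1)) &&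
        decide (t (2 * encode (ds (g j)).1 + 1) ≤ 24))) = true := by
      by_contra hno
      rw [if_neg hno] at h1
      exact one_ne_zero h1
    simp only [Bool.and_eq_true, decide_eq_true_eq] at hc
    obtain ⟨h2, h3, h4⟩ := hc
    have h3' : (1000 : ℝ) ≤ (t (2 * encode (ds (g j)).1) : ℝ) := by exact_mod_cast h3
    have h4' : (t (2 * encode (ds (g j)).1 + 1) : ℝ) ≤ 24 := by exact_mod_cast h4
    have e1 := hS (2 * encode (ds (g j)).1)
    have e2 := hS (2 * encode (ds (g j)).1 + 1)
    have e3 := hub (encode (ds (g j)).1)
    rw [hcompl] at e3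
    rw [abs_le] at e1 e2
    refine ⟨?_, ?_⟩
    · rw [cand_encode, Nat.add_zero]
      exact adm_of_chkA h2
    · linarith [e1.1, e1.2, e2.1, e2.2]
  obtain ⟨E, hE, hE2, hE3⟩ := decoding (j0 := 0) hG (fun c j hc => wrg hG hc j)
    (Q := fun j => encode (ds (g j)).1)
    (TotRec.comp_computable (Computable.encode.comp (Computable.fst.comp comp_ds)) hg) hres
  -- zero-one law
  have hDm : MeasurableSet {z | TuringReducible (chi (f z)) (chi (jn z O))} :=
    meas_red hf (measurable_jn.comp (f := fun z : ℕ → Bool => (z, O))
      (measurable_id.prodMk measurable_const))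
  have h01 : coin {z | TuringReducible (chi (f z)) (chi (jn z O))} = 0 ∨
      coin {z | TuringReducible (chi (f z)) (chi (jn z O))}ᶜ = 0 := by
    refine ergodic hDm fun i hi => ?_
    filter_upwards [h i hi] with z hz hzD
    exact (hz.trans hzD).trans (jn_mono (le_T hi z) TuringReducible.rfl)
  refine mem_ae_iff.2 (h01.resolve_left fun h0 => ?_)
  have h1 : coin E = 0 := measure_mono_null (fun z hz => hE3 z hz) h0
  rw [measureReal_def, h1] at hE2
  norm_num at hE2

end Pool.Agent.SAX
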