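import Mathlib
import Pool.Agent.SAX.R2G
import Pool.Agent.SAX.STB

/-!
R2: if O computes the statistics of f up to 20/1024 then f z is computable from z ⊕ O for almost
all z.
-/

set_option autoImplicit false

namespace Pool.Agent.SAX

open MeasureTheory Encodable Pool.Agent.H19 Pool.Agent.AEI Pool.Agent.RJ
open Nat.Partrec (Code)
open Filter Topology

/-- The candidate with the code `n` as the value of an injective coding. -/
def dcand (n : ℕ) : ℕ := encode (cand n)

theorem comp_dcand : Computable dcand :=
  Computable.encode.comp (Computable.option_getD Computable.decode (Computable.const _))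

theorem stt_even (f : (ℕ → Bool) → (ℕ → Bool)) (c : Cand) :
    stt f (2 * encode c) = coin.real {z | GG (2 * encode c) z (f z)} := by
  rw [stt]
  congr 1
  ext z
  simp only [Set.mem_ofPred_eq]
  rw [gB_even, GG_even, cand_encode]

theorem stt_odd (f : (ℕ → Bool) → (ℕ → Bool)) (c : Cand) :
    stt f (2 * encode c + 1) = coin.real {z | GG (2 * encode c + 1) z (f z)} := by
  rw [stt]
  congr 1
  ext z
  simp only [Set.mem_ofPred_eq]
  rw [gB_odd, GG_odd, cand_encode]

theorem r2 {f : (ℕ → Bool) → (ℕ → Bool)} (hf : Measurable f)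
    (h : ∀ i < RR, ∀ᵐ y ∂coin, TuringReducible (chi (f (T i y))) (chi (f y)))
    {O : ℕ → Bool} {t : ℕ → ℕ} (ht : TotRec O t)
    (ha : ∀ n, |(t n : ℝ) / 1024 - stt f n| ≤ 20 / 1024) :
    ∀ᵐ z ∂coin, TuringReducible (chi (f z)) (chi (jn z O)) := by
  have hcomp : Computable fun n : ℕ => 2 * dcand (n / 2) + n % 2 :=
    comp_add' (comp_two_mul.comp (comp_dcand.comp
      (comp_div Computable.id (Computable.const 2))))
      (comp_mod Computable.id (Computable.const 2))
  refine red_of_stats hf h (t := fun n => t (2 * dcand (n / 2) + n % 2))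
    (ht.comp (TotRec.of_computable hcomp)) fun n => ?_
  have hc : cand (dcand (n / 2)) = cand (n / 2) := cand_encode _
  rcases Nat.mod_two_eq_zero_or_one n with h0 | h1
  · have hn : n = 2 * (n / 2) := by omega
    have e1 := ha (2 * encode (cand (n / 2)))
    rw [stt_even, abs_sub_comm] at e1
    have e2 : {z | GG (2 * encode (cand (n / 2))) z (f z)} = {z | GG n z (f z)} := by
      ext z
      simp only [Set.mem_ofPred_eq]
      rw [GG_even, cand_encode]
      conv_rhs => rw [hn, GG_even]
    rw [e2] at e1
    have e3 : 2 * dcand (n / 2) + n % 2 = 2 * encode (cand (n / 2)) := by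
      rw [h0, dcand, Nat.add_zero]
    simp only [e3]
    exact e1
  · have hn : n = 2 * (n / 2) + 1 := by omega
    have e1 := ha (2 * encode (cand (n / 2)) + 1)
    rw [stt_odd, abs_sub_comm] at e1
    have e2 : {z | GG (2 * encode (cand (n / 2)) + 1) z (f z)} = {z | GG n z (f z)} := by
      ext z
      simp only [Set.mem_ofPred_eq]
      rw [GG_odd, cand_encode]
      conv_rhs => rw [hn, GG_odd]
    rw [e2] at e1
    have e3 : 2 * dcand (n / 2) + n % 2 = 2 * encode (cand (n / 2)) + 1 := by
      rw [h1, dcand]
    simp only [e3]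
    exact e1

end Pool.Agent.SAX
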