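import Mathlib
import Pool.Agent.SAX.R2
import Pool.Agent.SAX.NCD
import Pool.Agent.SAX.NVL

/-!
R3. The statistics of the operator at the typical real differ from every column of the parameter.
-/

set_option autoImplicit false

namespace Pool.Agent.SAX

open MeasureTheory Encodable Pool.Agent.H19 Pool.Agent.AEI Pool.Agent.RJ
open Nat.Partrec (Code)
open Filter Topology

theorem ff_T {r : Code} (hr : Sol r) {ν : ℕ → ℝ} (h0 : ∀ j, 0 ≤ ν j) :
    ∀ i < RR, ∀ᵐ y ∂coin, TuringReducible (chi (ff r ν (T i y))) (chi (ff r ν y)) := by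
  intro i hi
  have h1 : ∀ᵐ y ∂coin, T i y ∉ Zb ν := (mp_T hi).quasiMeasurePreserving.ae (ae_Zb ν)
  filter_upwards [ae_Zb ν, h1] with y hy hTy
  have e1 : TuringReducible (chi (XX ν (T i y))) (chi (XX ν y)) :=
    (XX_le h0 hTy (isName_nm ν y)).trans
      (jn_le ((T_le hi y).trans (left_le_jn y (nm ν y))) (right_le_jn y (nm ν y)))
  have e2 : TuringReducible (chi (XX ν y)) (chi (XX ν (T i y))) :=
    (XX_le h0 hy (isName_nm ν (T i y))).trans
      (jn_le ((le_T hi y).trans (left_le_jn (T i y) (nm ν (T i y))))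
        (right_le_jn (T i y) (nm ν (T i y))))
  exact (hr.inv _ _ ⟨e1, e2⟩).1

theorem r3 {r : Code} (hr : Sol r) {ν : ℕ → ℝ} (hν : ∀ j, 0 ≤ ν j ∧ ν j ≤ 1) (k : ℕ) :
    ∃ n, 16 / 1024 < |stt (ff r ν) n - ν (Nat.pair k n)| := by
  by_contra hcon
  push Not at hcon
  have h0 : ∀ j, 0 ≤ ν j := fun j => (hν j).1
  have hfT := ff_T hr h0
  -- every name of `ν` computes the statistics
  have h1 : ∀ u' : ℕ → Bool, ∀ᵐ z ∂coin,
      TuringReducible (chi (ff r ν z)) (chi (jn z (nm ν u'))) := by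
    intro u'
    obtain ⟨t, ht, hta⟩ := name_val hν (isName_nm ν u')
    have htp : TotRec (nm ν u') (fun n => t (Nat.pair k n)) :=
      ht.comp ((TotRec.of_computable (Computable.const k)).pair
        (TotRec.of_computable Computable.id))
    refine r2 (measurable_ff r ν) hfT htp fun n => ?_
    have e1 := hta (Nat.pair k n)
    have e2 := hcon n
    rw [abs_le] at e1 e2 ⊢
    constructor <;> linarith [e1.1, e1.2, e2.1, e2.2]
  -- Fubini
  have hm : MeasurableSet {p : (ℕ → Bool) × (ℕ → Bool) |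
      TuringReducible (chi (ff r ν p.2)) (chi (jn p.2 (nm ν p.1)))} :=
    meas_red ((measurable_ff r ν).comp measurable_snd)
      (measurable_jn.comp (measurable_snd.prodMk ((measurable_nm ν).comp measurable_fst)))
  have h2 : ∀ᵐ p ∂(coin.prod coin),
      TuringReducible (chi (ff r ν p.2)) (chi (jn p.2 (nm ν p.1))) :=
    (Measure.ae_prod_iff_ae_ae hm).2 (Eventually.of_forall h1)
  have h3 : ∀ᵐ p ∂(coin.prod coin),
      TuringReducible (chi (ff r ν p.1)) (chi (jn p.1 (nm ν p.2))) :=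
    Measure.measurePreserving_swap.quasiMeasurePreserving.ae h2
  have h4 : ∀ᵐ z ∂coin, ∀ᵐ u ∂coin,
      TuringReducible (chi (ff r ν z)) (chi (jn z (nm ν u))) := Measure.ae_ae_of_ae_prod h3
  have h5 : ∀ᵐ z ∂coin, False := by
    filter_upwards [h4] with z hz
    refine hr.strict (XX ν z) (sacks_ae ?_)
    filter_upwards [hz, ae_Zb ν] with u hu huZ
    have e1 : TuringReducible (chi (nm ν u)) (chi (jn u (nm ν z))) :=
      (right_le_jn u (nm ν u)).trans (XX_le h0 huZ (isName_nm ν z))
    have e2 : TuringReducible (chi (jn u (nm ν z))) (chi (jn (XX ν z) u)) :=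
      jn_le (right_le_jn (XX ν z) u)
        ((right_le_jn z (nm ν z)).trans (left_le_jn (XX ν z) u))
    have e3 : TuringReducible (chi z) (chi (jn (XX ν z) u)) :=
      (left_le_jn z (nm ν z)).trans (left_le_jn (XX ν z) u)
    exact hu.trans (jn_le e3 (e1.trans e2))
  rw [Filter.eventually_false_iff_eq_bot, ae_eq_bot] at h5
  exact IsProbabilityMeasure.ne_zero coin h5

end Pool.Agent.SAX
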