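import Mathlib
import Pool.Agent.SAX.FIX
import Pool.Agent.SAX.R1
import Pool.Agent.SAX.R3
import Pool.Agent.SAX.DEC
import Pool.Agent.SAX.JMP

/-!
FIN. Assembly.
-/

set_option autoImplicit false

namespace Pool.Agent.SAX

open MeasureTheory Encodable Pool.Agent.H19 Pool.Agent.AEI Pool.Agent.RJ
open Nat.Partrec (Code)
open Filter Topology

theorem exists_FP (r : Code) : ∃ ν : ℕ → ℝ, (∀ j, 0 ≤ ν j ∧ ν j ≤ 1) ∧ FP r ν := by
  obtain ⟨ν, h1, h2⟩ := exists_fix_stage (S := Sst r) (continuous_Sst r) (Sst_nonneg r) (Sst_le_one r)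
    (Sst_mono r) (d := dk) continuous_dk
  refine ⟨ν, h1, fun k hk n => ⟨(h2 k hk n).1, ?_⟩⟩
  obtain ⟨s, hs⟩ := (h2 k hk n).2
  exact hs.trans (Sst_le_stt r n s ν)

theorem not_sol (r : Code) : ¬ Sol r := by
  intro hr
  obtain ⟨ν, hν, hF⟩ := exists_FP r
  have h0 : ∀ j, 0 ≤ ν j := fun j => (hν j).1
  have h1 := r1 (measurable_ff r ν) (ff_T hr h0)
  have h2 := jmp_ae ν
  have h3 : ∀ᵐ u ∂coin, False := by
    filter_upwards [h1, h2] with u hu1 hu2
    obtain ⟨t, ht, ha⟩ := hu1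
    have hX : TuringReducible (chi (XX ν u)) (chi (ff r ν u)) := hr.above _
    have hu : TuringReducible (chi u) (chi (ff r ν u)) := (left_le_jn u (nm ν u)).trans hX
    have hY : TuringReducible (chi (nm ν u)) (chi (ff r ν u)) := (right_le_jn u (nm ν u)).trans hX
    have hK : TuringReducible (chi (KK ν)) (chi (ff r ν u)) :=
      dec hν hF (r3 hr hν) (isName_nm ν u) hY
        (totRec_mono ht (jn_le hu TuringReducible.rfl)) ha
    exact hr.below _ (hu2.trans (jn_le hX hK))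
  rw [Filter.eventually_false_iff_eq_bot, ae_eq_bot] at h3
  exact IsProbabilityMeasure.ne_zero coin h3

end Pool.Agent.SAX
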