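import Mathlib
import Pool.Agent.RJ.OPR
import Pool.Agent.AEI.JMP

/-!
The frozen statement S14734 from the main theorem.
-/

set_option autoImplicit false
open scoped Classical

namespace Pool.Agent.SAX

open Pool.Agent.H19 Pool.Agent.AEI Pool.Agent.RJ

/-- The frozen statement from the main theorem. -/
theorem frozen_of
    (hmain : ∀ r : Nat.Partrec.Code,
      (∀ X : ℕ → Bool, TuringReducible (chi X) (chi (op r X))) →
      (∀ X : ℕ → Bool, ¬ TuringReducible (chi (op r X)) (chi X)) →
      (∀ X : ℕ → Bool, ¬ TuringReducible (chi (JJ X)) (chi (op r X))) →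
      (∀ X Y : ℕ → Bool, Teq X Y → Teq (op r X) (op r Y)) → False) :
    ¬ (∃ r : Nat.Partrec.Code,
      ∀ (W J : (ℕ → Bool) → ℕ → Prop) (χ : (ℕ → Prop) → ℕ →. ℕ),
        (∀ (X : ℕ → Bool) (n : ℕ),
          W X n ↔ ∃ s : ℕ, (r.eval (Encodable.encode (n, (List.range s).map X))).Dom) →
        (∀ (X : ℕ → Bool) (p : ℕ),
          J X p ↔ ∃ s : ℕ,
            ((Denumerable.ofNat Nat.Partrec.Code p.unpair.1).eval
              (Encodable.encode (p.unpair.2, (List.range s).map X))).Dom) →
        (∀ (P : ℕ → Prop) (n : ℕ), χ P n = Part.some (if P n then 1 else 0)) →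
        ∀ X Y : ℕ → Bool,
          (TuringReducible (χ (fun n => X n = true)) (χ (W X)) ∧
            ¬ TuringReducible (χ (W X)) (χ (fun n => X n = true)) ∧
            TuringReducible (χ (W X)) (χ (J X)) ∧
            ¬ TuringReducible (χ (J X)) (χ (W X))) ∧
          ((TuringReducible (χ (fun n => X n = true)) (χ (fun n => Y n = true)) ∧
              TuringReducible (χ (fun n => Y n = true)) (χ (fun n => X n = true))) →
            (TuringReducible (χ (W X)) (χ (W Y)) ∧
              TuringReducible (χ (W Y)) (χ (W X))))) := by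
  rintro ⟨r, hr⟩
  have h := hr (fun X n => n ∈ opSet r X) (fun X p => p ∈ jumpSet X)
    (fun P n => Part.some (if P n then 1 else 0)) (fun X n => Iff.rfl) (fun X p => Iff.rfl)
    (fun P n => rfl)
  have hX : ∀ X : ℕ → Bool, (fun n => Part.some
      (@ite ℕ (X n = true) (Classical.propDecidable _) 1 0) : ℕ →. ℕ) = chi X := by
    intro X
    funext n
    simp only [chi]
    congr
  have hW : ∀ X : ℕ → Bool, (fun n => Part.some (if n ∈ opSet r X then 1 else 0) : ℕ →. ℕ) =
      chi (op r X) := by
    intro X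
    have h1 : chr (opSet r X) = chi (op r X) := chr_eq_chi fun _ => op_iff.symm
    rw [← h1]
    funext n
    simp only [chr]
  have hJ : ∀ X : ℕ → Bool, (fun n => Part.some (if n ∈ jumpSet X then 1 else 0) : ℕ →. ℕ) =
      chi (JJ X) := by
    intro X
    rw [← chr_jumpSet]
    funext n
    simp only [chr]
  simp only [hX, hW, hJ] at h
  exact hmain r (fun X => (h X X).1.1) (fun X => (h X X).1.2.1) (fun X => (h X X).1.2.2.2)
    (fun X Y hXY => (h X Y).2 hXY)

end Pool.Agent.SAX
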