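import Mathlib
import Pool.Agent.SAX.Defs

/-!
One code for a computable functional with options as values.
-/

set_option autoImplicit false

namespace Pool.Agent.SAX

open MeasureTheory Encodable Pool.Agent.H19 Pool.Agent.AEI Pool.Agent.RJ
open Nat.Partrec (Code)

/-- The code only depends on `F`. -/
theorem exists_code_opt {F : ℕ → List Bool → Option Bool} (hF : Computable₂ F) :
    ∃ e : Code, ∀ Z B : ℕ → Bool, (∀ n s b, F n (pre Z s) = some b → b = B n) →
      (∀ n, ∃ s, (F n (pre Z s)).isSome) → CodeComputes e Z B := by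
  have hp : Partrec₂ (fun (n : ℕ) (σ : List Bool) =>
      ((F n σ).map (fun b : Bool => if b then 1 else 0) : Option ℕ) : ℕ → List Bool → Part ℕ) := by
    have h1 : Computable₂ (fun (n : ℕ) (σ : List Bool) =>
        (F n σ).map (fun b : Bool => if b then 1 else 0)) := by
      refine Computable.option_map hF ?_
      exact comp_ite (c := fun p : (ℕ × List Bool) × Bool => p.2) Computable.snd
        (Computable.const 1) (Computable.const 0)
    exact Computable.ofOption h1
  obtain ⟨d, hd⟩ := exists_code_of_partrec₂ hp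
  refine ⟨d, fun Z B h1 h2 => ⟨fun n s w hw => ?_, fun n => ?_⟩⟩
  · rw [hd] at hw
    simp only [Part.mem_coe, Option.mem_def, Option.map_eq_some_iff] at hw
    obtain ⟨b, hb, rfl⟩ := hw
    rw [h1 n s b hb]
  · obtain ⟨s, hs⟩ := h2 n
    obtain ⟨b, hb⟩ := Option.isSome_iff_exists.1 hs
    refine ⟨s, ?_⟩
    rw [hd, hb, ← h1 n s b hb]
    simp

end Pool.Agent.SAX
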