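import Mathlib
import Pool.Agent.BRW.BFIX

/-!
The fixed point (abstract form): if `d k ν ≥ 0` is continuous and `S n δ ν ∈ [0, 1]` is jointly
continuous for `δ > 0`, there is `ν ∈ [0, 1]^ℕ` with `ν ⟨k, n⟩ = S n (d k ν) ν` for all `n` and
all `k` with `d k ν > 0`.
-/

set_option autoImplicit false

namespace Pool.Agent.SAX

open Set Filter Topology

/-- Clamp to the unit interval. -/
private def fpaClamp (x : ℝ) : ℝ := max 0 (min 1 x)

private theorem fpaClamp_cont : Continuous fpaClamp :=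
  continuous_const.max (continuous_const.min continuous_id)

private theorem fpaClamp_mem (x : ℝ) : fpaClamp x ∈ Icc (0 : ℝ) 1 :=
  ⟨le_max_left _ _, max_le zero_le_one (min_le_left _ _)⟩

private theorem fpaClamp_eq {x : ℝ} (h : x ∈ Icc (0 : ℝ) 1) : fpaClamp x = x := by
  rw [fpaClamp, min_eq_right h.2, max_eq_right h.1]

/-- Extension of a vector to a sequence. -/
private def fpaExt (M : ℕ) (x : EuclideanSpace ℝ (Fin M)) : ℕ → ℝ :=
  fun m => if h : m < M then fpaClamp (x ⟨m, h⟩) else 0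

private theorem fpaExt_cont (M : ℕ) : Continuous (fpaExt M) := by
  refine continuous_pi fun m => ?_
  unfold fpaExt
  by_cases h : m < M
  · simp only [h, dif_pos]
    exact fpaClamp_cont.comp (by fun_prop)
  · simp only [h, dif_neg, not_false_iff]
    exact continuous_const

private theorem fpaExt_mem (M : ℕ) (x : EuclideanSpace ℝ (Fin M)) (m : ℕ) :
    fpaExt M x m ∈ Icc (0 : ℝ) 1 := by
  unfold fpaExt
  by_cases h : m < M
  · simp only [h, dif_pos]
    exact fpaClamp_mem _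
  · simp only [h, dif_neg, not_false_iff]
    exact ⟨le_refl _, zero_le_one⟩

/-- A finite approximation of the fixed point. -/
private theorem fpa_finite (d : ℕ → (ℕ → ℝ) → ℝ) (S : ℕ → ℝ → (ℕ → ℝ) → ℝ)
    (hd : ∀ k, Continuous (d k))
    (hS : ∀ n, ContinuousOn (fun p : ℝ × (ℕ → ℝ) => S n p.1 p.2) {p | 0 < p.1})
    (hS01 : ∀ n δ ν, S n δ ν ∈ Icc (0 : ℝ) 1) (M : ℕ) :
    ∃ ν : ℕ → ℝ, (∀ m, ν m ∈ Icc (0 : ℝ) 1) ∧ ∀ m < M,
      ν m = S (Nat.unpair m).2 (max (d (Nat.unpair m).1 ν) (1 / ((M : ℝ) + 1))) ν := by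
  have hpos : (0 : ℝ) < 1 / ((M : ℝ) + 1) := by positivity
  let F : EuclideanSpace ℝ (Fin M) → EuclideanSpace ℝ (Fin M) := fun x =>
    WithLp.toLp 2 fun i : Fin M => S (Nat.unpair i).2
      (max (d (Nat.unpair i).1 (fpaExt M x)) (1 / ((M : ℝ) + 1))) (fpaExt M x)
  have hF : Continuous F := by
    refine (PiLp.continuous_toLp 2 _).comp (continuous_pi fun i => ?_)
    have h1 : Continuous fun x : EuclideanSpace ℝ (Fin M) =>
        ((max (d (Nat.unpair i).1 (fpaExt M x)) (1 / ((M : ℝ) + 1)), fpaExt M x) :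
          ℝ × (ℕ → ℝ)) :=
      (((hd _).comp (fpaExt_cont M)).max continuous_const).prodMk (fpaExt_cont M)
    exact (hS (Nat.unpair i).2).comp_continuous h1 fun x => lt_of_lt_of_le hpos (le_max_right _ _)
  have hF01 : ∀ x i, F x i ∈ Icc (0 : ℝ) 1 := fun x i => hS01 _ _ _
  have hm : MapsTo F (Metric.closedBall 0 (M : ℝ)) (Metric.closedBall 0 (M : ℝ)) := by
    intro x _
    rw [mem_closedBall_zero_iff, EuclideanSpace.norm_eq]
    have h1 : ∑ i : Fin M, ‖F x i‖ ^ 2 ≤ (M : ℝ) := by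
      calc ∑ i : Fin M, ‖F x i‖ ^ 2 ≤ ∑ _i : Fin M, (1 : ℝ) := by
            refine Finset.sum_le_sum fun i _ => ?_
            have h2 := hF01 x i
            rw [Real.norm_eq_abs, sq_abs]
            nlinarith [h2.1, h2.2]
        _ = (M : ℝ) := by simp
    have h2 : (M : ℝ) ≤ (M : ℝ) ^ 2 := by
      rcases Nat.eq_zero_or_pos M with h | h
      · simp [h]
      · have h3 : (1 : ℝ) ≤ M := by exact_mod_cast h
        nlinarith
    calc √(∑ i : Fin M, ‖F x i‖ ^ 2) ≤ √((M : ℝ) ^ 2) := Real.sqrt_le_sqrt (h1.trans h2)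
      _ = M := Real.sqrt_sq (Nat.cast_nonneg M)
  obtain ⟨x, -, hx⟩ := Pool.Agent.BRW.brouwer (Nat.cast_nonneg M) hF.continuousOn hm
  refine ⟨fpaExt M x, fpaExt_mem M x, fun m hm' => ?_⟩
  have h1 : F x ⟨m, hm'⟩ = x ⟨m, hm'⟩ := by rw [hx]
  have h2 : fpaExt M x m = x ⟨m, hm'⟩ := by
    unfold fpaExt
    simp only [hm', dif_pos]
    refine fpaClamp_eq ?_
    rw [← h1]
    exact hF01 _ _
  rw [h2]
  exact h1.symm

/-- The fixed point. -/
theorem exists_fix (d : ℕ → (ℕ → ℝ) → ℝ) (S : ℕ → ℝ → (ℕ → ℝ) → ℝ)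
    (hd : ∀ k, Continuous (d k))
    (hS : ∀ n, ContinuousOn (fun p : ℝ × (ℕ → ℝ) => S n p.1 p.2) {p | 0 < p.1})
    (hS01 : ∀ n δ ν, S n δ ν ∈ Icc (0 : ℝ) 1) :
    ∃ ν : ℕ → ℝ, (∀ m, ν m ∈ Icc (0 : ℝ) 1) ∧
      ∀ k, 0 < d k ν → ∀ n, ν (Nat.pair k n) = S n (d k ν) ν := by
  choose a ha1 ha2 using fpa_finite d S hd hS hS01
  have hcomp : IsCompact (Set.pi Set.univ fun _ : ℕ => Icc (0 : ℝ) 1) :=
    isCompact_univ_pi fun _ => isCompact_Icc
  obtain ⟨ν, hν, φ, hφ, hlim⟩ := hcomp.tendsto_subseq (x := a) fun M =>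
    Set.mem_univ_pi.2 fun m => ha1 M m
  refine ⟨ν, fun m => Set.mem_univ_pi.1 hν m, fun k hk n => ?_⟩
  have h1 : Tendsto (fun j => a (φ j) (Nat.pair k n)) atTop (𝓝 (ν (Nat.pair k n))) :=
    (tendsto_pi_nhds.1 hlim) _
  have h2 : Tendsto (fun j => max (d k (a (φ j))) (1 / ((φ j : ℝ) + 1))) atTop
      (𝓝 (max (d k ν) 0)) :=
    (((hd k).tendsto ν).comp hlim).max
      ((tendsto_one_div_add_atTop_nhds_zero_nat (𝕜 := ℝ)).comp hφ.tendsto_atTop)
  rw [max_eq_left hk.le] at h2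
  have h3 : ContinuousAt (fun p : ℝ × (ℕ → ℝ) => S n p.1 p.2) (d k ν, ν) :=
    (hS n).continuousAt ((isOpen_lt continuous_const continuous_fst).mem_nhds hk)
  have h4 : Tendsto (fun j => S n (max (d k (a (φ j))) (1 / ((φ j : ℝ) + 1))) (a (φ j))) atTop
      (𝓝 (S n (d k ν) ν)) := h3.tendsto.comp (h2.prodMk_nhds hlim)
  refine tendsto_nhds_unique h1 (h4.congr' ?_)
  filter_upwards [hφ.tendsto_atTop.eventually_gt_atTop (Nat.pair k n)] with j hj
  have h5 := ha2 (φ j) (Nat.pair k n) hj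
  rw [Nat.unpair_pair] at h5
  exact h5.symm

end Pool.Agent.SAX
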