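import Mathlib
import Pool.Agent.RJ.OPR
import Pool.Agent.AEI.JMP

/-!
From the theorem about operators to the frozen statement.
-/

set_option autoImplicit false

namespace Pool.Agent.SAX

open Encodable Pool.Agent.H19 Pool.Agent.AEI Pool.Agent.RJ
open Nat.Partrec (Code)

/-- The operator with code `r` is a degree invariant solution to Post's problem (without the
condition `W^X ≤_T X'`, which always holds). -/
def Solves (r : Code) : Prop :=
  ∀ X : ℕ → Bool, TuringReducible (chi X) (chi (op r X)) ∧
    ¬ TuringReducible (chi (op r X)) (chi X) ∧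
    ¬ TuringReducible (chi (JJ X)) (chi (op r X)) ∧
    ∀ Y : ℕ → Bool, Teq X Y → Teq (op r X) (op r Y)

open Classical in
/-- The characteristic function of a predicate. -/
noncomputable def chiP (P : ℕ → Prop) : ℕ →. ℕ := fun n => Part.some (if P n then 1 else 0)

theorem chiP_eq {P : ℕ → Prop} {Z : ℕ → Bool} (h : ∀ n, P n ↔ Z n = true) : chiP P = chi Z := by
  funext n
  simp only [chiP, chi, Part.some_inj]
  by_cases hn : Z n = true
  · rw [if_pos hn, if_pos ((h n).2 hn)]
  · rw [if_neg hn, if_neg (fun h' => hn ((h n).1 h'))]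

open scoped Classical in
theorem frozen_of_main (main : ∀ r : Code, ¬ Solves r) :
    ¬ (∃ r : Nat.Partrec.Code,
      ∀ (W J : (ℕ → Bool) → ℕ → Prop) (χ : (ℕ → Prop) → ℕ →. ℕ),
        (∀ (X : ℕ → Bool) (n : ℕ),
          W X n ↔ ∃ s : ℕ, (r.eval (Encodable.encode (n, (List.range s).map X))).Dom) →
        (∀ (X : ℕ → Bool) (p : ℕ),
          J X p ↔ ∃ s : ℕ,
            ((Denumerable.ofNat Nat.Partrec.Code p.unpair.1).eval
              (Encodable.encode (p.unpair.2, (List.range s).map X))).Dom) →
        (∀ (P : ℕ → Prop) (n : ℕ), χ P n = Part.some (if P n then 1 else 0)) →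
        ∀ X Y : ℕ → Bool,
          (TuringReducible (χ (fun n => X n = true)) (χ (W X)) ∧
            ¬ TuringReducible (χ (W X)) (χ (fun n => X n = true)) ∧
            TuringReducible (χ (W X)) (χ (J X)) ∧
            ¬ TuringReducible (χ (J X)) (χ (W X))) ∧
          ((TuringReducible (χ (fun n => X n = true)) (χ (fun n => Y n = true)) ∧
              TuringReducible (χ (fun n => Y n = true)) (χ (fun n => X n = true))) →
            (TuringReducible (χ (W X)) (χ (W Y)) ∧
              TuringReducible (χ (W Y)) (χ (W X))))) := by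
  rintro ⟨r, hr⟩
  refine main r fun X => ?_
  have hr1 := hr (fun X n => n ∈ opSet r X) (fun X p => p ∈ jumpSet X) chiP
    (fun _ _ => Iff.rfl) (fun _ _ => Iff.rfl) (fun _ _ => rfl)
  have hX : ∀ X : ℕ → Bool, chiP (fun n => X n = true) = chi X := fun X =>
    chiP_eq fun _ => Iff.rfl
  have hW : ∀ X : ℕ → Bool, chiP (fun n => n ∈ opSet r X) = chi (op r X) := fun X =>
    chiP_eq fun _ => op_iff.symm
  have hJ : ∀ X : ℕ → Bool, chiP (fun p => p ∈ jumpSet X) = chi (JJ X) := fun X =>
    chiP_eq fun p => by rw [JJ_iff]; exact exists_cvg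
  simp only [hX, hW, hJ] at hr1
  obtain ⟨⟨h1, h2, -, h3⟩, -⟩ := hr1 X X
  exact ⟨h1, h2, h3, fun Y hXY => (hr1 X Y).2 hXY⟩

end Pool.Agent.SAX
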