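import Mathlib
import Pool.Agent.BRW.BFIX

/-!
A fixed point in the infinite cube: a parameter whose columns solve equations, where column `k`
is only asked for if `d k` is positive at the parameter.
-/

set_option autoImplicit false

namespace Pool.Agent.SAX

open Filter Topology Set

/-- Extension of a finite sequence by zero. -/
noncomputable def ext0 (M : ℕ) (x : EuclideanSpace ℝ (Fin M)) : ℕ → ℝ := fun j =>
  if h : j < M then x ⟨j, h⟩ else 0

theorem continuous_ext0 (M : ℕ) : Continuous (ext0 M) := by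
  refine continuous_pi fun j => ?_
  unfold ext0
  by_cases h : j < M
  · simp only [h, dite_true]
    fun_prop
  · simp only [h, dite_false]
    exact continuous_const

/-- Coordinatewise retraction to the cube. -/
noncomputable def clampE (M : ℕ) (x : EuclideanSpace ℝ (Fin M)) : EuclideanSpace ℝ (Fin M) :=
  WithLp.toLp 2 fun j => max 0 (min 1 (x j))

theorem continuous_clampE (M : ℕ) : Continuous (clampE M) := by
  unfold clampE
  refine (PiLp.continuous_toLp 2 _).comp (continuous_pi fun j => ?_)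
  fun_prop

theorem clampE_eq {M : ℕ} {x : EuclideanSpace ℝ (Fin M)} (h : ∀ j, x j ∈ Icc (0 : ℝ) 1) :
    clampE M x = x := by
  ext j
  show max 0 (min 1 (x j)) = x j
  rw [min_eq_right (h j).2, max_eq_right (h j).1]

/-- Brouwer for the cube: a continuous map of the whole space to the cube has a fixed point
(it only needs to be continuous). -/
theorem brouwer_cube {M : ℕ} {g : EuclideanSpace ℝ (Fin M) → EuclideanSpace ℝ (Fin M)}
    (hg : Continuous g) (h01 : ∀ x j, g x j ∈ Icc (0 : ℝ) 1) :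
    ∃ x : EuclideanSpace ℝ (Fin M), (∀ j, x j ∈ Icc (0 : ℝ) 1) ∧ g x = x := by
  obtain ⟨x, -, hx⟩ := Pool.Agent.BRW.brouwer (f := g) (M := Real.sqrt M) (Real.sqrt_nonneg _)
    hg.continuousOn (by
      intro x _
      rw [mem_closedBall_zero_iff, EuclideanSpace.norm_eq]
      refine Real.sqrt_le_sqrt ?_
      calc ∑ i, ‖g x i‖ ^ 2 ≤ ∑ _i : Fin M, (1 : ℝ) := by
            refine Finset.sum_le_sum fun i _ => ?_
            rw [Real.norm_eq_abs, sq_abs]
            have h1 := (h01 x i).1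
            have h2 := (h01 x i).2
            nlinarith
        _ = M := by simp)
  refine ⟨x, fun j => ?_, hx⟩
  rw [← hx]
  exact h01 x j

/-- The fixed point. -/
theorem fix_point {d : ℕ → (ℕ → ℝ) → ℝ} {F : ℕ → ℝ → (ℕ → ℝ) → ℝ}
    (hd : ∀ k, Continuous (d k))
    (hF : ∀ n, ContinuousOn (fun p : ℝ × (ℕ → ℝ) => F n p.1 p.2) (Ioi 0 ×ˢ univ))
    (h01 : ∀ n δ x, 0 < δ → F n δ x ∈ Icc (0 : ℝ) 1) :
    ∃ nu : ℕ → ℝ, (∀ j, nu j ∈ Icc (0 : ℝ) 1) ∧
      ∀ k n, 0 < d k nu → nu (Nat.pair k n) = F n (d k nu) nu := by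
  -- the finite fixed points
  have key : ∀ M : ℕ, ∃ nu : ℕ → ℝ, (∀ j, nu j ∈ Icc (0 : ℝ) 1) ∧
      ∀ k n, Nat.pair k n < M → nu (Nat.pair k n) =
        F n (max (d k nu) (1 / ((M : ℝ) + 1))) nu := by
    intro M
    have hpos : (0 : ℝ) < 1 / ((M : ℝ) + 1) := by positivity
    obtain ⟨x, hx1, hx2⟩ := brouwer_cube (M := M)
      (g := fun x => WithLp.toLp 2 fun j : Fin M =>
        F (j : ℕ).unpair.2 (max (d (j : ℕ).unpair.1 (ext0 M x)) (1 / ((M : ℝ) + 1)))
          (ext0 M x)) (by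
        refine (PiLp.continuous_toLp 2 _).comp (continuous_pi fun j => ?_)
        have h1 : Continuous fun x : EuclideanSpace ℝ (Fin M) =>
            (max (d (j : ℕ).unpair.1 (ext0 M x)) (1 / ((M : ℝ) + 1)), ext0 M x) :=
          (((hd _).comp (continuous_ext0 M)).max continuous_const).prodMk (continuous_ext0 M)
        exact (hF (j : ℕ).unpair.2).comp_continuous h1 fun x =>
          ⟨lt_of_lt_of_le hpos (le_max_right _ _), mem_univ _⟩) (by
        intro x j
        exact h01 _ _ _ (lt_of_lt_of_le hpos (le_max_right _ _)))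
    refine ⟨ext0 M x, fun j => ?_, fun k n hkn => ?_⟩
    · unfold ext0
      split_ifs with h
      · exact hx1 _
      · exact ⟨le_rfl, zero_le_one⟩
    · have h1 : ext0 M x (Nat.pair k n) = x ⟨Nat.pair k n, hkn⟩ := by
        unfold ext0
        rw [dif_pos hkn]
      have h2 := congrArg (fun y : EuclideanSpace ℝ (Fin M) => y ⟨Nat.pair k n, hkn⟩) hx2
      simp only [Nat.unpair_pair] at h2
      rw [h1, ← h2]
  choose y hy1 hy2 using key
  have hcpt : IsCompact (Set.pi univ fun _ : ℕ => Icc (0 : ℝ) 1) :=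
    isCompact_univ_pi fun _ => isCompact_Icc
  obtain ⟨nu, hnu, φ, hφ, hlim⟩ := hcpt.tendsto_subseq (x := y) fun M => fun j _ => hy1 M j
  refine ⟨nu, fun j => hnu j (mem_univ j), fun k n hk => ?_⟩
  have hdl : Tendsto (fun M => d k (y (φ M))) atTop (𝓝 (d k nu)) :=
    ((hd k).tendsto nu).comp hlim
  have hφM : Tendsto φ atTop atTop := hφ.tendsto_atTop
  have h0 : Tendsto (fun M : ℕ => 1 / ((φ M : ℝ) + 1)) atTop (𝓝 0) :=
    (tendsto_one_div_add_atTop_nhds_zero_nat (𝕜 := ℝ)).comp hφM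
  have hev1 : ∀ᶠ M in atTop, 1 / ((φ M : ℝ) + 1) < d k (y (φ M)) := h0.eventually_lt hdl hk
  have hev2 : ∀ᶠ M in atTop, Nat.pair k n < φ M := hφM.eventually_gt_atTop _
  have h3 : Tendsto (fun M => y (φ M) (Nat.pair k n)) atTop (𝓝 (nu (Nat.pair k n))) :=
    (tendsto_pi_nhds.1 hlim) _
  have h4 : Tendsto (fun M => F n (d k (y (φ M))) (y (φ M))) atTop (𝓝 (F n (d k nu) nu)) := by
    have h5 : ContinuousAt (fun p : ℝ × (ℕ → ℝ) => F n p.1 p.2) (d k nu, nu) :=
      (hF n).continuousAt (prod_mem_nhds (Ioi_mem_nhds hk) univ_mem)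
    exact h5.tendsto.comp (hdl.prodMk_nhds hlim)
  have h6 : (fun M => y (φ M) (Nat.pair k n)) =ᶠ[atTop]
      fun M => F n (d k (y (φ M))) (y (φ M)) := by
    filter_upwards [hev1, hev2] with M h1 h2
    rw [hy2 (φ M) k n h2, max_eq_left h1.le]
  exact tendsto_nhds_unique h3 (h4.congr' h6.symm)

end Pool.Agent.SAX
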