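import Mathlib
import Pool.Agent.SAX.Defs
import Pool.Agent.RJ.LUS
import Pool.Agent.RJ.MEA
import Pool.Agent.RJ.LAB

/-!
LBL. Labels.
-/

set_option autoImplicit false

namespace Pool.Agent.SAX

open MeasureTheory Encodable Pool.Agent.H19 Pool.Agent.AEI Pool.Agent.RJ
open Nat.Partrec (Code)
open Filter Topology

theorem exists_labels {g : (ℕ → Bool) → (ℕ → Bool)} (hg : Measurable g) {O : ℕ → Bool}
    (h : ∀ᵐ z ∂coin, TuringReducible (chi (g z)) (chi (jn z O))) {ε : ℝ} (hε : 0 < ε) :
    ∃ (m : ℕ) (lab : List Bool → Code), Computable lab ∧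
      coin.real {z | ¬ CodeComputes (lab (pre z m)) (jn z O) (g z)} ≤ ε := by
  classical
  let _ : MeasurableSpace Code := ⊤
  have _ : MeasurableSingletonClass Code := ⟨fun _ => trivial⟩
  have _ : Nonempty Code := ⟨Code.zero⟩
  have hj : Measurable fun z : ℕ → Bool => jn z O := by
    refine measurable_pi_lambda _ fun n => ?_
    unfold jn
    split_ifs
    · exact measurable_pi_apply _
    · exact measurable_const
  have hc : ∀ c : Code, MeasurableSet {z | CodeComputes c (jn z O) (g z)} :=
    fun c => meas_computes hj hg c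
  let P : (ℕ → Bool) → ℕ → Prop := fun z n =>
    CodeComputes (Denumerable.ofNat Code n) (jn z O) (g z) ∨
      ∀ k, ¬ CodeComputes (Denumerable.ofNat Code k) (jn z O) (g z)
  have hP : ∀ z, ∃ n, P z n := by
    intro z
    by_cases hz : ∃ n, CodeComputes (Denumerable.ofNat Code n) (jn z O) (g z)
    · obtain ⟨n, hn⟩ := hz
      exact ⟨n, Or.inl hn⟩
    · exact ⟨0, Or.inr (fun k hk => hz ⟨k, hk⟩)⟩
  have hPm : ∀ n, MeasurableSet {z | P z n} := by
    intro n
    have h1 : {z | P z n} = {z | CodeComputes (Denumerable.ofNat Code n) (jn z O) (g z)} ∪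
        ⋂ k, {z | CodeComputes (Denumerable.ofNat Code k) (jn z O) (g z)}ᶜ := by
      ext z
      simp only [P, Set.mem_ofPred_eq, Set.mem_union, Set.mem_iInter, Set.mem_compl_iff]
    rw [h1]
    exact (hc _).union (MeasurableSet.iInter fun k => (hc _).compl)
  have hl : ∃ l : (ℕ → Bool) → Code, Measurable l ∧
      ∀ z, TuringReducible (chi (g z)) (chi (jn z O)) → CodeComputes (l z) (jn z O) (g z) := by
    refine ⟨fun z => Denumerable.ofNat Code (Nat.find (hP z)), ?_, ?_⟩
    · exact (measurable_from_nat (f := fun n => Denumerable.ofNat Code n)).comp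
        (measurable_find hP hPm)
    · intro z hz
      rcases Nat.find_spec (hP z) with h1 | h1
      · exact h1
      · obtain ⟨c, hcc⟩ := turingReducible_iff.1 hz
        refine absurd hcc ?_
        have := h1 (encode c)
        rwa [Denumerable.ofNat_encode] at this
  obtain ⟨l, hlm, hl1⟩ := hl
  obtain ⟨s, p, _, hp⟩ := exists_pre_fun hlm hε
  obtain ⟨lab, hcomp, hlab⟩ := exists_computable_table s (fun _ σ => p σ)
  refine ⟨s, lab 0, hcomp.comp (Computable.const 0) Computable.id, ?_⟩
  have h0 : coin.real {z | ¬ TuringReducible (chi (g z)) (chi (jn z O))} = 0 := by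
    rw [measureReal_def, ae_iff.1 h]
    rfl
  have hsub : {z | ¬ CodeComputes (lab 0 (pre z s)) (jn z O) (g z)} ⊆
      {z | p (pre z s) ≠ l z} ∪ {z | ¬ TuringReducible (chi (g z)) (chi (jn z O))} := by
    intro z hz
    by_contra hcon
    simp only [Set.mem_union, Set.mem_ofPred_eq, not_or, not_not] at hcon
    refine hz ?_
    rw [hlab 0 RR_pos _ (pre_length z s), hcon.1]
    exact hl1 z hcon.2
  calc coin.real {z | ¬ CodeComputes (lab 0 (pre z s)) (jn z O) (g z)} ≤
        coin.real ({z | p (pre z s) ≠ l z} ∪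
          {z | ¬ TuringReducible (chi (g z)) (chi (jn z O))}) := measureReal_mono hsub
    _ ≤ coin.real {z | p (pre z s) ≠ l z} +
        coin.real {z | ¬ TuringReducible (chi (g z)) (chi (jn z O))} :=
          measureReal_union_le _ _
    _ ≤ ε := by
        rw [h0, add_zero]
        exact hp

end Pool.Agent.SAX
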