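import Mathlib
import Pool.Agent.SAX.R2G
import Pool.Agent.RJ.FIN

/-!
The statistics of a function are far from every column of a parameter with mutually computable
random names, unless the function is computable from the name (generic form).
-/

set_option autoImplicit false

namespace Pool.Agent.SAX

open MeasureTheory Encodable Pool.Agent.H19 Pool.Agent.AEI Pool.Agent.RJ
open Nat.Partrec (Code)

/-- Removal of a second independent argument. -/
theorem red_of_names {f Yf : (ℕ → Bool) → (ℕ → Bool)} (hf : Measurable f) (hY : Measurable Yf)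
    (h1 : ∀ᵐ u ∂coin, ∀ᵐ z ∂coin, TuringReducible (chi (f z)) (chi (jn z (Yf u))))
    (hmut : ∀ᵐ u ∂coin, ∀ᵐ z ∂coin, TuringReducible (chi (Yf u)) (chi (jn u (Yf z)))) :
    ∀ᵐ z ∂coin, TuringReducible (chi (f z)) (chi (jn z (Yf z))) := by
  -- for almost all `u`, for almost all `z`
  have h2 : ∀ᵐ u ∂coin, ∀ᵐ z ∂coin,
      TuringReducible (chi (f z)) (chi (jn (jn z (Yf z)) u)) := by
    filter_upwards [h1, hmut] with u hu hu'
    filter_upwards [hu, hu'] with z hz hz'
    refine hz.trans (jn_le (left_le.trans left_le) (hz'.trans (jn_le right_le ?_)))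
    exact (right_le (X := z) (Y := Yf z)).trans left_le
  have hm : MeasurableSet {p : (ℕ → Bool) × (ℕ → Bool) |
      TuringReducible (chi (f p.2)) (chi (jn (jn p.2 (Yf p.2)) p.1))} := by
    have e1 : Measurable fun p : (ℕ → Bool) × (ℕ → Bool) => jn p.2 (Yf p.2) :=
      measurable_jn.comp (measurable_snd.prodMk (hY.comp measurable_snd))
    have e2 : Measurable fun p : (ℕ → Bool) × (ℕ → Bool) => jn (jn p.2 (Yf p.2)) p.1 :=
      measurable_jn.comp (e1.prodMk measurable_fst)
    exact meas_red (hf.comp measurable_snd) e2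
  have h3 : ∀ᵐ p ∂(coin.prod coin),
      TuringReducible (chi (f p.2)) (chi (jn (jn p.2 (Yf p.2)) p.1)) :=
    (Measure.ae_prod_iff_ae_ae hm).2 h2
  have h4 : ∀ᵐ p ∂(coin.prod coin),
      TuringReducible (chi (f p.1)) (chi (jn (jn p.1 (Yf p.1)) p.2)) := by
    have := (Measure.measurePreserving_swap (μ := coin) (ν := coin)).quasiMeasurePreserving.ae h3
    simpa using this
  have h5 : ∀ᵐ z ∂coin, ∀ᵐ u ∂coin,
      TuringReducible (chi (f z)) (chi (jn (jn z (Yf z)) u)) := Measure.ae_ae_of_ae_prod h4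
  filter_upwards [h5] with z hz
  exact sacks_ae hz

/-- The statistics of `f` are far from every column of `v`, if almost all `u` give a name `Yf u`
of `v`, the names are computable from each other (with the random `u`), and `f z` is not computable
from `z` and its name for almost all `z`. -/
theorem exists_far {f : (ℕ → Bool) → (ℕ → Bool)} (hf : Measurable f)
    (h : ∀ i < RR, ∀ᵐ y ∂coin, TuringReducible (chi (f (T i y))) (chi (f y)))
    {Yf : (ℕ → Bool) → (ℕ → Bool)} (hY : Measurable Yf) {v : ℕ → ℝ}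
    (hname : ∀ᵐ u ∂coin, ∃ q : ℕ → ℕ, TotRec (Yf u) q ∧ ∀ j, |1024 * v j - (q j : ℝ)| ≤ 2)
    (hmut : ∀ᵐ u ∂coin, ∀ᵐ z ∂coin, TuringReducible (chi (Yf u)) (chi (jn u (Yf z))))
    (hnot : ∀ᵐ z ∂coin, ¬ TuringReducible (chi (f z)) (chi (jn z (Yf z)))) (k : ℕ) :
    ∃ n, 16 / 1024 < |coin.real {z | GG n z (f z)} - v (Nat.pair k n)| := by
  by_contra hcon
  push Not at hcon
  have h1 : ∀ᵐ u ∂coin, ∀ᵐ z ∂coin, TuringReducible (chi (f z)) (chi (jn z (Yf u))) := by
    filter_upwards [hname] with u hu
    obtain ⟨q, hq, hq2⟩ := hu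
    refine red_of_stats hf h (t := fun n => q (Nat.pair k n)) ?_ fun n => ?_
    · refine hq.comp (TotRec.of_computable (f := fun n => Nat.pair k n) ?_)
      exact (Primrec₂.natPair.comp (Primrec.const k) Primrec.id).to_comp
    · have e1 := hcon n
      have e2 := hq2 (Nat.pair k n)
      rw [abs_le] at e1 e2 ⊢
      constructor
      · linarith [e1.1, e1.2, e2.1, e2.2]
      · linarith [e1.1, e1.2, e2.1, e2.2]
  have h2 := red_of_names hf hY h1 hmut
  have h3 : ∀ᵐ z ∂coin, False := by
    filter_upwards [h2, hnot] with z hz hz0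
    exact hz0 hz
  rw [Filter.eventually_false_iff_eq_bot, ae_eq_bot] at h3
  exact IsProbabilityMeasure.ne_zero coin h3

end Pool.Agent.SAX
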