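import Mathlib

/-!
Real analysis: the interpolation in the stage of a nondecreasing sequence of functions.
-/

set_option autoImplicit false

namespace Pool.Agent.SAX

open Filter Topology Set

/-- The weight of the step from `s` to `s + 1` at the parameter `δ`. -/
noncomputable def wt (δ : ℝ) (s : ℕ) : ℝ := max 0 (min 1 (1 / δ - s))

/-- The value at the (real) stage `1 / δ`. -/
noncomputable def interp (S : ℕ → ℝ) (δ : ℝ) : ℝ := S 0 + ∑' s : ℕ, wt δ s * (S (s + 1) - S s)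

theorem wt_nonneg (δ : ℝ) (s : ℕ) : 0 ≤ wt δ s := le_max_left _ _

theorem wt_le_one (δ : ℝ) (s : ℕ) : wt δ s ≤ 1 := max_le zero_le_one (min_le_left _ _)

theorem wt_eq_zero {δ : ℝ} {s : ℕ} (h : 1 / δ ≤ s) : wt δ s = 0 := by
  unfold wt
  exact max_eq_left ((min_le_right _ _).trans (by linarith))

theorem wt_eq_one {δ : ℝ} {s : ℕ} (h : (s : ℝ) + 1 ≤ 1 / δ) : wt δ s = 1 := by
  unfold wt
  rw [min_eq_left (by linarith), max_eq_right zero_le_one]

theorem interp_eq (S : ℕ → ℝ) {δ : ℝ} {N : ℕ} (h : 1 / δ ≤ N) :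
    interp S δ = S 0 + ∑ s ∈ Finset.range N, wt δ s * (S (s + 1) - S s) := by
  unfold interp
  rw [tsum_eq_sum (s := Finset.range N)]
  intro s hs
  rw [Finset.mem_range, not_lt] at hs
  have h1 : (N : ℝ) ≤ s := by exact_mod_cast hs
  rw [wt_eq_zero (h.trans h1), zero_mul]

theorem interp_le {S : ℕ → ℝ} (hS : Monotone S) {c : ℝ} (hc : ∀ s, S s ≤ c) (δ : ℝ) :
    interp S δ ≤ c := by
  obtain ⟨N, hN⟩ := exists_nat_ge (1 / δ)
  rw [interp_eq S hN]
  have h1 : ∑ s ∈ Finset.range N, wt δ s * (S (s + 1) - S s) ≤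
      ∑ s ∈ Finset.range N, (S (s + 1) - S s) := by
    refine Finset.sum_le_sum fun s _ => ?_
    have h2 : 0 ≤ S (s + 1) - S s := by linarith [hS (Nat.le_succ s)]
    nlinarith [wt_le_one δ s, wt_nonneg δ s]
  rw [Finset.sum_range_sub] at h1
  linarith [hc N]

theorem le_interp {S : ℕ → ℝ} (hS : Monotone S) {δ : ℝ} (hδ : 0 < δ) {s : ℕ}
    (h : (s : ℝ) * δ ≤ 1) : S s ≤ interp S δ := by
  have h0 : (s : ℝ) ≤ 1 / δ := by rwa [le_div_iff₀ hδ]
  obtain ⟨N, hN⟩ := exists_nat_ge (1 / δ)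
  rw [interp_eq S hN]
  have hsN : s ≤ N := by exact_mod_cast h0.trans hN
  have h1 : ∑ i ∈ Finset.range s, (S (i + 1) - S i) ≤
      ∑ i ∈ Finset.range N, wt δ i * (S (i + 1) - S i) := by
    calc ∑ i ∈ Finset.range s, (S (i + 1) - S i)
        = ∑ i ∈ Finset.range s, wt δ i * (S (i + 1) - S i) := by
          refine Finset.sum_congr rfl fun i hi => ?_
          rw [wt_eq_one, one_mul]
          have h3 : i + 1 ≤ s := Finset.mem_range.1 hi
          have h4 : ((i + 1 : ℕ) : ℝ) ≤ s := by exact_mod_cast h3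
          push_cast at h4
          linarith
      _ ≤ ∑ i ∈ Finset.range N, wt δ i * (S (i + 1) - S i) := by
          refine Finset.sum_le_sum_of_subset_of_nonneg ?_ fun i _ _ => ?_
          · exact Finset.range_mono hsN
          · exact mul_nonneg (wt_nonneg _ _) (by linarith [hS (Nat.le_succ i)])
  rw [Finset.sum_range_sub] at h1
  linarith

theorem zero_le_interp {S : ℕ → ℝ} (hS : Monotone S) (h0 : 0 ≤ S 0) {δ : ℝ} (hδ : 0 < δ) :
    0 ≤ interp S δ :=
  h0.trans (le_interp hS hδ (s := 0) (by simp))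

theorem interp_mem {S : ℕ → ℝ} (hS : Monotone S) (h : ∀ s, S s ∈ Icc (0 : ℝ) 1) {δ : ℝ}
    (hδ : 0 < δ) : interp S δ ∈ Icc (0 : ℝ) 1 :=
  ⟨zero_le_interp hS (h 0).1 hδ, interp_le hS (fun s => (h s).2) δ⟩

/-- The interpolation is jointly continuous for positive parameters. -/
theorem continuousOn_interp {X : Type*} [TopologicalSpace X] {S : X → ℕ → ℝ}
    (hc : ∀ s, Continuous fun x => S x s) :
    ContinuousOn (fun p : ℝ × X => interp (S p.2) p.1) (Ioi 0 ×ˢ univ) := by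
  rintro ⟨δ, x⟩ ⟨hδ, -⟩
  have hδ : (0 : ℝ) < δ := hδ
  refine ContinuousAt.continuousWithinAt ?_
  obtain ⟨N, hN⟩ := exists_nat_ge (1 / (δ / 2))
  have hev : ∀ᶠ p : ℝ × X in 𝓝 (δ, x), p.1 ∈ Ioi (δ / 2) :=
    continuous_fst.continuousAt.eventually (Ioi_mem_nhds (by simpa using by linarith : δ / 2 < (δ, x).1))
  have heq : (fun p : ℝ × X => interp (S p.2) p.1) =ᶠ[𝓝 (δ, x)]
      fun p => S p.2 0 + ∑ s ∈ Finset.range N, wt p.1 s * (S p.2 (s + 1) - S p.2 s) := by
    filter_upwards [hev] with p hp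
    refine interp_eq _ (le_trans ?_ hN)
    exact one_div_le_one_div_of_le (by linarith) (le_of_lt hp)
  refine ContinuousAt.congr ?_ heq.symm
  have hwt : ∀ s : ℕ, ContinuousAt (fun p : ℝ × X => wt p.1 s) (δ, x) := by
    intro s
    unfold wt
    have h1 : ContinuousAt (fun p : ℝ × X => 1 / p.1) (δ, x) :=
      continuousAt_const.div continuous_fst.continuousAt hδ.ne'
    exact continuousAt_const.max (continuousAt_const.min (h1.sub continuousAt_const))
  have hS' : ∀ s : ℕ, ContinuousAt (fun p : ℝ × X => S p.2 s) (δ, x) := fun s =>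
    ((hc s).comp continuous_snd).continuousAt
  refine (hS' 0).add ?_
  refine tendsto_finset_sum _ fun s _ => ?_
  exact (hwt s).mul ((hS' (s + 1)).sub (hS' s))

end Pool.Agent.SAX
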