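import Mathlib
import Pool.Agent.SAX.STB
import Pool.Agent.RJ.MES

/-!
Statistics and errors.
-/

set_option autoImplicit false

namespace Pool.Agent.SAX

open MeasureTheory Encodable Pool.Agent.H19 Pool.Agent.AEI Pool.Agent.RJ
open Nat.Partrec (Code)
open Filter Topology

private theorem ste_isPre {a : List Bool} {Z : ℕ → Bool} :
    IsPre a Z ↔ ∀ i < a.length, a.getD i false = Z i := by
  constructor
  · intro h i hi
    have h1 := pre_getD Z hi false
    rw [IsPre] at h
    rwa [← h] at h1
  · intro h
    rw [IsPre]
    refine List.ext_getElem (by rw [pre_length]) fun i h1 h2 => ?_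
    have h3 := h i h1
    have h4 := pre_getD Z h1 false
    rw [List.getD_eq_getElem _ _ h1] at h3
    rw [List.getD_eq_getElem _ _ h2] at h4
    rw [h3, h4]

private theorem ste_stt_even (f : (ℕ → Bool) → (ℕ → Bool)) (c : Cand) :
    stt f (2 * encode c) = coin.real {u | ∀ m < (val c u).length,
      (val c u).getD m false = true → f u m = true} := by
  rw [stt]
  congr 1
  ext u
  exact gB_even

private theorem ste_stt_odd (f : (ℕ → Bool) → (ℕ → Bool)) (c : Cand) :
    stt f (2 * encode c + 1) = coin.real {u | ∃ m < (val c u).length,
      (val c u).getD m false = false ∧ f u m = true} := by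
  rw [stt]
  congr 1
  ext u
  exact gB_odd

private theorem ste_errset (f : (ℕ → Bool) → (ℕ → Bool)) (c : Cand) :
    errset f c = {u | ∀ m < (val c u).length,
      (val c u).getD m false = true → f u m = true}ᶜ ∪ {u | ∃ m < (val c u).length,
      (val c u).getD m false = false ∧ f u m = true} := by
  ext u
  simp only [errset, Set.mem_ofPred_eq, Set.mem_union, Set.mem_compl_iff, ste_isPre]
  constructor
  · intro h
    push Not at h
    obtain ⟨i, hi, hne⟩ := h
    rcases hv : (val c u).getD i false with _ | _
    · right
      refine ⟨i, hi, hv, ?_⟩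
      rw [hv] at hne
      rcases hf : f u i with _ | _
      · exact absurd hf.symm hne
      · rfl
    · left
      intro h1
      exact hne (hv.trans (h1 i hi hv).symm)
  · rintro (h | ⟨m, hm, h1, h2⟩) h3
    · refine h fun m hm h4 => ?_
      rw [← h3 m hm, h4]
    · have h4 := h3 m hm
      rw [h1, h2] at h4
      exact Bool.noConfusion h4

private theorem ste_meas_even {f : (ℕ → Bool) → (ℕ → Bool)} (hf : Measurable f) (c : Cand) :
    MeasurableSet {u | ∀ m < (val c u).length,
      (val c u).getD m false = true → f u m = true} := by
  have h := measurableSet_gB hf (2 * encode c)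
  convert h using 1
  ext u
  exact gB_even.symm

theorem errset_le {f : (ℕ → Bool) → (ℕ → Bool)} (hf : Measurable f) (c : Cand) :
    coin.real (errset f c) ≤ stt f (2 * encode c + 1) + (1 - stt f (2 * encode c)) := by
  rw [ste_errset, ste_stt_even, ste_stt_odd]
  refine (measureReal_union_le _ _).trans ?_
  rw [measureReal_compl (ste_meas_even hf c), probReal_univ, add_comm]

theorem stt_even_ge {f : (ℕ → Bool) → (ℕ → Bool)} (hf : Measurable f) (c : Cand) :
    1 - coin.real (errset f c) ≤ stt f (2 * encode c) := by
  have h1 : coin.real ({u | ∀ m < (val c u).length,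
      (val c u).getD m false = true → f u m = true}ᶜ) ≤ coin.real (errset f c) := by
    rw [ste_errset]
    exact measureReal_mono Set.subset_union_left
  rw [measureReal_compl (ste_meas_even hf c), probReal_univ] at h1
  rw [ste_stt_even]
  linarith

theorem stt_odd_le {f : (ℕ → Bool) → (ℕ → Bool)} (_hf : Measurable f) (c : Cand) :
    stt f (2 * encode c + 1) ≤ coin.real (errset f c) := by
  rw [ste_stt_odd, ste_errset]
  exact measureReal_mono Set.subset_union_right

end Pool.Agent.SAX
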